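import Pool.Agent.MP_bd94e8_al.H83A.SpecA

/-!
Bounds pass from the problem to the submodule.
-/

set_option autoImplicit false
set_option linter.unusedSectionVars false

namespace Pool.Agent.MP_bd94e8_al.H83A

open Module Function H89

namespace B3A

variable {A : Type} [Ring A]

theorem exists_factor {T M N : Type} [AddCommGroup T] [Module A T] [AddCommGroup M] [Module A M]
    [AddCommGroup N] [Module A N] (f : T →ₗ[A] M) (hf : Surjective f) (ψ : T →ₗ[A] N)
    (h : ∀ x, f x = 0 → ψ x = 0) : ∃ G : M →ₗ[A] N, ∀ x, G (f x) = ψ x :=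
  ⟨(LinearMap.ker f).liftQ ψ h ∘ₗ (f.quotKerEquivOfSurjective hf).symm.toLinearMap, fun x => by
    have : (f.quotKerEquivOfSurjective hf).symm (f x) = Submodule.Quotient.mk x := by
      rw [LinearEquiv.symm_apply_eq]; rfl
    simp [this]⟩

variable {F S Z Ω P M : Type} [Field F] [AddCommGroup S] [Module A S] [Module F S]
  [SMulCommClass A F S] [AddCommGroup Z] [Module A Z] [AddCommGroup Ω] [Module A Ω]
  [AddCommGroup P] [Module A P] [AddCommGroup M] [Module A M] {ι : S →ₗ[A] Z} {κ : Ω →ₗ[A] P}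

/-- The sum map of a family. -/
def th (ι : S →ₗ[A] Z) {m : ℕ} (h : Fin m → (Z →ₗ[A] M)) : (Fin m → S) →ₗ[A] M :=
  ∑ j, h j ∘ₗ ι ∘ₗ LinearMap.proj j

theorem th_apply {m : ℕ} (h : Fin m → (Z →ₗ[A] M)) (x : Fin m → S) :
    th ι h x = ∑ j, h j (ι (x j)) := by simp [th]

theorem exists_th [IsSimpleModule A S] [IsNoetherian A M] : ∃ (m : ℕ) (h : Fin m → (Z →ₗ[A] M)),
    Injective (th ι h) ∧ LinearMap.range (th ι h) = Wm ι M := by
  obtain ⟨_, ⟨m, h, hi, rfl⟩, hm⟩ := set_has_maximal_iff_noetherian.2 ‹IsNoetherian A M›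
    {W | ∃ (m : ℕ) (h : Fin m → (Z →ₗ[A] M)), Injective (th ι h) ∧ LinearMap.range (th ι h) = W}
    ⟨_, 0, Fin.elim0, injective_of_subsingleton _, rfl⟩
  refine ⟨m, h, hi, le_antisymm ?_ (iSup_le fun g => ?_)⟩
  · rintro _ ⟨x, rfl⟩
    rw [th_apply]
    exact Submodule.sum_mem _ fun j _ => Submodule.mem_iSup_of_mem (h j) ⟨x j, rfl⟩
  · rcases eq_bot_or_eq_top ((LinearMap.range (th ι h)).comap (g ∘ₗ ι)) with e | e
    · have e1 : ∀ x : Fin (m + 1) → S, th ι (Fin.cons g h : Fin (m + 1) → (Z →ₗ[A] M)) x =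
          g (ι (x 0)) + th ι h (Fin.tail x) := fun x => by
        simp [th_apply, Fin.sum_univ_succ, Fin.tail]
      have e2 : ∀ y, g (ι y) ∈ LinearMap.range (th ι h) → y = 0 := fun y hy => by
        have : y ∈ (LinearMap.range (th ι h)).comap (g ∘ₗ ι) := hy
        rwa [e] at this
      refine (hm (LinearMap.range (th ι (Fin.cons g h : Fin (m + 1) → (Z →ₗ[A] M))))
        ⟨_, _, (injective_iff_map_eq_zero _).2 fun x hx => ?_, rfl⟩ (lt_of_le_of_ne ?_ ?_)).elim
      · rw [e1] at hx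
        have h0 := e2 (x 0) ⟨-Fin.tail x, by rw [map_neg, eq_neg_of_add_eq_zero_left hx]⟩
        rw [h0, map_zero, map_zero, zero_add] at hx
        have h1 := (injective_iff_map_eq_zero _).1 hi _ hx
        rw [← Fin.cons_self_tail x, h0, h1]
        ext j
        refine Fin.cases rfl (fun _ => rfl) j
      · rintro _ ⟨x, rfl⟩
        exact ⟨Fin.cons 0 x, by simp [e1]⟩
      · intro e3
        have := IsSimpleModule.nontrivial A S
        obtain ⟨y, hy⟩ := exists_ne (0 : S)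
        exact hy (e2 y (by rw [e3]; exact ⟨Fin.cons y 0, by simp [e1]⟩))
    · rintro _ ⟨y, rfl⟩
      have : y ∈ (LinearMap.range (th ι h)).comap (g ∘ₗ ι) := by rw [e]; trivial
      exact this

/-- The set `N0` as a subspace. -/
def N0s (hr : Red F ι) (κ : Ω →ₗ[A] P) : Submodule F (Ω →ₗ[A] S) where
  carrier := N0 ι κ
  zero_mem' := ⟨0, by simp⟩
  add_mem' := fun ⟨g, hg⟩ ⟨g', hg'⟩ => ⟨g + g', by
    rw [LinearMap.add_comp, LinearMap.comp_add, hg, hg']⟩
  smul_mem' := fun c η ⟨g, hg⟩ => by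
    obtain ⟨τ, hτ⟩ := hr.ext c
    refine ⟨τ ∘ₗ g, LinearMap.ext fun x => ?_⟩
    have := LinearMap.congr_fun hg x
    simp only [LinearMap.comp_apply] at this
    simp [this, hτ]

variable (κ) in
/-- Maps that extend along `κ`. -/
def Ex (M : Type) [AddCommGroup M] [Module A M] : AddSubgroup (Ω →ₗ[A] M) where
  carrier := {f | ∃ g : P →ₗ[A] M, g ∘ₗ κ = f}
  zero_mem' := ⟨0, by simp⟩
  add_mem' := fun ⟨g, hg⟩ ⟨g', hg'⟩ => ⟨g + g', by rw [LinearMap.add_comp, hg, hg']⟩
  neg_mem' := fun ⟨g, hg⟩ => ⟨-g, by rw [LinearMap.neg_comp, hg]⟩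

theorem ex_n0 {m : ℕ} (h : Fin m → (Z →ₗ[A] M)) {ν : Fin m → (Ω →ₗ[A] S)}
    (hν : ∀ j, ν j ∈ N0 ι κ) : th ι h ∘ₗ LinearMap.pi ν ∈ Ex κ M := by
  choose g hg using hν
  refine ⟨∑ j, h j ∘ₗ g j, LinearMap.ext fun x => ?_⟩
  have := fun j => LinearMap.congr_fun (hg j) x
  simp only [LinearMap.comp_apply] at this
  simp [th_apply, this]

theorem ex_congr {m : ℕ} (h : Fin m → (Z →ₗ[A] M)) {ν ν' : Fin m → (Ω →ₗ[A] S)}
    (hν : ∀ j, ν j - ν' j ∈ N0 ι κ) :
    th ι h ∘ₗ LinearMap.pi ν ∈ Ex κ M ↔ th ι h ∘ₗ LinearMap.pi ν' ∈ Ex κ M := by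
  have h1 := ex_n0 h hν
  have h2 : th ι h ∘ₗ LinearMap.pi (fun j => ν j - ν' j) =
      th ι h ∘ₗ LinearMap.pi ν - th ι h ∘ₗ LinearMap.pi ν' := by
    ext x
    simp [th_apply]
  rw [h2] at h1
  exact ⟨fun h3 => by simpa using sub_mem h3 h1, fun h3 => by simpa using add_mem h1 h3⟩

variable {Pt : Type} [Fintype Pt]

/-- The family of maps given by coordinates. -/
def co (n : Pt → (Ω →ₗ[A] S)) {m : ℕ} (u : Pt → Fin m → F) (j : Fin m) : Ω →ₗ[A] S :=
  ∑ p, u p j • n p

variable (F ι κ) in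
/-- The subgroup of the object. -/
def UU (n : Pt → (Ω →ₗ[A] S)) {m : ℕ} (h : Fin m → (Z →ₗ[A] M)) :
    AddSubgroup (Pt → Fin m → F) :=
  (Ex κ M).comap
    { toFun := fun u => th ι h ∘ₗ LinearMap.pi (co n u)
      map_zero' := by ext x; simp [th_apply, co]
      map_add' := fun u u' => by
        ext x; simp [th_apply, co, add_smul, Finset.sum_add_distrib] }

theorem mem_UU {n : Pt → (Ω →ₗ[A] S)} {m : ℕ} {h : Fin m → (Z →ₗ[A] M)} {u : Pt → Fin m → F} :
    u ∈ UU F ι κ n h ↔ th ι h ∘ₗ LinearMap.pi (co n u) ∈ Ex κ M := Iff.rfl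

theorem UU_stab (hr : Red F ι) {n : Pt → (Ω →ₗ[A] S)} {m : ℕ} {h : Fin m → (Z →ₗ[A] M)}
    {b : Matrix Pt Pt F} (hb : b ∈ BSet F ι κ n) {u : Pt → Fin m → F} (hu : u ∈ UU F ι κ n h) :
    act b u ∈ UU F ι κ n h := by
  obtain ⟨γ, γ', h1, h2⟩ := hb
  obtain ⟨g, hg⟩ := hu
  refine (ex_congr h (ν := fun j => co n u j ∘ₗ γ') fun j => ?_).1 ⟨g ∘ₗ γ, ?_⟩
  · have : co n u j ∘ₗ γ' - co n (act b u) j =
        ∑ p, u p j • (n p ∘ₗ γ' - ∑ q, b q p • n q) := by
      ext x
      simp only [co, act, LinearMap.sub_apply, LinearMap.comp_apply, LinearMap.sum_apply,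
        LinearMap.smul_apply, Finset.sum_apply, Pi.smul_apply, smul_eq_mul, smul_sub,
        Finset.sum_sub_distrib, Finset.sum_smul, Finset.smul_sum, smul_smul]
      rw [Finset.sum_comm]
      simp only [mul_comm]
    rw [this]
    exact (N0s hr κ).sum_mem fun p _ => (N0s hr κ).smul_mem _ (h2 p)
  · rw [LinearMap.comp_assoc, h1, ← LinearMap.comp_assoc, hg]
    rfl

/-- The map on tuples given by a linear map on coordinates. -/
noncomputable def mt (S : Type) [AddCommGroup S] [Module A S] [Module F S] [SMulCommClass A F S]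
    {m : ℕ} (e : (Fin m → F) →ₗ[F] (Fin m → F)) : (Fin m → S) →ₗ[A] (Fin m → S) where
  toFun x j := ∑ l, LinearMap.toMatrix' e j l • x l
  map_add' x y := by ext j; simp [Finset.sum_add_distrib]
  map_smul' a x := by ext j; simp [Finset.smul_sum, smul_comm a]

theorem mt_apply {m : ℕ} (e : (Fin m → F) →ₗ[F] (Fin m → F)) (x : Fin m → S) (j : Fin m) :
    mt (A := A) S e x j = ∑ l, LinearMap.toMatrix' e j l • x l := rfl

theorem mt_tens {m : ℕ} (e : (Fin m → F) →ₗ[F] (Fin m → F)) (v : Fin m → F) (y : S) :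
    mt (A := A) S e (fun l => v l • y) = fun j => e v j • y := by
  ext j
  rw [mt_apply, ← LinearMap.toMatrix'_mulVec]
  simp [Matrix.mulVec, dotProduct, Finset.sum_smul, smul_smul]

theorem mt_idem {m : ℕ} {e : (Fin m → F) →ₗ[F] (Fin m → F)} (he : e ∘ₗ e = e) (x : Fin m → S) :
    mt (A := A) S e (mt (A := A) S e x) = mt (A := A) S e x := by
  ext j
  conv_rhs => rw [← he, mt_apply, LinearMap.toMatrix'_comp]
  simp only [mt_apply, Matrix.mul_apply, Finset.smul_sum, Finset.sum_smul, smul_smul]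
  rw [Finset.sum_comm]

end B3A

open B3A in
theorem lift : SLift := by
  intro A Ω P Y M _ _ _ _ _ _ _ _ _ _ κ π W g r hex hs ⟨a, b, hab⟩ h
  choose p hp using fun s : Fin r => Module.projective_lifting_property W.mkQ
    (b ∘ₗ LinearMap.single A (fun _ => Y) s ∘ₗ π) W.mkQ_surjective
  have hp' : ∀ s x, W.mkQ (p s x) = b (Pi.single s (π x)) := fun s x =>
    LinearMap.congr_fun (hp s) x
  have hW : ∀ s y, (p s ∘ₗ κ) y ∈ W := fun s y => by
    rw [← Submodule.Quotient.mk_eq_zero, ← Submodule.mkQ_apply, LinearMap.comp_apply, hp',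
      hex.apply_apply_eq_zero]
    simp
  choose q hq using fun s => h (p s) ((p s ∘ₗ κ).codRestrict W (hW s)) rfl
  let T : Submodule A (M × (Fin r → P)) := LinearMap.eqLocus (a ∘ₗ W.mkQ ∘ₗ LinearMap.fst A _ _)
    (LinearMap.pi (fun s => π ∘ₗ LinearMap.proj s) ∘ₗ LinearMap.snd A _ _)
  have hT : ∀ t : M × (Fin r → P), t ∈ T ↔ a (W.mkQ t.1) = fun s => π (t.2 s) := fun t => Iff.rfl
  let d : (M × (Fin r → P)) →ₗ[A] M :=
    LinearMap.fst A _ _ - (∑ s, p s ∘ₗ LinearMap.proj s) ∘ₗ LinearMap.snd A _ _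
  have hd : ∀ t, d t = t.1 - ∑ s, p s (t.2 s) := fun t => by simp [d]
  have hdW : ∀ t : T, (d ∘ₗ T.subtype) t ∈ W := fun t => by
    rw [← Submodule.Quotient.mk_eq_zero, ← Submodule.mkQ_apply, LinearMap.comp_apply, hd, map_sub,
      map_sum, sub_eq_zero]
    simp only [hp', ← map_sum]
    rw [Finset.univ_sum_single fun s => π ((T.subtype t).2 s), ← (hT (T.subtype t)).1 t.2]
    exact (LinearMap.congr_fun hab _).symm
  obtain ⟨G, hG⟩ := exists_factor (LinearMap.fst A _ _ ∘ₗ T.subtype) (fun x => by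
      choose y hy using fun s => hs (a (W.mkQ x) s)
      exact ⟨⟨(x, y), (hT _).2 (funext fun s => (hy s).symm)⟩, rfl⟩)
    (W.subtype ∘ₗ g ∘ₗ (d ∘ₗ T.subtype).codRestrict W hdW +
      (∑ s, q s ∘ₗ LinearMap.proj s) ∘ₗ LinearMap.snd A _ _ ∘ₗ T.subtype) (by
      rintro ⟨⟨x, y⟩, ht⟩ hx
      obtain rfl : x = 0 := hx
      have h1 : ∀ s, π (y s) = 0 := fun s => by
        have := congrFun ((hT _).1 ht) s
        simpa using this.symm
      choose z hz using fun s => (hex _).1 (h1 s)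
      have h2 : (d ∘ₗ T.subtype).codRestrict W hdW ⟨(0, y), ht⟩ =
          -∑ s, (p s ∘ₗ κ).codRestrict W (hW s) (z s) := by
        ext
        simp [hd, hz]
      have h3 : ∀ s, q s (y s) = W.subtype (g ((p s ∘ₗ κ).codRestrict W (hW s) (z s))) :=
        fun s => by rw [← hz s]; exact LinearMap.congr_fun (hq s) (z s)
      simp only [LinearMap.add_apply, LinearMap.comp_apply, h2, map_neg, map_sum]
      simp [h3])
  refine ⟨G, LinearMap.ext fun w => ?_⟩
  have hw : ((w : M), (0 : Fin r → P)) ∈ T := (hT _).2 (by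
    rw [Submodule.mkQ_apply, (Submodule.Quotient.mk_eq_zero W).2 w.2, map_zero]
    ext s
    simp)
  have h2 : (d ∘ₗ T.subtype).codRestrict W hdW ⟨_, hw⟩ = w := by
    ext
    simp [hd]
  have := hG ⟨_, hw⟩
  simp only [LinearMap.add_apply, LinearMap.comp_apply, h2] at this
  simpa using this

open B3A in
theorem b3 (hL : SLift) : SB3 := by
  intro C A F S Z _ _ _ _ _ _ _ _ _ _ _ _ _ _ ι hr _ k _ _ Ω P Y _ _ _ _ _ _ _ κ π Pt _ _ n B hp hb
    hB ⟨c, hc⟩
  refine ⟨c, fun M _ _ _ hM ⟨r, hs⟩ => ?_⟩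
  have := hr.simple
  have := IsSimpleModule.nontrivial A S
  have : IsArtinianRing A := IsArtinianRing.of_finite C A
  obtain ⟨m, h, hi, hW⟩ := exists_th (ι := ι) (M := M)
  let E : (Fin m → S) ≃ₗ[A] Wm ι M := (LinearEquiv.ofInjective _ hi).trans (LinearEquiv.ofEq _ _ hW)
  have hE : ∀ x, (E x : M) = th ι h x := fun _ => rfl
  have hl : length A (Wm ι M) = m := by
    rw [← E.length_eq, length_pi_of_fintype]
    simp
  rw [hl, Nat.cast_le]
  rcases Nat.eq_zero_or_pos m with rfl | hm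
  · exact Nat.zero_le c
  have : Nonempty (Fin m) := ⟨⟨0, hm⟩⟩
  let N : Obj (Prob.triv B) (Fin m → F) :=
    { ε := fun _ => LinearMap.id
      orth := fun _ _ h => (h rfl).elim
      sum := by simp
      U := UU F ι κ n h
      peak := fun _ _ _ => rfl
      stab := fun b hb' u hu => UU_stab hr (by rw [← hB]; exact hb') hu }
  have := hc _ N ⟨inferInstance, fun e he hee => ?_⟩
  · simpa using this
  obtain ⟨G, hG⟩ := hL A Ω P Y M κ π (Wm ι M)
    (E.toLinearMap ∘ₗ mt S e ∘ₗ E.symm.toLinearMap) r hp.exact hp.surj hs fun p η hη => by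
      choose u hu using fun j => hb.span (LinearMap.proj j ∘ₗ E.symm.toLinearMap ∘ₗ η)
      have h1 : (fun q j => u j q) ∈ UU F ι κ n h := by
        refine (ex_congr h hu).1 ⟨p, hη.trans (LinearMap.ext fun x => ?_)⟩
        change _ = th ι h (E.symm (η x))
        rw [← hE, E.apply_symm_apply]
        rfl
      refine (ex_congr h (ν := fun j => LinearMap.proj j ∘ₗ mt S e ∘ₗ E.symm.toLinearMap ∘ₗ η)
        fun j => ?_).2 (he.2 _ h1)
      have : LinearMap.proj j ∘ₗ mt S e ∘ₗ E.symm.toLinearMap ∘ₗ η -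
          co n (fun q => e fun l => u l q) j = ∑ l, LinearMap.toMatrix' e j l •
            (LinearMap.proj l ∘ₗ E.symm.toLinearMap ∘ₗ η - ∑ q, u l q • n q) := by
        ext x
        simp only [co, ← LinearMap.toMatrix'_mulVec e, Matrix.mulVec, dotProduct,
          LinearMap.sub_apply, LinearMap.comp_apply, LinearMap.sum_apply, LinearMap.smul_apply,
          LinearMap.proj_apply, mt_apply, smul_sub, Finset.sum_sub_distrib, Finset.sum_smul,
          Finset.smul_sum, smul_smul]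
        rw [Finset.sum_comm]
      rw [this]
      exact (N0s hr κ).sum_mem fun l _ => (N0s hr κ).smul_mem _ (hu l)
  have hG' : ∀ x, G (th ι h x) = th ι h (mt S e x) := fun x => by
    have := LinearMap.congr_fun hG (E x)
    simpa [hE] using this
  obtain ⟨y, hy⟩ := exists_ne (0 : S)
  have fin : ∀ v w : Fin m → F, (fun j => v j • y) = (fun j => w j • y) → v = w :=
    fun v w h => funext fun j => smul_left_injective F hy (congrFun h j)
  rcases hM.unit_or_nil G with hu | hn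
  · right
    refine LinearMap.ext fun v => fin _ _ ?_
    rw [← mt_tens (A := A)]
    refine hi (((Module.End.isUnit_iff G).1 hu).1 ?_)
    rw [hG', hG', mt_idem hee]
    rfl
  · left
    refine LinearMap.ext fun v => fin _ _ ?_
    rw [← mt_tens (A := A)]
    refine hi (((Module.End.isUnit_iff _).1 hn.isUnit_one_sub).1 ?_)
    rw [LinearMap.sub_apply, Module.End.one_apply, hG', mt_idem hee, sub_self]
    have : (fun j => (0 : (Fin m → F) →ₗ[F] (Fin m → F)) v j • y) = 0 := by ext; simp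
    rw [this, map_zero, map_zero]

end Pool.Agent.MP_bd94e8_al.H83A
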