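import Pool.Agent.MP_bd94e8_al.H89.Spec

/-!
The structure of thin non-valued problems from the steps.
-/

set_option autoImplicit false
set_option linter.unusedSectionVars false

namespace Pool.Agent.MP_bd94e8_al.H89

open Module Function

theorem DgA.tf (s : Multiplicative ℝ) (n : ℕ) (hn : 0 < n) (h : s ^ n = 1) : s = 1 := by
  have h1 : n • Multiplicative.toAdd s = 0 := by
    rw [← toAdd_pow, h]; rfl
  rcases smul_eq_zero.1 h1 with h2 | h2
  · omega
  · exact Multiplicative.toAdd.injective h2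

theorem dg (hW : SW) (hWP : SWP) (hWin : SWin) (hCov : SCov) (hFD : SFD) (hC1 : SCov1)
    (hPush : SPush) : SDG := by
  intro k F _ _ _ _ Pt ι _ _ _ Q Qu ht hf hy hu hth
  obtain ⟨htw, w, hgr, hfd, hl⟩ := hW k F Pt ι Q Qu ht hf hy hu hth
  have win : ∀ (T I O : Type) [Fintype T] [DecidableEq T] [Fintype I] [Fintype O]
      (J : Prob k F T I O) (π : T → Pt) (γ : I → ι × Multiplicative ℝ)
      (θ : O → Unit × Multiplicative ℝ), Lift J Qu (fun p => Multiplicative.ofAdd (w p)) π γ θ →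
      J.Bnd ∧ J.Small (2 * (Fintype.card Pt ^ 2 + 1) + 20) ∧ DG J (Fintype.card Pt ^ 2 + 1) := by
    intro T I O _ _ _ _ J π γ θ hL
    have td := hl T I O J π γ θ hL
    exact hWin k F T I O J _ td fun T' I' O' _ _ _ _ J' π' hc td' =>
      hWP k F Pt ι Q Qu ht hf htw hy hu T I O J π _ hL.cov td T' I' O' J' π' hc td'
  obtain ⟨gb, -, -, hp⟩ := hCov k F Pt ι Unit Qu (Multiplicative ℝ) _ DgA.tf hgr
    (2 * (Fintype.card Pt ^ 2 + 1) + 20) (fun _ => True) (fun Γ h => ⟨Γ, le_rfl, h, trivial⟩)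
    (fun T I O _ _ _ _ J π γ θ hL _ => ⟨(win T I O J π γ θ hL).1, (win T I O J π γ θ hL).2.1⟩)
  refine ⟨hFD k F Pt ι Q Qu w hu.1 hfd gb, fun V _ _ _ M hM => ?_⟩
  obtain ⟨T, I, O, i1, i2, i3, i4, J, π, γ, θ, N, hL, -, hN, hP⟩ := hp V M hM
  obtain ⟨T', I', O', j1, j2, j3, j4, J', π', ρ', N', hc, td, wp, hP', hn⟩ :=
    (win T I O J π γ θ hL).2.2 V N hN
  exact ⟨T', I', O', j1, j2, j3, j4, J', π ∘ π', _, N',
    (hC1 k F Pt ι Unit Qu T I O J π hL.cov).1 T' I' O' J' π' hc, td, wp,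
    (hPush k F Pt ι Unit Qu T I O J π _ V N M hL.cov hP).1 T' I' O' J' π' ρ' N' hc hP', hn⟩

end Pool.Agent.MP_bd94e8_al.H89
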