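import Pool.Agent.MP_bd94e8_al.H89.Spec

/-!
The final form of the theorem.
-/

set_option autoImplicit false

namespace Pool.Agent.MP_bd94e8_al.H89

theorem last (h : SAll) :
    ∀ (R : Type) [CommRing R] [IsArtinianRing R] (A : Type) [Ring A] [Algebra R A]
      [Module.Finite R A],
      (∀ (n : ℕ) (N : Fin n → Type) [∀ i, AddCommGroup (N i)] [∀ i, Module A (N i)],
        ∃ (M : Type) (_ : AddCommGroup M) (_ : Module A M),
          Module.Finite A M ∧ Nontrivial M ∧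
          (∀ P Q : Submodule A M, IsCompl P Q → P = ⊥ ∨ Q = ⊥) ∧
          ∀ i, IsEmpty (M ≃ₗ[A] N i)) →
      ∃ (G : Type) (_ : AddCommGroup G) (_ : Module A G),
        Nontrivial G ∧
        (∀ P Q : Submodule A G, IsCompl P Q → P = ⊥ ∨ Q = ⊥) ∧
        ¬ Module.Finite A G ∧
        IsNoetherian (Module.End A G) G ∧ IsArtinian (Module.End A G) G := by
  intro R _ _ A _ _ _ hinf
  by_cases hg : H83.HasGeneric A
  · obtain ⟨G, i1, i2, h1, h2, h3, h4⟩ := hg
    exact ⟨G, i1, i2, h1.1, h1.2, h2, h3, h4⟩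
  · obtain ⟨n, X, i1, i2, -, hX⟩ := h R A hg
    obtain ⟨M, j1, j2, h1, h2, h3, h4⟩ := hinf n X
    obtain ⟨i, ⟨e⟩⟩ := hX M h1 ⟨h2, h3⟩ trivial
    exact ((h4 i).false e).elim

end Pool.Agent.MP_bd94e8_al.H89
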