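import Pool.Agent.MP_bd94e8_al.H89.Spec

/-!
The main theorem for basic problems from the steps.
-/

set_option autoImplicit false
set_option linter.unusedSectionVars false

namespace Pool.Agent.MP_bd94e8_al.H89

open Module Function

namespace MainA

variable {k F : Type} [Field k] [Field F] [Algebra k F] {Pt ι : Type} [Fintype Pt]
  [DecidableEq Pt]

theorem hyp_conj (hHT : SHT) {P P' : Prob k F Pt ι Unit} {g g' : Matrix Pt Pt F}
    (h : IsConj P P' g g') (hy : Hyp P.B) : Hyp P'.B := by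
  refine hHT k F Pt Pt P.B P'.B g' g h.mul (fun b hb => (h.mem _).2 ?_) hy
  have : g' * (g * b * g') * g = (g' * g) * b * (g' * g) := by simp only [Matrix.mul_assoc]
  rw [this, h.mul']
  simpa using hb

theorem hyp_le (hHT : SHT) {B B' : Subalgebra k (Matrix Pt Pt F)} (h : B ≤ B') (hy : Hyp B) :
    Hyp B' :=
  hHT k F Pt Pt B B' 1 1 (by simp) (fun b hb => by simpa using h hb) hy

theorem hyp_sub (hHT : SHT) {Ω : Type} (P : Prob k F Pt ι Ω) (S : Pt → Prop) [DecidablePred S]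
    (h : SubOk P S) (hy : Hyp P.B) : Hyp (P.sub S h).B := by
  have key : ∀ b : Matrix Pt Pt F,
      (1 : Matrix Pt Pt F).submatrix (Subtype.val : {p // S p} → Pt) id * b *
        (1 : Matrix Pt Pt F).submatrix id (Subtype.val : {p // S p} → Pt) =
        b.submatrix Subtype.val Subtype.val := by
    intro b
    ext q p
    simp [Matrix.mul_apply, Matrix.one_apply]
  refine hHT k F Pt {p // S p} P.B (P.sub S h).B
    ((1 : Matrix Pt Pt F).submatrix id Subtype.val) ((1 : Matrix Pt Pt F).submatrix Subtype.val id)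
    ?_ (fun b hb => ⟨b, hb, (key b).symm⟩) hy
  have := key 1
  rw [Matrix.mul_one] at this
  rw [this]
  ext q p
  simp [Matrix.one_apply, Subtype.ext_iff]

theorem bnd_mor (hM : SMor) {Ω : Type} [Fintype Ω] (P : Prob k F Pt ι Ω) (S : Pt → Prop)
    [DecidablePred S] (hm : MorOk P S) (h : SubOk P S) (hb : (P.sub S h).Bnd) : P.Bnd := by
  obtain ⟨c, hc⟩ := hb
  refine ⟨c, fun V _ _ _ M hM' => ?_⟩
  obtain ⟨M', -, h2, -⟩ := (hM k F Pt ι Ω P S hm).2 h V M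
  exact hc V M' ⟨hM'.1, fun e he => hM'.2 e ((h2 e).2 he)⟩

theorem exists_rep {P : Prob k F Pt ι Unit} {val : Set ι} {ht : Pt → ℕ} (h : Flag P val ht) :
    ∃ S : Pt → Prop, IsRep P.vt val S := by
  have h1 : ∀ z ∈ val, ∃ p, P.vt p = z := by
    intro z hz
    obtain ⟨y, -, h2⟩ := h.num z hz
    have : Nat.card {p // P.vt p = z} ≠ 0 := fun e => by simp [e] at h2
    obtain ⟨p⟩ := (Nat.card_ne_zero.1 this).1
    exact ⟨p.1, p.2⟩
  choose r hr using h1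
  refine ⟨fun p => ∀ hp : P.vt p ∈ val, p = r _ hp, fun p hp hp' => (hp hp').elim, fun z hz => ?_⟩
  refine ⟨r z hz, ⟨hr z hz, fun hp => ?_⟩, fun p hp => ?_⟩
  · congr 1
    exact (hr z hz).symm
  · obtain ⟨rfl, h2⟩ := hp
    exact h2 hz

theorem bnd_nv (hHT : SHT) (hConj : SConj) (hTT : STT) (hGood : SGood) (hUntw : SUntw)
    (hThin : SThin) (hDG : SDG) [FiniteDimensional k F] [Fintype ι] (Q : Prob k F Pt ι Unit)
    (ht : Pt → ℕ) (hf : Flag Q ∅ ht) (hy : Hyp Q.B) : Q.Bnd := by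
  obtain ⟨Q', g, g', hc, h1, h2, hth⟩ := hThin k F Pt ι Q ht hf hy
  obtain ⟨c1, -, c3⟩ := (hConj k F Pt ι Q).2 Q' g g' hc
  have hf' := c3 ∅ ht (fun q p h _ => h1 q p h) (fun q p h _ => h2 q p h) hf
  have hy' := hyp_conj hHT hc hy
  obtain ⟨t1, t2⟩ := hTT k F Pt ι Q' ∅ ht hf' hy'
  obtain ⟨-, ⟨Qu, hu⟩, -⟩ := hUntw k F Pt ι Q' ht hf' (hGood k F Pt ι Q' ∅ ht hf' t1 t2)
  exact c1 (hDG k F Pt ι Q' Qu ht hf' hy' hu hth).1

end MainA

open MainA in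
theorem main (hHT : SHT) (hConj : SConj) (hMor : SMor) (hLoc : SLoc) (hTT : STT) (hGood : SGood)
    (hUntw : SUntw) (hE1 : SEnl1) (hE2 : SEnl2) (hDG : SDG) (hThin : SThin) (hTV : SThinV)
    (hMix : SMix) (hGF : SGenF) (hVal : SVal) : SMain := by
  intro k F _ _ _ _ _ Pt ι _ _ _ P0 hloc hy0
  classical
  obtain ⟨P1, g1, g1', val, ht, hc1, hf1⟩ := hLoc k F Pt ι P0 hloc hy0
  have hy1 := hyp_conj hHT hc1 hy0
  refine ((hConj k F Pt ι P0).2 P1 g1 g1' hc1).1 ?_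
  obtain ⟨S, hS1⟩ := exists_rep hf1
  obtain ⟨P, g, g', hc, hf, hth⟩ := hTV k F Pt ι P1 val ht S hf1 hy1 hS1
  have hy := hyp_conj hHT hc hy1
  refine ((hConj k F Pt ι P1).2 P g g' hc).1 ?_
  have hS : IsRep P.vt val S := by rw [hc.vt]; exact hS1
  obtain ⟨t1, t2⟩ := hTT k F Pt ι P val ht hf hy
  have hg := hGood k F Pt ι P val ht hf t1 t2
  obtain ⟨⟨Pp, hp⟩, ⟨Pd, hd⟩, ⟨Pf, hF⟩, hle⟩ := hE1 k F Pt ι P val ht hf hg
  obtain ⟨e1, e2⟩ := hE2 k F Pt ι P val ht S hf hg hS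
  obtain ⟨d1, d2, d3⟩ := e1 Pd hd
  obtain ⟨f1, f2, f3⟩ := e2 Pf hF
  obtain ⟨p1, p2, p3⟩ := f3 Pp hp
  have hsd := (hMor k F Pt ι Unit Pd S d2).1
  have hsf := (hMor k F Pt ι Unit Pf S f1).1
  have bd : Pd.Bnd := bnd_mor hMor Pd S d2 hsd (bnd_nv hHT hConj hTT hGood hUntw hThin hDG _ _
    (d3 hsd) (hyp_sub hHT Pd S hsd (hyp_le hHT d1 hy)))
  have hyp' := hyp_le hHT p1 hy
  have hSp : IsRep Pp.vt val S := by rw [hp.1]; exact hS
  obtain ⟨g1, g2⟩ := f2 hsf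
  have bp : Pp.Bnd := hVal k F Pt ι Pp Pf val ht S hsf p2 hyp' hSp p3 g1 g2 (hth Pf hF hsf)
  have hyf := hyp_sub hHT Pf S hsf (hyp_le hHT (hle Pf hF).1 hy)
  obtain ⟨s1, s2⟩ := hTT k F _ ι _ ∅ _ g1 hyf
  obtain ⟨-, ⟨Qu, hu⟩, -, -, -, hq⟩ := hUntw k F _ ι _ _ g1 (hGood k F _ ι _ ∅ _ g1 s1 s2)
  have hB := (hq Qu hu).2.2.2.2 g2
  have hu' : IsUntw (Pf.sub S hsf) (Pf.sub S hsf) := ⟨rfl, fun b => by rw [← hu.2 b, hB]⟩
  have dg := (hDG k F _ ι _ _ _ g1 hyf hu' (hth Pf hF hsf)).2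
  refine hMix k F Pt ι P Pp Pd Pf val ht hf hg hp hd hF (fun V _ _ _ M hM => ?_) bp bd
  have := hGF k F Pt ι Pp Pf val ht S hsf _ p2 hyp' hSp p3 f1 dg V M hM
  rwa [hp.1] at this

end Pool.Agent.MP_bd94e8_al.H89
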