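import Pool.Agent.MP_bd94e8_al.H89.Val

/-!
Thin directed problems with separation, and windows.
-/

set_option autoImplicit false
set_option linter.unusedSectionVars false

namespace Pool.Agent.MP_bd94e8_al.H89

open Module Function

namespace PfA

variable {k F : Type} [Field k] [Field F] [Algebra k F] {Pt ι Ω : Type} [Fintype Pt]
  [DecidableEq Pt]

theorem sum_blk [Fintype ι] (P : Prob k F Pt ι Ω) (b : Matrix Pt Pt F) :
    ∑ i, ∑ j, P.blk i j b = b := by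
  ext q p
  simp only [Matrix.sum_apply]
  rw [Finset.sum_eq_single (P.vt p) (fun i _ hi => Finset.sum_eq_zero fun j _ =>
    P.blk_neg b fun h => hi h.1.symm) (by simp), Finset.sum_eq_single (P.vt q)
    (fun j _ hj => P.blk_neg b fun h => hj h.2.symm) (by simp), P.blk_pos b rfl rfl]

theorem cover_id [Fintype ι] (P : Prob k F Pt ι Ω) : Cover P P id where
  vt_eq _ _ h := h
  inj _ _ _ h := h
  full _ p h := ⟨p, h, rfl⟩
  pk_eq _ _ h := h
  uniq _ _ h _ := h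
  mem b := ⟨fun hb => ⟨P.peak b hb, fun _ _ => ⟨b, hb, fun _ _ _ _ => rfl⟩⟩, fun ⟨_, h⟩ => by
    rw [← sum_blk P b]
    refine P.B.sum_mem fun i _ => P.B.sum_mem fun j _ => ?_
    obtain ⟨c, hc, e⟩ := h i j
    have : P.blk i j b = P.blk i j c := by
      ext q p
      by_cases h1 : P.vt p = i ∧ P.vt q = j
      · rw [P.blk_pos _ h1.1 h1.2, P.blk_pos _ h1.1 h1.2]; exact e p q h1.1 h1.2
      · rw [P.blk_neg _ h1, P.blk_neg _ h1]
    rw [this]
    exact (P.blk_mem hc i j).1⟩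
  homog h hh _ _ := ⟨h, hh, fun t t' _ _ => ⟨fun _ => rfl, fun e => by
    by_contra e'
    exact e (P.peak h hh _ _ e')⟩⟩

end PfA

theorem pf (hStar : SStar) (hGram : SGram) (hLW : SLW) : SPF := by
  intro k F _ _ _ _ Pt ι Ω _ _ _ _ J L td sp wp
  obtain ⟨uf, np, nr, rt, fr, dir, -⟩ := hGram k F Pt ι Ω J L td wp
  obtain ⟨bd, nice⟩ := hStar k F Pt ι Ω J dir sp wp
  have nice' := nice td.scal fun i => (fr i).le
  refine ⟨bd, fun V _ _ _ M hM o o' ho ho' => ?_, nice'⟩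
  obtain ⟨-, d, -, hr⟩ := nice' V M hM
  have pos : ∀ o, M.ε o ≠ 0 → 0 < finrank F (LinearMap.range (M.ε o)) := fun o h => by
    rwa [Nat.pos_iff_ne_zero, Ne, Submodule.finrank_eq_zero, LinearMap.range_eq_bot]
  exact nr _ o o' (hLW ι Ω _ L uf np _ (by rintro (i | i) <;> simp [vec]) (rt _ _ hr) o o'
    (by simpa [vec] using pos o ho) (by simpa [vec] using pos o' ho'))

open ValA PfA in
theorem win (hComb : SComb) (hFree : SFree) (hGr : SGr) (hSep : SSep) (hPF : SPF) (hCov : SCov)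
    (hGram : SGram) : SWin := by
  intro k F _ _ _ _ Pt ι Ω _ _ _ _ J L td hwp
  have wp := hwp Pt ι Ω J id (cover_id J) td
  obtain ⟨deg, gr, sd⟩ := free_grading hComb hFree hGr td
  obtain ⟨cof, sp⟩ := hSep k F Pt ι Ω J _ deg ∅ (hGram k F Pt ι Ω J L td wp).2.2.2.2.2.1 sd
    (fun p q h1 _ h2 => td.dist p q h1 h2) (fun i j _ c b hb => td.scal c b hb.1)
    (fun z hz => hz.elim) (fun p q _ hz => hz.elim)
  have key : ∀ (T I O : Type) [Fintype T] [DecidableEq T] [Fintype I] [Fintype O]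
      (J' : Prob k F T I O) (π : T → Pt) (γ : I → ι × FreeGroup Pt) (θ : O → Ω × FreeGroup Pt),
      Lift J' J deg π γ θ → (∀ x ∈ Set.range γ, ∀ y, LS J.vt J.Ar deg x y → y ∈ Set.range γ) →
      ThinDir J' L ∧ J'.WP ∧ J'.Bnd ∧ J'.Small (2 * L + 20) ∧ ∀ (V : Type) [AddCommGroup V]
        [Module F V] [FiniteDimensional F V] (M : Obj J' V), M.Indec → Nice M := by
    intro T I O _ _ _ _ J' π γ θ hL cl
    have td' := thinDir_cover hGr td hL.cov hL.surj
    have wp' := hwp T I O J' π hL.cov td'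
    exact ⟨td', wp', hPF k F T I O J' L td' (sp T I O J' π γ θ hL cl).2 wp'⟩
  obtain ⟨-, bd, sm, hp⟩ := hCov k F Pt ι Ω J _ deg tf_free gr (2 * L + 20)
    (fun Γ => ∀ x ∈ Γ, ∀ y, LS J.vt J.Ar deg x y → y ∈ Γ) cof
    fun T I O _ _ _ _ J' π γ θ hL cl =>
      ⟨(key T I O J' π γ θ hL cl).2.2.1, (key T I O J' π γ θ hL cl).2.2.2.1⟩
  refine ⟨bd, sm, fun V _ _ _ M hM => ?_⟩
  obtain ⟨T, I, O, i1, i2, i3, i4, J', π, γ, θ, N, hL, cl, hN, hP⟩ := hp V M hM
  obtain ⟨td', wp', -, -, nice⟩ := key T I O J' π γ θ hL cl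
  exact ⟨T, I, O, i1, i2, i3, i4, J', π, _, N, hL.cov, td', wp', hP, nice V N hN⟩

end Pool.Agent.MP_bd94e8_al.H89
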