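import Pool.Agent.MP_bd94e8_al.H6K.KSpec

/-!
Every extension of triples is realized.
-/

set_option autoImplicit false
set_option linter.unusedSectionVars false

namespace Pool.Agent.MP_bd94e8_al.H6K

open CategoryTheory Module Pool.Agent.MP_bd94e8_al.H89 Tri

namespace KC2

variable {k F : Type} [Field k] [Field F] [Algebra k F] {Pt ι Ω : Type} [Fintype Pt]
  [DecidableEq Pt] [Fintype Ω] {J : Prob k F Pt ι Ω} {Z X : Tri J}

/-- The middle term. -/
noncomputable def mid (D : der Z X) : Tri J where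
  X := X.X × Z.X
  V := X.V × Z.V
  ε o := (X.ε o).prodMap (Z.ε o)
  orth o o' h := LinearMap.ext fun v => Prod.ext (LinearMap.congr_fun (X.orth o o' h) v.1)
    (LinearMap.congr_fun (Z.orth o o' h) v.2)
  sum := LinearMap.ext fun v => Prod.ext
    (by simpa [LinearMap.sum_apply, Prod.fst_sum] using LinearMap.congr_fun X.sum v.1)
    (by simpa [LinearMap.sum_apply, Prod.snd_sum] using LinearMap.congr_fun Z.sum v.2)
  φ := Lm.map J (LinearMap.inl F X.V Z.V) ∘ₗ (X.φ.coprod D.1) +
    Lm.map J (LinearMap.inr F X.V Z.V) ∘ₗ Z.φ ∘ₗ LinearMap.snd _ _ _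
  peak x p := by
    simp [Lm.add_apply, Lm.map_apply, X.peak, Z.peak, D.2 _ p]

theorem mid_φ (D : der Z X) (x : X.X × Z.X) (p : Pt) :
    (mid D).φ x p = (X.φ x.1 p + D.1 x.2 p, Z.φ x.2 p) :=
  Prod.ext (add_zero _) (zero_add _)

theorem mid_ε (D : der Z X) (o : Ω) (v : X.V × Z.V) : (mid D).ε o v = (X.ε o v.1, Z.ε o v.2) := rfl

/-- The inclusion. -/
noncomputable def inc (D : der Z X) : X ⟶ mid D :=
  mkHom (LinearMap.inl _ _ _) (LinearMap.inl _ _ _)
    (fun o v => Prod.ext rfl (map_zero (Z.ε o)).symm) fun x p => by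
      refine (mid_φ D (x, 0) p).trans ?_
      rw [map_zero, map_zero, Lm.zero_apply, Lm.zero_apply, add_zero]
      rfl

/-- The projection. -/
noncomputable def prj (D : der Z X) : mid D ⟶ Z :=
  mkHom (LinearMap.snd _ _ _) (LinearMap.snd _ _ _) (fun _ _ => rfl) fun x p => by
    rw [mid_φ]; rfl

theorem hx_ap {M N : Tri J} {f g : M ⟶ N} (h : f = g) (x : M.X) : hx f x = hx g x := by rw [h]

theorem hv_ap {M N : Tri J} {f g : M ⟶ N} (h : f = g) (x : M.V) : hv f x = hv g x := by rw [h]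

theorem conf (D : der Z X) : Conf (Tri.ext J) (cls D) (inc D) (prj D) where
  mono f h := hom_ext (fun x => congrArg Prod.fst (hx_ap h x)) fun v => congrArg Prod.fst (hv_ap h v)
  epi g h := hom_ext (fun x => hx_ap h ((0, x) : X.X × Z.X)) fun v => hv_ap h ((0, v) : X.V × Z.V)
  ker {M} f h := by
    have h1 : ∀ x, (hx f x : X.X × Z.X).2 = 0 := hx_ap h
    have h2 : ∀ v, (hv f v : X.V × Z.V).2 = 0 := hv_ap h
    refine ⟨mkHom (LinearMap.fst _ X.X Z.X ∘ₗ hx f) (LinearMap.fst _ X.V Z.V ∘ₗ hv f)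
      (fun o v => congrArg Prod.fst (hv_cmp f o v)) fun x p => ?_,
      hom_ext (fun x => Prod.ext rfl (h1 x).symm) fun v => Prod.ext rfl (h2 v).symm⟩
    have := congrArg Prod.fst (hφ f x p)
    rw [mid_φ, h1, map_zero, Lm.zero_apply, add_zero] at this
    exact this
  coker {Y} g h := by
    have h1 : ∀ x : X.X, hx g ((x, 0) : X.X × Z.X) = 0 := hx_ap h
    have h2 : ∀ v : X.V, hv g ((v, 0) : X.V × Z.V) = 0 := hv_ap h
    have h3 : ∀ x : X.X × Z.X, hx g ((0, x.2) : X.X × Z.X) = hx g x := fun x => by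
      have : x = (x.1, 0) + (0, x.2) := by simp
      conv_rhs => rw [this]
      erw [map_add, h1, zero_add]
    have h4 : ∀ x : X.V × Z.V, hv g ((0, x.2) : X.V × Z.V) = hv g x := fun x => by
      have : x = (x.1, 0) + (0, x.2) := by simp
      conv_rhs => rw [this]
      erw [map_add, h2, zero_add]
    refine ⟨mkHom (hx g ∘ₗ LinearMap.inr _ X.X Z.X) (hv g ∘ₗ LinearMap.inr _ X.V Z.V)
      (fun o v => ?_) fun x p => ?_, hom_ext h3 h4⟩
    · have := hv_cmp g o ((0, v) : X.V × Z.V)
      rw [mid_ε, map_zero] at this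
      exact this
    · have := hφ g ((0, x) : X.X × Z.X) p
      rw [mid_φ, ← h4] at this
      exact this
  lift {M} f := by
    rw [pull_cls, cls_eq_zero, mem_inn]
    constructor
    · rintro ⟨h, g, hg, e⟩
      refine ⟨mkHom ((-h).prod (hx f)) ((-g).prod (hv f)) (fun o v => ?_) fun x p => ?_,
        hom_ext (fun _ => rfl) fun _ => rfl⟩
      · rw [mid_ε]
        refine Prod.ext ?_ (hv_cmp f o v)
        change -g (M.ε o v) = X.ε o (-g v)
        rw [map_neg, hg]
      · rw [mid_φ]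
        refine Prod.ext ?_ (hφ f x p)
        have := e x p
        rw [dpull_apply] at this
        change X.φ (-h x) p + D.1 (hx f x) p = -g (M.φ x p)
        rw [this, map_neg, Lm.neg_apply]
        abel
    · rintro ⟨f', rfl⟩
      refine ⟨-(LinearMap.fst _ X.X Z.X ∘ₗ hx f'), -(LinearMap.fst _ X.V Z.V ∘ₗ hv f'),
        fun o v => ?_, fun x p => ?_⟩
      · have := congrArg Prod.fst (hv_cmp f' o v)
        rw [mid_ε] at this
        simp only [LinearMap.neg_apply, map_neg, neg_inj]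
        exact this
      · have := congrArg Prod.fst (hφ f' x p)
        rw [mid_φ] at this
        simp only [LinearMap.neg_apply, map_neg, Lm.neg_apply]
        rw [sub_neg_eq_add, eq_neg_add_iff_add_eq]
        exact this
  desc {Y} g := by
    rw [push_cls, cls_eq_zero, mem_inn]
    constructor
    · rintro ⟨h, g2, hg, e⟩
      refine ⟨mkHom ((hx g).coprod h) ((hv g).coprod g2) (fun o v => ?_) fun x p => ?_,
        hom_ext (fun x => ?_) fun v => ?_⟩
      · rw [mid_ε]
        change hv g (X.ε o (v : X.V × Z.V).1) + g2 (Z.ε o (v : X.V × Z.V).2) =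
          Y.ε o (hv g (v : X.V × Z.V).1 + g2 (v : X.V × Z.V).2)
        rw [map_add, hv_cmp g, hg]
      · rw [mid_φ]
        have := e x.2 p
        rw [dpush_apply] at this
        change Y.φ (hx g (x : X.X × Z.X).1 + h (x : X.X × Z.X).2) p =
          hv g (X.φ (x : X.X × Z.X).1 p + D.1 (x : X.X × Z.X).2 p) + g2 (Z.φ (x : X.X × Z.X).2 p)
        rw [map_add, map_add, Lm.add_apply, hφ, this]
        abel
      · change hx g x + h 0 = _
        rw [map_zero, add_zero]
      · change hv g v + g2 0 = _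
        rw [map_zero, add_zero]
    · rintro ⟨g', rfl⟩
      refine ⟨hx g' ∘ₗ LinearMap.inr _ X.X Z.X, hv g' ∘ₗ LinearMap.inr _ X.V Z.V,
        fun o v => ?_, fun x p => ?_⟩
      · have := hv_cmp g' o ((0, v) : X.V × Z.V)
        rw [mid_ε, map_zero] at this
        exact this
      · have := hφ g' ((0, x) : X.X × Z.X) p
        rw [mid_φ, map_zero, Lm.zero_apply, zero_add] at this
        rw [eq_sub_iff_add_eq]
        refine Eq.trans ?_ this.symm
        change hv g' ((D.1 x p, 0) : X.V × Z.V) + hv g' ((0, Z.φ x p) : X.V × Z.V) = _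
        erw [← map_add]
        congr 1
        exact Prod.ext (add_zero _) (zero_add _)
  exl {T} η := by
    obtain ⟨n, rfl⟩ := cls_surj η
    rw [pull_cls, cls_eq_zero, mem_inn]
    rintro ⟨h, g, hg, e⟩
    refine ⟨-mkHom (h ∘ₗ LinearMap.inl _ X.X Z.X) (g ∘ₗ LinearMap.inl _ X.V Z.V)
      (fun o v => ?_) fun x p => ?_, ?_⟩
    · have := hg o ((v, 0) : X.V × Z.V)
      rw [mid_ε, map_zero] at this
      exact this
    · have := e ((x, 0) : X.X × Z.X) p
      rw [mid_φ, dpull_apply, map_zero, map_zero, Lm.zero_apply, Lm.zero_apply, add_zero] at this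
      have h0 : n.1 (hx (prj D) ((x, 0) : X.X × Z.X)) p = 0 := by
        change n.1 0 p = 0
        rw [map_zero, Lm.zero_apply]
      rw [h0] at this
      exact (sub_eq_zero.1 this.symm)
    · rw [push_cls, cls_eq, mem_inn]
      refine ⟨h ∘ₗ LinearMap.inr _ X.X Z.X, g ∘ₗ LinearMap.inr _ X.V Z.V, fun o v => ?_,
        fun x p => ?_⟩
      · have := hg o ((0, v) : X.V × Z.V)
        rw [mid_ε, map_zero] at this
        exact this
      · have := e ((0, x) : X.X × Z.X) p
        rw [mid_φ, map_zero, Lm.zero_apply, zero_add] at this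
        have h1 : g ((D.1 x p, Z.φ x p) : X.V × Z.V) =
            g ((D.1 x p, 0) : X.V × Z.V) + g ((0, Z.φ x p) : X.V × Z.V) := by
          erw [← map_add]
          congr 1
          exact Prod.ext (add_zero _).symm (zero_add _).symm
        rw [h1] at this
        change n.1 x p - -g ((D.1 x p, 0) : X.V × Z.V) =
          T.φ (h ((0, x) : X.X × Z.X)) p - g ((0, Z.φ x p) : X.V × Z.V)
        have h2 : n.1 x p = _ := this
        rw [h2]
        abel
  exr {T} η := by
    obtain ⟨n, rfl⟩ := cls_surj η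
    rw [push_cls, cls_eq_zero, mem_inn]
    rintro ⟨h, g, hg, e⟩
    refine ⟨mkHom (LinearMap.snd _ X.X Z.X ∘ₗ h) (LinearMap.snd _ X.V Z.V ∘ₗ g)
      (fun o v => congrArg Prod.snd (hg o v)) fun x p => ?_, ?_⟩
    · have := congrArg Prod.snd (e x p)
      rw [mid_φ] at this
      exact sub_eq_zero.1 this.symm
    · rw [pull_cls, cls_eq, mem_inn]
      refine ⟨LinearMap.fst _ X.X Z.X ∘ₗ h, LinearMap.fst _ X.V Z.V ∘ₗ g,
        fun o v => congrArg Prod.fst (hg o v), fun x p => ?_⟩
      have := congrArg Prod.fst (e x p)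
      rw [mid_φ] at this
      have h2 : n.1 x p = X.φ (h x : X.X × Z.X).1 p + D.1 (h x : X.X × Z.X).2 p -
        (g (T.φ x p) : X.V × Z.V).1 := this
      change n.1 x p - D.1 (h x : X.X × Z.X).2 p =
        X.φ (h x : X.X × Z.X).1 p - (g (T.φ x p) : X.V × Z.V).1
      rw [h2]
      abel

end KC2

theorem kconf2 : KConf := by
  intro k F _ _ _ Pt ι Ω _ _ _ J Z X δ
  obtain ⟨D, rfl⟩ := cls_surj δ
  exact ⟨_, _, _, KC2.conf D, fun S h1 h2 j hj x => Prod.ext (h2 j hj x.1) (h1 j hj x.2)⟩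

end Pool.Agent.MP_bd94e8_al.H6K
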