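import Pool.Agent.MP_bd94e8_al.H6K.KSepDef
import Pool.Agent.MP_bd94e8_al.H6K.KAbs
import Pool.Agent.MP_bd94e8_al.H6K.KBr
import Pool.Agent.MP_bd94e8_al.H6K.KDec
import Pool.Agent.MP_bd94e8_al.H6K.KDro
import Pool.Agent.MP_bd94e8_al.H6K.KEul
import Pool.Agent.MP_bd94e8_al.H6K.KGen
import Pool.Agent.MP_bd94e8_al.H6K.KPr
import Pool.Agent.MP_bd94e8_al.H89.KConf2

/-!
The knitting theorem for directed problems from the steps.
-/

set_option autoImplicit false
set_option linter.unusedSectionVars false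

namespace Pool.Agent.MP_bd94e8_al.H6K

open CategoryTheory Module Pool.Agent.MP_bd94e8_al.H89 Tri K6

namespace StarA

variable {k F : Type} [Field k] [Field F] [Algebra k F] [FiniteDimensional k F] {Pt ι Ω : Type}
  [Fintype Pt] [DecidableEq Pt] [Fintype ι] [Fintype Ω] {J : Prob k F Pt ι Ω}

/-- The dimension vector of the module of a triple. -/
noncomputable def dd (hJ : Dir J) (M : Tri J) : ι → ℕ := (kpr k F Pt ι Ω J hJ M.X).2.choose

theorem dd_spec (hJ : Dir J) (M : Tri J) : IsDim J M.X (dd hJ M) :=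
  (kpr k F Pt ι Ω J hJ M.X).2.choose_spec

theorem eul_self (M : Tri J) {d : ι → ℕ} (hd : IsDim J M.X d) :
    finrank k (M ⟶ M) + qm J d (dimv M) = finrank k ((Tri.ext J).E M M) + qp J d (dimv M) := by
  rw [keul k F Pt ι Ω J M M d d hd hd, qp, Finset.sum_comm]
  simp only [sq, mul_comm]

theorem rk_lt {rk : ι → ℕ} (h : Rk J rk) {j b : ι} (hn : j ≠ b) (hs : J.Succ j b) :
    rk b < rk j := by
  obtain ⟨c, hc, p, q, rfl, rfl, h0⟩ := hs
  exact h c hc q p h0 hn.symm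

theorem ra_good (hs : KSep) (hJ : Dir J) (hp : Sep J) {S : Set ι} (hS : Closed J S)
    (ih : ∀ b ∈ S, Closed J (S \ {b}) → ∀ M : Tri J, IndS (S \ {b}) M → Good (IndS (S \ {b})) M) :
    ∀ b ∈ S, Good (IndS S) (Ra J b) := by
  obtain ⟨rk, hrk⟩ := hJ.rk
  intro b
  induction hn : ∑ i, rk i - rk b using Nat.strong_induction_on generalizing b with
  | _ n ih2 =>
    intro hb
    by_cases h : ∀ j ∈ S, j ≠ b → ¬ J.Succ j b
    · refine hs k F Pt ι Ω J hJ hp S b hS hb h (ih b hb fun i hi j hij => ⟨hS i hi.1 j hij, ?_⟩)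
      rintro rfl
      exact h i hi.1 hi.2 hij
    · push Not at h
      obtain ⟨j, hj, hjb, hsu⟩ := h
      have h1 := rk_lt hrk hjb hsu
      have h2 : rk j ≤ ∑ i, rk i := Finset.single_le_sum (fun _ _ => Nat.zero_le _)
        (Finset.mem_univ j)
      obtain ⟨c, hc, p, q, hp', hq, h0⟩ := hsu
      have hm := J.blk_mem hc j b
      refine good_of_hom ⟨Ra_in hS hb, Ra_loc hJ⟩ (ih2 _ (by omega) j rfl hj)
        (toM b (Ra J j) (⟨⟨_, hm.1⟩, Subtype.ext (In.mul_e hm.2)⟩ : Be J (eB J j))) fun e => h0 ?_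
      have h3 : J.e b * J.blk j b c = 0 := congrArg (fun z : Be J (eB J j) => z.1.1)
        (LinearMap.congr_fun (congrArg hx e) (gen J b))
      rw [In.e_mul hm.2] at h3
      rw [← J.blk_pos c hp' hq, h3]
      rfl

theorem ext_peak {S : Set ι} {Z K : Tri J}
    (h : ∀ X, Good (IndS S) X → ∀ δ : (Tri.ext J).E Z X, δ = 0) (h0 : ∀ x : K.X, x = 0)
    (δ : (Tri.ext J).E Z K) : δ = 0 := by
  obtain ⟨D⟩ := (kdec k F Pt ι Ω J).2.2 S K fun _ _ _ => h0 _
  rw [← (Tri.ext J).push_id Z K δ, ← D.sum, map_sum, LinearMap.sum_apply]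
  refine Finset.sum_eq_zero fun s _ => ?_
  rw [(Tri.ext J).push_comp, h (D.Y s) (good_peak (fun _ h => h.2) (D.mem s) fun x => ?_)
    ((Tri.ext J).push Z (D.prj s) δ), map_zero]
  have : x = hx (D.prj s) (hx (D.inc s) x) :=
    (LinearMap.congr_fun (congrArg hx (D.self s)) x).symm
  rw [this, h0 (hx (D.inc s) x), map_zero]

theorem proj (hJ : Dir J) {S : Set ι} (hR : ∀ b ∈ S, Good (IndS S) (Ra J b)) {c : ℕ}
    (h1 : finrank k F ≤ c) (h2 : ∀ i, finrank k (J.H i i) ≤ c) (Z : Tri J) (hZ : IndS S Z)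
    (h : ∀ X, Good (IndS S) X → ∀ δ : (Tri.ext J).E Z X, δ = 0) :
    Good (IndS S) Z ∧ finrank k (Z ⟶ Z) ≤ c := by
  classical
  by_cases h0 : ∀ x : Z.X, x = 0
  · exact ⟨good_peak (fun _ h => h.2) hZ h0, (end_peak hZ.2 h0).trans h1⟩
  push Not at h0
  obtain ⟨rk, hrk⟩ := hJ.rk
  obtain ⟨a, ha, hm⟩ := Finset.exists_max_image
    (Finset.univ.filter fun a => ∃ y : Z.X, eB J a • y ≠ 0) rk (by
      obtain ⟨y, hy⟩ := h0
      rw [← one_smul J.B y, ← sum_eB, Finset.sum_smul] at hy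
      obtain ⟨a, -, ha⟩ := Finset.exists_ne_zero_of_sum_ne_zero hy
      exact ⟨a, Finset.mem_filter.2 ⟨Finset.mem_univ _, y, ha⟩⟩)
  obtain ⟨y, hy⟩ := (Finset.mem_filter.1 ha).2
  have haS : a ∈ S := by
    by_contra e
    exact hy (hZ.1 a e y)
  have hx1 : eB J a • eB J a • y = eB J a • y := by rw [← mul_smul, eB_eB]
  obtain ⟨r, hr⟩ := (kpr k F Pt ι Ω J hJ Z.X).1 a (eB J a • y) (fun j hj hs z => by
    by_contra e
    exact absurd (rk_lt hrk hj hs)
      (not_lt.2 (hm j (Finset.mem_filter.2 ⟨Finset.mem_univ _, z, e⟩)))) hy hx1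
  let K : Tri J := cov (Ra J a) Unit 0
  let D : der Z K := ⟨rows J a ∘ₗ r, fun x p => (Ra J a).peak (r x) p⟩
  obtain ⟨h', g, hg, e⟩ := (mem_inn D).1 ((cls_eq_zero D).1
    (ext_peak h (fun x => Subsingleton.elim (α := Unit) _ _) _))
  let G : Z ⟶ Ra J a := mkHom r (-g) (fun o v => by
      change -g (Z.ε o v) = K.ε o (-g v)
      rw [map_neg, hg]) fun x p => by
    have h3 : K.φ (h' x) p = 0 := by
      change (Ra J a).φ 0 p = 0
      rw [map_zero, Lm.zero_apply]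
    have := e x p
    rw [h3, zero_sub] at this
    exact this
  have e1 : toM a Z (eB J a • y) ≫ G = 𝟙 _ := Ra_ext (by
    change r (eB J a • eB J a • y) = gen J a
    rw [hx1]
    exact Subtype.ext hr)
  have e2 := iso_of_retr (Ra_loc hJ) hZ.2 _ _ e1
  refine ⟨good_of_hom hZ (hR a haS) G fun e => hZ.2.1 (by rw [← e2, e, Limits.zero_comp]),
    le_trans ?_ (Ra_end.trans (h2 a))⟩
  have := (kdec k F Pt ι Ω J).1 (Ra J a) (Ra J a)
  refine LinearMap.finrank_le_finrank_of_injective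
    (f := Linear.rightComp k _ G ∘ₗ Linear.leftComp k _ (toM a Z (eB J a • y))) fun f f' hf => ?_
  have h3 : (toM a Z (eB J a • y) ≫ f) ≫ G = (toM a Z (eB J a • y) ≫ f') ≫ G := hf
  have h4 : ∀ f : Z ⟶ Z, G ≫ ((toM a Z (eB J a • y) ≫ f) ≫ G) ≫ toM a Z (eB J a • y) = f :=
    fun f => by
      rw [Category.assoc, e2, Category.comp_id, ← Category.assoc, e2, Category.id_comp]
  rw [← h4 f, h3, h4]

theorem all_good (hs : KSep) (hJ : Dir J) (hp : Sep J) (hw : J.WP) {c : ℕ} (h1 : finrank k F ≤ c)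
    (h2 : ∀ i, finrank k (J.H i i) ≤ c) (S : Set ι) (hS : Closed J S) : ∀ X, IndS S X →
      Good (IndS S) X ∧ finrank k (X ⟶ X) ≤ c ∧ ∀ δ : (Tri.ext J).E X X, δ = 0 := by
  induction hn : S.ncard using Nat.strong_induction_on generalizing S with
  | _ n ih =>
    have hR := ra_good hs hJ hp hS fun b hb hc M hM =>
      (ih _ (hn ▸ Set.ncard_diff_singleton_lt_of_mem hb) _ hc rfl M hM).1
    obtain ⟨d1, d2, d3⟩ := kdec k F Pt ι Ω J
    refine kabs k (Tri J) (Tri.ext J) (IndS S) c _ (fun M => (dd hJ M, dimv M))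
      ⟨d1, d2, fun _ h => h.2, fun Z X hZ hX δ => ?_, fun X _ => ?_, fun X Y h => ?_,
        (kdro k F Pt ι Ω J hw c).subset ?_, proj hJ hR h1 h2⟩
    · obtain ⟨W, i, p, h3, h4⟩ := kconf2 k F Pt ι Ω J Z X δ
      exact ⟨W, i, p, h3, d3 S W (h4 S hZ.1 hX.1)⟩
    · obtain ⟨Z, h3, h4⟩ := kgen k F Pt ι Ω J S hS X
      exact ⟨Z, d3 S Z h3, fun M hM => h4 M hM.1⟩
    · have e1 := keul k F Pt ι Ω J X Y _ _ (dd_spec hJ X) (dd_spec hJ Y)
      have e2 := keul k F Pt ι Ω J X X _ _ (dd_spec hJ X) (dd_spec hJ X)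
      have e3 : dd hJ X = dd hJ Y := congrArg Prod.fst h
      have e4 : dimv X = dimv Y := congrArg Prod.snd h
      rw [← e3, ← e4] at e1
      omega
    · rintro _ ⟨X, rfl, hX⟩
      have := eul_self X (dd_spec hJ X)
      change qp J (dd hJ X) (dimv X) ≤ c + qm J (dd hJ X) (dimv X)
      omega

theorem key (hs : KSep) (hJ : Dir J) (hp : Sep J) (hw : J.WP) {c : ℕ} (h1 : finrank k F ≤ c)
    (h2 : ∀ i, finrank k (J.H i i) ≤ c) (N : Tri J) (hN : Loc N) : finrank k (N ⟶ N) ≤ c ∧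
      ∃ d, IsDim J N.X d ∧ qm J d (dimv N) + finrank k (N ⟶ N) = qp J d (dimv N) := by
  obtain ⟨-, h3, h4⟩ := all_good hs hJ hp hw h1 h2 Set.univ (fun _ _ _ _ => trivial) N
    ⟨fun _ h => (h trivial).elim, hN⟩
  refine ⟨h3, _, dd_spec hJ N, ?_⟩
  have := eul_self N (dd_spec hJ N)
  have h5 : Subsingleton ((Tri.ext J).E N N) := ⟨fun a b => (h4 a).trans (h4 b).symm⟩
  rw [finrank_zero_of_subsingleton (M := (Tri.ext J).E N N)] at this
  omega

end StarA

open StarA in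
theorem star_of (hs : KSep) : SStar := by
  intro k F _ _ _ _ Pt ι Ω _ _ _ _ J hJ hp hw
  refine ⟨(kbr kdec k F Pt ι Ω J (finrank k F + ∑ i, finrank k (J.H i i))
    (key hs hJ hp hw (Nat.le_add_right _ _) fun i => le_add_left (Finset.single_le_sum
      (f := fun i => finrank k (J.H i i)) (fun _ _ => Nat.zero_le _) (Finset.mem_univ i)))).1
    (kdro k F Pt ι Ω J hw _), fun h1 h2 => ?_⟩
  exact (kbr kdec k F Pt ι Ω J _ (key hs hJ hp hw le_rfl h2)).2 rfl h1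

end Pool.Agent.MP_bd94e8_al.H6K
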