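import Pool.Agent.MP_bd94e8_al.H89.ThinV

/-!
Thin bases exist: the induction.
-/

set_option autoImplicit false
set_option linter.unusedSectionVars false

namespace Pool.Agent.MP_bd94e8_al.H89

open Module Function

namespace ThinA

variable {k F : Type} [Field k] [Field F] [Algebra k F] {Pt ι : Type} [Fintype Pt]
  [DecidableEq Pt]

theorem mul_ne {a b : Matrix Pt Pt F} {q p : Pt} (h : (a * b) q p ≠ 0) :
    ∃ x, a q x ≠ 0 ∧ b x p ≠ 0 := by
  rw [Matrix.mul_apply] at h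
  obtain ⟨x, -, hx⟩ := Finset.exists_ne_zero_of_sum_ne_zero h
  exact ⟨x, left_ne_zero_of_mul hx, right_ne_zero_of_mul hx⟩

theorem sub_mul {Q : Prob k F Pt ι Unit} {t : Pt} (ht : ∀ p, ¬ Q.Ar p t) (b : Matrix Pt Pt F)
    {b' : Matrix Pt Pt F} (hb' : b' ∈ Q.B) :
    b.submatrix (Subtype.val : {p // p ≠ t} → Pt) (Subtype.val : {p // p ≠ t} → Pt) *
      b'.submatrix (Subtype.val : {p // p ≠ t} → Pt) (Subtype.val : {p // p ≠ t} → Pt) =
      (b * b').submatrix Subtype.val Subtype.val := by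
  ext q p
  have h0 : b' t p.1 = 0 := by
    by_contra e
    exact ht p.1 ⟨p.2, b', hb', e⟩
  simp only [Matrix.submatrix_apply, Matrix.mul_apply]
  rw [Fintype.sum_eq_add_sum_subtype_ne _ t, h0, mul_zero, zero_add]

theorem subOk {Q : Prob k F Pt ι Unit} {t : Pt} (ht : ∀ p, ¬ Q.Ar p t) :
    SubOk Q fun p => p ≠ t := fun b hb b' hb' => ⟨b * b', Q.B.mul_mem hb hb', sub_mul ht b hb'⟩

theorem sub_blk {Q : Prob k F Pt ι Unit} {S : Pt → Prop} [DecidablePred S] (h : SubOk Q S)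
    {i j : ι} {b : Matrix {p // S p} {p // S p} F} (hb : b ∈ (Q.sub S h).H i j) :
    ∃ c ∈ Q.H i j, c.submatrix Subtype.val Subtype.val = b := by
  obtain ⟨⟨c, hc, rfl⟩, h2⟩ := hb
  refine ⟨_, Q.blk_mem hc i j, ?_⟩
  ext q p
  by_cases e : Q.vt p.1 = i ∧ Q.vt q.1 = j
  · exact Q.blk_pos c e.1 e.2
  · rw [Matrix.submatrix_apply, Q.blk_neg c e]
    by_contra e'
    exact e (h2 q p (Ne.symm e'))

theorem flag_sub {Q : Prob k F Pt ι Unit} {ht : Pt → ℕ} (hf : Flag Q ∅ ht) {t : Pt}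
    (h0 : ∀ p, ¬ Q.Ar p t) (h : SubOk Q fun p => p ≠ t) :
    Flag (Q.sub (fun p => p ≠ t) h) ∅ fun p => ht p.1 where
  inj p q h1 h2 h3 := Subtype.ext (hf.inj p.1 q.1 h1 h2 h3)
  three i hi p q r s h1 h2 h3 h4 := by
    simpa only [Subtype.ext_iff] using hf.three i hi p.1 q.1 r.1 s.1 h1 h2 h3 h4
  tri := by
    rintro _ ⟨b, hb, rfl⟩ q p h1 h2 h3
    exact hf.tri b hb q.1 p.1 h1 h2 h3
  diag := by
    rintro _ ⟨b, hb, rfl⟩ p q h1 h2
    exact hf.diag b hb p.1 q.1 h1 h2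
  onto p hp c := by
    obtain ⟨b, hb, e⟩ := hf.onto p.1 hp c
    exact ⟨_, ⟨b, hb, rfl⟩, e⟩
  step p q h1 h2 h3 := by
    obtain ⟨b, hb, e⟩ := hf.step p.1 q.1 h1 h2 h3
    exact ⟨_, ⟨b, hb, rfl⟩, e⟩
  basic i j hij b hb b' hb' := by
    obtain ⟨c, hc, rfl⟩ := sub_blk h hb
    obtain ⟨c', hc', rfl⟩ := sub_blk h hb'
    obtain ⟨n, hn⟩ := hf.basic i j hij c hc c' hc'
    have hm := Q.B.mul_mem hc'.1 hc.1
    refine ⟨n, ?_⟩
    rw [sub_mul h0 _ hc.1]
    have : ∀ m : ℕ, (c' * c).submatrix (Subtype.val : {p // p ≠ t} → Pt)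
        (Subtype.val : {p // p ≠ t} → Pt) ^ m =
        ((c' * c) ^ m).submatrix Subtype.val Subtype.val := by
      intro m
      induction m with
      | zero => ext q p; simp [Matrix.one_apply, Subtype.ext_iff]
      | succ m ih => rw [pow_succ, ih, sub_mul h0 _ hm, ← pow_succ]
    rw [this, hn]
    rfl
  div _ hz := hz.elim
  col _ hz := hz.elim
  row _ hz := hz.elim
  num _ hz := hz.elim

theorem conj_trans {P P' P'' : Prob k F Pt ι Unit} {g g' a a' : Matrix Pt Pt F}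
    (h : IsConj P P' g g') (h' : IsConj P' P'' a a') : IsConj P P'' (a * g) (g' * a') where
  vt := h'.vt.trans h.vt
  mul := by rw [Matrix.mul_assoc, ← Matrix.mul_assoc g, h.mul, Matrix.one_mul, h'.mul]
  mul' := by rw [Matrix.mul_assoc, ← Matrix.mul_assoc a', h'.mul', Matrix.one_mul, h.mul']
  blk q p e := by
    obtain ⟨x, h1, h2⟩ := mul_ne e
    rw [← h.blk x p h2, ← h.vt]
    exact h'.blk q x h1
  blk' q p e := by
    obtain ⟨x, h1, h2⟩ := mul_ne e
    rw [h.blk' q x h1, ← h.vt]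
    exact h'.blk' x p h2
  mem b := by
    rw [h'.mem, h.mem]
    simp only [Matrix.mul_assoc]

end ThinA

open ThinA ThinVA MainA in
theorem thin (hStep : SThinStep) (hDG : SDG) (hOrd : SOrd) (hHT : SHT) (hConj : SConj) (hTT : STT)
    (hGood : SGood) (hUntw : SUntw) : SThin := by
  intro k F _ _ _ _ Pt ι i1 i2 _ Q ht hf hy
  induction hn : Fintype.card Pt generalizing Pt with
  | zero =>
    have : IsEmpty Pt := Fintype.card_eq_zero_iff.1 hn
    have h0 : ∀ b : Matrix Pt Pt F, b ∈ Q.R0 := fun b =>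
      ⟨by rw [Subsingleton.elim b 0]; exact Q.B.zero_mem, fun p => isEmptyElim p⟩
    exact ⟨Q, 1, 1, ⟨rfl, by simp, by simp, fun q => isEmptyElim q, fun q => isEmptyElim q,
      fun b => by simp⟩, fun q => isEmptyElim q, fun q => isEmptyElim q, h0 _, fun _ _ _ _ => h0 _,
      fun _ _ _ => h0 _, fun _ _ _ _ => h0 _, fun _ _ p => isEmptyElim p,
      fun r _ => by rw [Subsingleton.elim r 0]; exact zero_mem _, fun _ _ a => isEmptyElim a.1⟩
  | succ n ih =>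
    have hne : Nonempty Pt := Fintype.card_pos_iff.1 (by omega)
    have : IsTrans Pt Q.Ar := ⟨fun p q r =>
      (hOrd k F Pt ι Q ∅ ht hf).2 p q r (fun h => h) (fun h => h) (fun h => h)⟩
    have : Std.Irrefl Q.Ar := ⟨fun p h => h.1 rfl⟩
    obtain ⟨t, -, h0⟩ := (Finite.wellFounded_of_trans_of_irrefl Q.Ar).has_min Set.univ
      Set.univ_nonempty
    have h0 : ∀ p, ¬ Q.Ar p t := fun p => h0 p trivial
    have hs := subOk h0
    obtain ⟨Q1, g, g', hc, h1, h2, hth⟩ := ih {p // p ≠ t} (Q.sub _ hs) _ (flag_sub hf h0 hs)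
      (hyp_sub hHT Q _ hs hy) (by simp [hn])
    have bl : ∀ {g : Matrix {p // p ≠ t} {p // p ≠ t} F},
        (∀ q p, g q p ≠ 0 → (Q.sub _ hs).vt q = (Q.sub _ hs).vt p) →
        ∀ q p, ex (fun p => p ≠ t) g q p ≠ 0 → Q.vt q = Q.vt p := by
      intro g hg q p h
      obtain rfl | ⟨a, b, rfl, rfl, e⟩ := ex_ne _ h
      · rfl
      · exact hg a b e
    have tr : ∀ {g : Matrix {p // p ≠ t} {p // p ≠ t} F}, (∀ q p, g q p ≠ 0 → ht p.1 ≤ ht q.1) →
        ∀ q p, ex (fun p => p ≠ t) g q p ≠ 0 → ht p ≤ ht q := by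
      intro g hg q p h
      obtain rfl | ⟨a, b, rfl, rfl, e⟩ := ex_ne _ h
      · rfl
      · exact hg a b e
    have tt : ∀ {g : Matrix {p // p ≠ t} {p // p ≠ t} F} {p}, ex (fun p => p ≠ t) g t p ≠ 0 →
        p = t := by
      intro g p h
      obtain rfl | ⟨a, b, e, -, -⟩ := ex_ne _ h
      · rfl
      · exact (a.2 e).elim
    obtain ⟨Q2, hc2⟩ := (hConj k F Pt ι Q).1 (ex _ g) (ex _ g') (ex_mul _ hc.mul) (ex_mul _ hc.mul')
      (bl hc.blk) (bl hc.blk')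
    have hf2 := ((hConj k F Pt ι Q).2 Q2 _ _ hc2).2.2 ∅ ht (fun q p h _ => tr h1 q p h)
      (fun q p h _ => tr h2 q p h) hf
    have hy2 := hyp_conj hHT hc2 hy
    have h02 : ∀ p, ¬ Q2.Ar p t := by
      rintro p ⟨hp, b, hb, e⟩
      have e1 : b = ex _ g * (ex _ g' * b * ex _ g) * ex _ g' := by
        have : ex _ g * (ex _ g' * b * ex _ g) * ex _ g' =
            (ex _ g * ex _ g') * b * (ex _ g * ex _ g') := by simp only [Matrix.mul_assoc]
        rw [this, hc2.mul]; simp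
      rw [e1] at e
      obtain ⟨y, e2, e3⟩ := mul_ne e
      obtain ⟨x, e4, e5⟩ := mul_ne e2
      obtain rfl := tt e4
      by_cases e6 : y = x
      · subst e6
        exact hp (tt e3)
      · exact h0 y ⟨e6, _, (hc2.mem b).1 hb, e5⟩
    have hs2 := subOk h02
    have e1 : (Q2.sub _ hs2).vt = Q1.vt := by
      rw [hc.vt]
      funext p
      change Q2.vt p.1 = Q.vt p.1
      rw [hc2.vt]
    have e2 : ∀ c, c ∈ (Q2.sub _ hs2).B ↔ c ∈ Q1.B := by
      intro c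
      rw [hc.mem]
      constructor
      · rintro ⟨b, hb, rfl⟩
        exact ⟨_, (hc2.mem b).1 hb, sub_conj _ _ _ b⟩
      · rintro ⟨b, hb, e⟩
        refine ⟨_, ((ThinVA.symm hc2).mem b).1 hb, ?_⟩
        have : g * (g' * c * g) * g' = (g * g') * c * (g * g') := by simp only [Matrix.mul_assoc]
        rw [sub_conj, e, this, hc.mul]
        simp
    have e3 : (Q2.sub _ hs2).R0 = Q1.R0 := by
      ext c
      exact and_congr_left' (e2 c)
    rw [← e1, ← e3] at hth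
    have hfs := flag_sub hf2 h02 hs2
    have hys := hyp_sub hHT Q2 _ hs2 hy2
    obtain ⟨t1, t2⟩ := hTT k F _ ι _ ∅ _ hfs hys
    obtain ⟨-, ⟨Qu, hu⟩, -⟩ := hUntw k F _ ι _ _ hfs (hGood k F _ ι _ ∅ _ hfs t1 t2)
    obtain ⟨Q3, a, a', hc3, h3, h4, hth3⟩ := hStep k F Pt ι Q2 ht t hf2 hy2 h02 hs2 Qu _ hu hth
      (hDG k F _ ι _ Qu _ hfs hys hu hth).2
    refine ⟨Q3, _, _, conj_trans hc2 hc3, fun q p e => ?_, fun q p e => ?_, hth3⟩
    · obtain ⟨x, e4, e5⟩ := mul_ne e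
      exact (tr h1 x p e5).trans (h3 q x e4)
    · obtain ⟨x, e4, e5⟩ := mul_ne e
      exact (h4 x p e5).trans (tr h2 q x e4)

end Pool.Agent.MP_bd94e8_al.H89
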