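import Pool.Agent.MP_bd94e8_al.H89.Main

/-!
A conjugation that makes the fat problem thin.
-/

set_option autoImplicit false
set_option linter.unusedSectionVars false

namespace Pool.Agent.MP_bd94e8_al.H89

open Module Function

namespace ThinVA

variable {k F : Type} [Field k] [Field F] [Algebra k F] {Pt ι : Type} [Fintype Pt]
  [DecidableEq Pt]

theorem e_comm (P : Prob k F Pt ι Unit) {g : Matrix Pt Pt F}
    (hg : ∀ q p, g q p ≠ 0 → P.vt q = P.vt p) (i : ι) : P.e i * g = g * P.e i := by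
  ext q p
  rw [Matrix.mul_apply, Matrix.mul_apply, Finset.sum_eq_single q
    (fun x _ hx => by rw [P.e_off i hx.symm, zero_mul]) (by simp), Finset.sum_eq_single p
    (fun x _ hx => by rw [P.e_off i hx, mul_zero]) (by simp)]
  by_cases h0 : g q p = 0
  · simp [h0]
  have h1 := hg q p h0
  by_cases h2 : P.vt p = i
  · rw [P.e_pos _ h2, P.e_pos _ (h1.trans h2)]; simp
  · rw [P.e_neg _ h2, P.e_neg _ (h1 ▸ h2)]; simp

theorem blk_conj (P : Prob k F Pt ι Unit) {g g' : Matrix Pt Pt F}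
    (hg : ∀ q p, g q p ≠ 0 → P.vt q = P.vt p) (hg' : ∀ q p, g' q p ≠ 0 → P.vt q = P.vt p)
    (i j : ι) (b : Matrix Pt Pt F) : P.blk i j (g' * b * g) = g' * P.blk i j b * g := by
  rw [P.blk_eq, P.blk_eq]
  simp only [← Matrix.mul_assoc]
  rw [e_comm P hg', Matrix.mul_assoc _ g, ← e_comm P hg, ← Matrix.mul_assoc]

theorem in_iff (P : Prob k F Pt ι Unit) (i j : ι) (b : Matrix Pt Pt F) :
    P.In i j b ↔ P.blk i j b = b := by
  refine ⟨fun h => ?_, fun h q p e => ?_⟩
  · ext q p
    by_cases e : b q p = 0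
    · by_cases e' : P.vt p = i ∧ P.vt q = j
      · exact P.blk_pos b e'.1 e'.2
      · rw [P.blk_neg b e', e]
    · exact P.blk_pos b (h q p e).1 (h q p e).2
  · rw [← h] at e
    exact (mask_ne e).1

theorem symm {P P' : Prob k F Pt ι Unit} {g g' : Matrix Pt Pt F} (h : IsConj P P' g g') :
    IsConj P' P g' g where
  vt := h.vt.symm
  mul := h.mul'
  mul' := h.mul
  blk := by rw [h.vt]; exact h.blk'
  blk' := by rw [h.vt]; exact h.blk
  mem b := by
    have : g' * (g * b * g') * g = (g' * g) * b * (g' * g) := by simp only [Matrix.mul_assoc]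
    rw [h.mem, this, h.mul']
    simp

theorem blk_vt {P P' : Prob k F Pt ι Unit} (h : P'.vt = P.vt) : P'.blk = P.blk := by
  funext i j b
  simp only [Prob.blk, h]

theorem mem_H {P P' : Prob k F Pt ι Unit} {g g' : Matrix Pt Pt F} (h : IsConj P P' g g') {i j : ι}
    {b : Matrix Pt Pt F} (hb : b ∈ P'.H i j) : g' * b * g ∈ P.H i j := by
  refine ⟨(h.mem b).1 hb.1, (in_iff P i j _).2 ?_⟩
  rw [blk_conj P h.blk h.blk', ← blk_vt h.vt, (in_iff P' i j b).1 hb.2]

theorem fat_conj {P P' Pf Pf' : Prob k F Pt ι Unit} {g g' : Matrix Pt Pt F} {val : Set ι}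
    (h : IsConj P P' g g') (hf : IsFat P val Pf) (hf' : IsFat P' val Pf') {b : Matrix Pt Pt F}
    (hb : b ∈ Pf'.B) : g' * b * g ∈ Pf.B := by
  refine (hf.2 _).2 fun i j => ?_
  obtain ⟨h1, h2, h3⟩ := (hf'.2 b).1 hb i j
  rw [blk_conj P h.blk h.blk', ← blk_vt h.vt]
  refine ⟨fun hv h0 => ?_, fun hv => ?_, fun hn hv => (h.mem _).1 (h3 hn hv)⟩
  · rw [h1 hv, Matrix.mul_zero, Matrix.zero_mul]
    refine (Submodule.eq_bot_iff _).2 fun c hc => ?_
    have e := mem_H h hc
    rw [h0, Submodule.mem_bot] at e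
    have : c = g * (g' * c * g) * g' := by
      have : g * (g' * c * g) * g' = (g * g') * c * (g * g') := by simp only [Matrix.mul_assoc]
      rw [this, h.mul]; simp
    rw [this, e]; simp
  · refine Submodule.span_induction (p := fun x _ => g' * x * g ∈ _) (fun x hx => ?_) ?_ ?_ ?_
      (h2 hv)
    · exact Submodule.subset_span (mem_H h hx)
    · simp
    · intro x y _ _ hx hy
      rw [Matrix.mul_add, Matrix.add_mul]
      exact Submodule.add_mem _ hx hy
    · intro c x _ hx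
      rw [Matrix.mul_smul, Matrix.smul_mul]
      exact Submodule.smul_mem _ c hx

variable (F) (S : Pt → Prop) [DecidablePred S]

/-- The inclusion matrix. -/
def al : Matrix Pt {p // S p} F := Matrix.of fun q a => if q = a.1 then 1 else 0

/-- The projection matrix. -/
def ga : Matrix {p // S p} Pt F := Matrix.of fun a p => if a.1 = p then 1 else 0

variable {F}

theorem sub_eq (b : Matrix Pt Pt F) :
    ga F S * b * al F S = b.submatrix Subtype.val Subtype.val := by
  ext q p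
  simp [ga, al, Matrix.mul_apply]

theorem ga_al : ga F S * al F S = 1 := by
  have := sub_eq S (1 : Matrix Pt Pt F)
  rw [Matrix.mul_one] at this
  rw [this]
  ext q p
  simp [Matrix.one_apply, Subtype.ext_iff]

/-- Extension by the identity. -/
def ex (g : Matrix {p // S p} {p // S p} F) : Matrix Pt Pt F :=
  al F S * g * ga F S + (1 - al F S * ga F S)

theorem ga_ex (g : Matrix {p // S p} {p // S p} F) : ga F S * ex S g = g * ga F S := by
  simp only [ex, Matrix.mul_add, Matrix.mul_sub, ← Matrix.mul_assoc, ga_al]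
  simp

theorem ex_al (g : Matrix {p // S p} {p // S p} F) : ex S g * al F S = al F S * g := by
  simp only [ex, Matrix.add_mul, Matrix.sub_mul, Matrix.mul_assoc, ga_al]
  simp

theorem ex_mul {g g' : Matrix {p // S p} {p // S p} F} (h : g * g' = 1) :
    ex S g * ex S g' = 1 := by
  have : ex S g * ex S g' =
      ex S g * al F S * g' * ga F S + (ex S g - ex S g * al F S * ga F S) := by
    conv_lhs => rw [ex, ex]
    simp only [ex, Matrix.mul_add, Matrix.mul_sub, Matrix.mul_assoc, Matrix.mul_one]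
  rw [this, ex_al, Matrix.mul_assoc _ g g', h, ex]
  simp

theorem ex_ne {g : Matrix {p // S p} {p // S p} F} {q p : Pt} (h : ex S g q p ≠ 0) :
    q = p ∨ ∃ a b : {p // S p}, a.1 = q ∧ b.1 = p ∧ g a b ≠ 0 := by
  by_contra hn
  push Not at hn
  refine h ?_
  have h1 : (al F S * g * ga F S) q p = 0 := by
    rw [Matrix.mul_apply]
    refine Finset.sum_eq_zero fun b _ => ?_
    by_cases e : b.1 = p
    · rw [Matrix.mul_apply, Finset.sum_eq_zero, zero_mul]
      intro a _
      by_cases e' : a.1 = q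
      · rw [hn.2 a b e' e, mul_zero]
      · simp [al, Ne.symm e']
    · simp [ga, e]
  have h2 : (al F S * ga F S) q p = 0 := by
    rw [Matrix.mul_apply]
    refine Finset.sum_eq_zero fun b _ => ?_
    by_cases e : b.1 = p
    · simp [al, e, hn.1]
    · simp [ga, e]
  simp [ex, h1, h2, Matrix.one_apply_ne hn.1]

theorem sub_conj (g g' : Matrix {p // S p} {p // S p} F) (b : Matrix Pt Pt F) :
    (ex S g * b * ex S g').submatrix Subtype.val Subtype.val =
      g * b.submatrix Subtype.val Subtype.val * g' := by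
  rw [← sub_eq, ← sub_eq, ← Matrix.mul_assoc, ← Matrix.mul_assoc, ga_ex, Matrix.mul_assoc, ex_al]
  simp only [Matrix.mul_assoc]

end ThinVA

open ThinVA MainA in
theorem thinV (hThin : SThin) (hTT : STT) (hGood : SGood) (hE1 : SEnl1) (hE2 : SEnl2) (hHT : SHT)
    (hConj : SConj) (hMor : SMor) : SThinV := by
  intro k F _ _ _ _ Pt ι _ _ _ P val ht S _ hf hy hS
  obtain ⟨t1, t2⟩ := hTT k F Pt ι P val ht hf hy
  have hg := hGood k F Pt ι P val ht hf t1 t2
  obtain ⟨-, -, ⟨P0, h0⟩, hle⟩ := hE1 k F Pt ι P val ht hf hg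
  obtain ⟨f1, f2, -⟩ := (hE2 k F Pt ι P val ht S hf hg hS).2 P0 h0
  have hs := (hMor k F Pt ι Unit P0 S f1).1
  obtain ⟨Q, g, g', hc, h1, h2, hth⟩ := hThin k F _ ι _ _ (f2 hs).1
    (hyp_sub hHT P0 S hs (hyp_le hHT (hle P0 h0).1 hy))
  have bl : ∀ {g : Matrix {p // S p} {p // S p} F},
      (∀ q p, g q p ≠ 0 → (P0.sub S hs).vt q = (P0.sub S hs).vt p) →
      ∀ q p, ex S g q p ≠ 0 → P.vt q = P.vt p := by
    intro g hg q p h
    obtain rfl | ⟨a, b, rfl, rfl, e⟩ := ex_ne S h
    · rfl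
    · rw [← h0.1]; exact hg a b e
  have tr : ∀ {g : Matrix {p // S p} {p // S p} F}, (∀ q p, g q p ≠ 0 → ht p.1 ≤ ht q.1) →
      ∀ q p, ex S g q p ≠ 0 → P.vt p ∉ val → ht p ≤ ht q := by
    intro g hg q p h _
    obtain rfl | ⟨a, b, rfl, rfl, e⟩ := ex_ne S h
    · rfl
    · exact hg a b e
  obtain ⟨P', hc'⟩ := (hConj k F Pt ι P).1 (ex S g) (ex S g') (ex_mul S hc.mul) (ex_mul S hc.mul')
    (bl hc.blk) (bl hc.blk')
  refine ⟨P', _, _, hc', ((hConj k F Pt ι P).2 P' _ _ hc').2.2 val ht (tr h1) (tr h2) hf,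
    fun Pf hF h => ?_⟩
  have e1 : (Pf.sub S h).vt = Q.vt := by
    rw [hc.vt]
    funext p
    change Pf.vt p.1 = P0.vt p.1
    rw [hF.1, hc'.vt, h0.1]
  have e2 : ∀ c, c ∈ (Pf.sub S h).B ↔ c ∈ Q.B := by
    intro c
    rw [hc.mem]
    constructor
    · rintro ⟨b, hb, rfl⟩
      exact ⟨_, fat_conj hc' h0 hF hb, sub_conj S _ _ b⟩
    · rintro ⟨b, hb, e⟩
      refine ⟨_, fat_conj (ThinVA.symm hc') hF h0 hb, ?_⟩
      have : g * (g' * c * g) * g' = (g * g') * c * (g * g') := by simp only [Matrix.mul_assoc]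
      rw [sub_conj, e, this, hc.mul]
      simp
  have e3 : (Pf.sub S h).R0 = Q.R0 := by
    ext c
    exact and_congr_left' (e2 c)
  rw [e1, e3]
  exact hth

end Pool.Agent.MP_bd94e8_al.H89
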