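import Pool.Agent.MP_bd94e8_al.H89.Main
import Pool.Agent.MP_bd94e8_al.H89.Dg

/-!
The valued untwisted case from the steps.
-/

set_option autoImplicit false
set_option linter.unusedSectionVars false

namespace Pool.Agent.MP_bd94e8_al.H89

open Module Function

namespace ValA

variable {k F : Type} [Field k] [Field F] [Algebra k F] {Pt ι Ω : Type} [Fintype Pt]
  [DecidableEq Pt]

theorem thinDir_cover (hGr : SGr) {P : Prob k F Pt ι Ω} {L : ℕ} (h : ThinDir P L) {T I O : Type}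
    [Fintype T] [DecidableEq T] {J : Prob k F T I O} {π : T → Pt} (hc : Cover J P π)
    (hs : Surjective J.vt) : ThinDir J L := by
  have dist : ∀ t t', J.vt t = J.vt t' → J.pk t = J.pk t' → t = t' := fun t t' h1 h2 =>
    hc.inj t t' h1 (h.dist _ _ (hc.vt_eq t t' h1) (hc.pk_eq t t' h2))
  obtain ⟨rk, hrk⟩ := h.rk
  refine ⟨((hGr k F Pt ι Ω P L h.toThinBase).2.2 T I O J π hc dist).1, hs, dist,
    fun i => rk (P.vt (π (surjInv hs i))), fun b hb q p h1 h2 => ?_⟩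
  obtain ⟨b', hb', e⟩ := ((hc.mem b).1 hb).2 (J.vt p) (J.vt q)
  have e1 := hc.vt_eq _ _ (surjInv_eq hs (J.vt q))
  have e2 := hc.vt_eq _ _ (surjInv_eq hs (J.vt p))
  simp only [e1, e2]
  refine hrk b' hb' _ _ (by rw [← e p q rfl rfl]; exact h1) fun e3 => h2 ?_
  have e4 := J.peak b hb q p h1
  rw [hc.uniq q p (h.dist _ _ e3 (hc.pk_eq _ _ e4)) e4]

theorem free_grading (hComb : SComb) (hFree : SFree) (hGr : SGr) {J : Prob k F Pt ι Ω} {L : ℕ}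
    (h : ThinDir J L) : ∃ deg : Pt → FreeGroup Pt, Graded J deg ∧
      Sides J.vt J.Ar (Tie J.vt J.R0) deg ∅ := by
  obtain ⟨g1, g2, -⟩ := hGr k F Pt ι Ω J L h.toThinBase
  have e : J.Ar = Arr J.R0 := funext fun p => funext fun q => propext (g2 p q)
  have cb := hComb F Pt ι J.vt J.R0 h.thin h.three
  rw [← e] at cb
  obtain ⟨rk, hrk⟩ := h.rk
  have pk : ∀ p q, J.Ar p q → J.pk p = J.pk q := fun p q ⟨_, b, hb, h1⟩ => (J.peak b hb q p h1).symm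
  obtain ⟨deg, d1, d2⟩ := hFree Pt ι Ω J.vt J.pk J.Ar (Tie J.vt J.R0) L rk cb pk h.dist h.path
    fun p q ⟨h0, b, hb, h1⟩ => hrk b hb q p h1 fun e1 =>
      h0 (h.dist p q e1.symm (J.peak b hb q p h1).symm)
  exact ⟨deg, g1 _ deg d1, d2⟩

theorem tf_free {X : Type} (s : FreeGroup X) (n : ℕ) (hn : 0 < n) (h : s ^ n = 1) : s = 1 :=
  (pow_eq_one_iff_left hn.ne').1 h

theorem exists_eps [Fintype Ω] {P : Prob k F Pt ι Ω} {V : Type} [AddCommGroup V] [Module F V]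
    [Nontrivial V] (M : Obj P V) : ∃ o, M.ε o ≠ 0 := by
  by_contra h
  push Not at h
  have := M.sum
  rw [Finset.sum_eq_zero fun o _ => h o] at this
  obtain ⟨x, hx⟩ := exists_ne (0 : V)
  exact hx (LinearMap.congr_fun this x).symm

theorem gen_val (hVV : SVV) (hGram : SGram) [FiniteDimensional k F] [Fintype ι] [Fintype Ω]
    {J : Prob k F Pt ι Ω} {L : ℕ} (td : ThinDir J L) (wp : J.WP) {val : Set ι}
    (hm : Mon (gram J) val) (h2 : V2 (gram J) val) {V : Type} [AddCommGroup V] [Module F V]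
    [FiniteDimensional F V] (M : Obj J V) (hM : M.Indec) (hn : Nice M) :
    ∃ A : Set ι, M.Gen A ∧ ∀ p q, J.vt p ∈ A → J.vt q ∈ A → J.vt p ∈ val → J.vt q ∈ val →
      J.pk p = J.pk q ∧ M.ε (J.pk p) ≠ 0 := by
  obtain ⟨-, d, hd, hr⟩ := hn
  obtain ⟨uf, -, -, rt, -⟩ := hGram k F Pt ι Ω J L td wp
  refine ⟨_, hd, fun p q hp hq vp vq => ?_⟩
  have := hM.1
  obtain ⟨o, ho⟩ := exists_eps M
  have pos : ∀ o, 0 < finrank F (LinearMap.range (M.ε o)) ↔ M.ε o ≠ 0 := fun o => by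
    rw [Nat.pos_iff_ne_zero, Ne, Submodule.finrank_eq_zero, LinearMap.range_eq_bot]
  have ge : ∀ p, gram J (.inl (J.vt p)) (.inr (J.pk p)) = -1 := fun p => if_pos ⟨p, rfl, rfl⟩
  obtain ⟨v1, v2, -⟩ := hVV ι Ω (gram J) val uf hm _ (by
    rintro (i | i) <;> simp [vec]) (rt _ _ hr) (J.vt p) vp
    (by simpa [vec] using Nat.pos_of_ne_zero hp)
  refine ⟨v2 h2 _ vq (by simpa [vec] using Nat.pos_of_ne_zero hq) _ _ (ge p) (ge q), ?_⟩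
  have := v1 _ o (ge p) (by simpa [vec] using (pos o).2 ho)
  exact (pos _).1 (by simpa [vec] using this)

end ValA

open ValA MainA in
theorem val' (hHT : SHT) (hTT : STT) (hGood : SGood) (hUntw : SUntw) (hW : SW) (hVL : SValLift)
    (hVD : SValDir) (hCov : SCov) (hComb : SComb) (hFree : SFree) (hGr : SGr) (hSep : SSep)
    (hC1 : SCov1) (hStar : SStar) (hPF : SPF) (hVS : SValSmall) (h12 : SV12) (hVV : SVV)
    (hGram : SGram) : SVal := by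
  intro k F _ _ _ _ Pt ι _ _ _ P Pf val ht S _ h hf hy hS hv g1 g2 hth
  have hyf := hyp_sub hHT Pf S h (hyp_le hHT hv.le hy)
  obtain ⟨s1, s2⟩ := hTT k F _ ι _ ∅ _ g1 hyf
  obtain ⟨-, ⟨Qu, hu⟩, -, -, -, hq⟩ := hUntw k F _ ι _ _ g1 (hGood k F _ ι _ ∅ _ g1 s1 s2)
  have hB := (hq Qu hu).2.2.2.2 g2
  have hu' : IsUntw (Pf.sub S h) (Pf.sub S h) := ⟨rfl, fun b => by rw [← hu.2 b, hB]⟩
  obtain ⟨-, w, hgr, -, hl⟩ := hW k F _ ι _ _ _ g1 hyf hu' hth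
  obtain ⟨deg, -, -, gP, -, -, -, lifts⟩ := hVL k F Pt ι Unit P Pf val S h hS hv _ _ hgr
  set L := Fintype.card {p // S p} ^ 2 + 1
  refine (hCov k F Pt ι Unit P (Multiplicative ℝ) deg DgA.tf gP (2 * (2 * L + 20)) (fun _ => True)
    (fun Γ h => ⟨Γ, le_rfl, h, trivial⟩) fun T I O _ _ _ _ J π γ θ hL _ => ?_).2.1
  obtain ⟨Jf, h', hv', hS', hL'⟩ := lifts T I O J π γ θ hL
  have td := hl _ I O _ _ γ θ hL'
  have wp := (hC1 k F _ ι Unit _ _ I O _ _ hL'.cov).2.1 hL'.surj hyf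
  obtain ⟨dir, dist, scal⟩ := (hVD k F T I O J Jf _ _ hS' hv').2 h' L td
  obtain ⟨d₁, gr₁, sd₁⟩ := free_grading hComb hFree hGr td
  obtain ⟨deg₁, -, cst, gJ, -, sd, ls, lifts₁⟩ := hVL k F T I O J Jf _ _ h' hS' hv' _ d₁ gr₁
  obtain ⟨cof, sp⟩ := hSep k F T I O J _ deg₁ _ dir (sd sd₁) dist scal hv'.row cst
  obtain ⟨-, spf⟩ := hSep k F _ I O _ _ d₁ ∅ (hGram k F _ I O _ L td wp).2.2.2.2.2.1 sd₁
    (fun p q h1 _ h2 => td.dist p q h1 h2) (fun i j _ c b hb => td.scal c b hb.1)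
    (fun z hz => hz.elim) (fun p q _ hz => hz.elim)
  have := hCov k F T I O J _ deg₁ tf_free gJ (2 * (2 * L + 20))
    (fun Γ => ∀ x ∈ Γ, ∀ y, LS J.vt J.Ar deg₁ x y → y ∈ Γ) cof
    fun T₁ I₁ O₁ _ _ _ _ J₁ π₁ γ₁ θ₁ hL₁ cl => ?_
  · exact ⟨this.2.1, this.2.2.1⟩
  obtain ⟨dir₁, sep₁⟩ := sp T₁ I₁ O₁ J₁ π₁ γ₁ θ₁ hL₁ cl
  have c₁ := (hC1 k F Pt ι Unit P T I O J π hL.cov).1 T₁ I₁ O₁ J₁ π₁ hL₁.cov
  have wp₁ := (hC1 k F Pt ι Unit P T₁ I₁ O₁ J₁ _ c₁).2.1 hL₁.surj hy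
  refine ⟨(hStar k F T₁ I₁ O₁ J₁ dir₁ sep₁ wp₁).1, ?_⟩
  obtain ⟨Jf₁, h₁, hv₁, hS₁, hL₁'⟩ := lifts₁ T₁ I₁ O₁ J₁ π₁ γ₁ θ₁ hL₁
  have td₁ := thinDir_cover hGr td hL₁'.cov hL₁'.surj
  have c₂ := (hC1 k F _ ι Unit _ _ I O _ _ hL'.cov).1 _ I₁ O₁ _ _ hL₁'.cov
  have wp₂ := (hC1 k F _ ι Unit _ _ I₁ O₁ _ _ c₂).2.1 hL₁'.surj hyf
  obtain ⟨-, sm, nice⟩ := hPF k F _ I₁ O₁ _ L td₁
    (spf _ I₁ O₁ _ _ γ₁ θ₁ hL₁' fun x hx y hxy => cl x hx y (ls x y hxy)).2 wp₂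
  obtain ⟨m1, -, m2⟩ := h12 k F Pt ι P Pf val ht S h hf hy hS hv _ I₁ O₁ _ _ L c₂ td₁ wp₂
  refine hVS k F T₁ I₁ O₁ J₁ Jf₁ _ _ h₁ _ hS₁ hv₁ sm fun V _ _ _ M hM => ?_
  obtain ⟨A, a1, a2⟩ := gen_val hVV hGram td₁ wp₂ m1 m2 M hM (nice V M hM)
  refine ⟨A, a1, fun p q hp hq vp vq => ?_⟩
  have mem : ∀ p : {t // S (π (π₁ t))}, (γ (γ₁ (J₁.vt p.1)).1).1 ∈ val →
      P.vt (π (π₁ p.1)) ∈ val := fun p hp => by rwa [hL₁.vt, hL.vt] at hp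
  have := a2 p q (by rw [← hv₁.vt] at hp; exact hp) (by rw [← hv₁.vt] at hq; exact hq)
    ⟨p, rfl, mem p vp⟩ ⟨q, rfl, mem q vq⟩
  rw [← hv₁.pk]
  exact this

end Pool.Agent.MP_bd94e8_al.H89
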