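import Pool.Agent.MP_bd94e8_al.H89.Thin
import Pool.Agent.MP_bd94e8_al.H89.Pf
import Pool.Agent.MP_bd94e8_al.H12B.Enl1
import Pool.Agent.MP_bd94e8_al.H14B.Comb
import Pool.Agent.MP_bd94e8_al.H15B.Wp
import Pool.Agent.MP_bd94e8_al.H17B.Sep
import Pool.Agent.MP_bd94e8_al.H1B.Tests
import Pool.Agent.MP_bd94e8_al.H32B.Dl
import Pool.Agent.MP_bd94e8_al.H38B.GenF
import Pool.Agent.MP_bd94e8_al.H38B.Mix
import Pool.Agent.MP_bd94e8_al.H40B.ValSmall
import Pool.Agent.MP_bd94e8_al.H42B.Ord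
import Pool.Agent.MP_bd94e8_al.H4B.Pos
import Pool.Agent.MP_bd94e8_al.H57B.Lw
import Pool.Agent.MP_bd94e8_al.H58B.Piece
import Pool.Agent.MP_bd94e8_al.H66B.PosW
import Pool.Agent.MP_bd94e8_al.H67B.Vv
import Pool.Agent.MP_bd94e8_al.H69B.Gram
import Pool.Agent.MP_bd94e8_al.H70B.Enl2
import Pool.Agent.MP_bd94e8_al.H70B.Mor
import Pool.Agent.MP_bd94e8_al.H73B.W
import Pool.Agent.MP_bd94e8_al.H79B.Ht
import Pool.Agent.MP_bd94e8_al.H82B.Untw
import Pool.Agent.MP_bd94e8_al.H84B.ValDir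
import Pool.Agent.MP_bd94e8_al.H88B.Coc
import Pool.Agent.MP_bd94e8_al.H88B.Free
import Pool.Agent.MP_bd94e8_al.H93B.Cov
import Pool.Agent.MP_bd94e8_al.H95B.MainP
import Pool.Agent.MP_bd94e8_al.H95B.Push
import Pool.Agent.MP_bd94e8_al.H97B.Gr
import Pool.Agent.MP_bd94e8_al.H97B.Ks
import Pool.Agent.MP_bd94e8_al.H97B.Norm
import Pool.Agent.MP_bd94e8_al.H63B.Loc
import Pool.Agent.MP_bd94e8_al.H65B.Good
import Pool.Agent.MP_bd94e8_al.H92B.Fd
import Pool.Agent.MP_bd94e8_al.H72B.V12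
import Pool.Agent.MP_bd94e8_al.H84B.ValLift
import Pool.Agent.MP_bd94e8_al.H44B.Raw
import Pool.Agent.MP_bd94e8_al.H22N.Step

/-!
Assembly of the steps.
-/

set_option autoImplicit false

namespace Pool.Agent.MP_bd94e8_al.H89

theorem mainAll (hStar : SStar) : SMain' := by
  have hLoc := loc conj ht
  have hGood := good ord
  have hFD := fd
  have h12 := v12 gram'
  have hVL := valLift piece cov1
  have hDec := dec ks1
  have hStep := thinStep hDec push tt hGood untw ord conj ht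
  have hGr := sgr comb
  have hFree := free coc
  have hCov := cov piece conv (dl ks1 ks2) push
  have hPF := pf hStar gram' lw
  have hSep := sep cov1
  have hW := w tt hGood untw path ord comb (pos posW) hGr
  have hDG := dg hW (wp (norm comb coc) cov1) (win comb hFree hGr hSep hPF hCov gram') hCov hFD
    cov1 push
  have hThin := thin hStep hDG ord ht conj tt hGood untw
  exact main' mor ht (main ht conj mor hLoc tt hGood untw enl1 (enl2 enl1) hDG hThin
    (thinV hThin tt hGood enl1 (enl2 enl1) ht conj mor) (mix hDec enl1)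
    (genF mor h12 vv gram' push)
    (val' ht tt hGood untw hW hVL valDir hCov comb hFree hGr hSep cov1 hStar hPF
      (valSmall hDec mor valDir) h12 vv gram'))

theorem rawAll (hStar : SStar) (hRig : SRig) : SRaw :=
  raw ks1 ks2 (dec ks1) hRig conj (mainAll hStar)

end Pool.Agent.MP_bd94e8_al.H89
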