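import Pool.Agent.MP_bd94e8_al.H83.Hahn

/-!
Subspace problems given by an algebra of matrices, their objects, covers and gradings.
-/

set_option autoImplicit false
set_option linter.unusedSectionVars false

namespace Pool.Agent.MP_bd94e8_al.H89

open Module Function

section mask
variable {F Pt T : Type} [Zero F]

open Classical in
/-- Keep the entries `(q, p)` with `s q p`, replace the others by zero. -/
noncomputable def mask (s : T → Pt → Prop) (b : Matrix T Pt F) : Matrix T Pt F :=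
  Matrix.of fun q p => if s q p then b q p else 0

theorem mask_pos {s : T → Pt → Prop} (b : Matrix T Pt F) {q : T} {p : Pt} (h : s q p) :
    mask s b q p = b q p := by simp [mask, h]

theorem mask_neg {s : T → Pt → Prop} (b : Matrix T Pt F) {q : T} {p : Pt} (h : ¬ s q p) :
    mask s b q p = 0 := by simp [mask, h]

open Classical in
theorem mask_apply (s : T → Pt → Prop) (b : Matrix T Pt F) (q : T) (p : Pt) :
    mask s b q p = if s q p then b q p else 0 := rfl

theorem mask_ne {s : T → Pt → Prop} {b : Matrix T Pt F} {q : T} {p : Pt} (h : mask s b q p ≠ 0) :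
    s q p ∧ b q p ≠ 0 := by
  by_cases e : s q p
  · exact ⟨e, by rwa [mask_pos b e] at h⟩
  · exact (h (mask_neg b e)).elim

end mask

/-- The action of a matrix on families of vectors. -/
def act {F Pt T V : Type} [Semiring F] [Fintype Pt] [AddCommMonoid V] [Module F V]
    (b : Matrix T Pt F) (u : Pt → V) : T → V := fun q => ∑ p, b q p • u p

/-- A problem: points, vertices, peaks and an algebra of matrices. -/
structure Prob (k F : Type) [Field k] [Field F] [Algebra k F] (Pt ι Ω : Type) [Fintype Pt]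
    [DecidableEq Pt] where
  vt : Pt → ι
  pk : Pt → Ω
  B : Subalgebra k (Matrix Pt Pt F)
  idem : ∀ i, mask (fun _ p => vt p = i) (1 : Matrix Pt Pt F) ∈ B
  peak : ∀ b ∈ B, ∀ q p, b q p ≠ 0 → pk q = pk p

variable {k F : Type} [Field k] [Field F] [Algebra k F] {Pt ι Ω : Type} [Fintype Pt]
  [DecidableEq Pt]

namespace Prob
variable (P : Prob k F Pt ι Ω)

/-- The idempotent of a vertex. -/
noncomputable def e (i : ι) : Matrix Pt Pt F := mask (fun _ p => P.vt p = i) 1

/-- The matrix is supported in the block from `i` to `j`. -/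
def In (i j : ι) (b : Matrix Pt Pt F) : Prop := ∀ q p, b q p ≠ 0 → P.vt p = i ∧ P.vt q = j

/-- The block from `i` to `j` of a matrix. -/
noncomputable def blk (i j : ι) (b : Matrix Pt Pt F) : Matrix Pt Pt F :=
  mask (fun q p => P.vt p = i ∧ P.vt q = j) b

/-- The elements of the algebra supported in the block from `i` to `j`. -/
def H (i j : ι) : Submodule k (Matrix Pt Pt F) where
  carrier := {b | b ∈ P.B ∧ P.In i j b}
  add_mem' := fun {a b} ha hb => ⟨P.B.add_mem ha.1 hb.1, fun q p h => by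
    by_cases e : a q p = 0
    · exact hb.2 q p (by simpa [e] using h)
    · exact ha.2 q p e⟩
  zero_mem' := ⟨P.B.zero_mem, fun q p h => (h rfl).elim⟩
  smul_mem' := fun c b hb => ⟨P.B.smul_mem hb.1 c, fun q p h => hb.2 q p fun e => h (by simp [e])⟩

theorem mem_H {i j : ι} {b : Matrix Pt Pt F} : b ∈ P.H i j ↔ b ∈ P.B ∧ P.In i j b := Iff.rfl

theorem e_pos {i : ι} {p : Pt} (q : Pt) (h : P.vt p = i) : P.e i q p = (1 : Matrix Pt Pt F) q p :=
  mask_pos (s := fun _ p => P.vt p = i) _ h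

theorem e_neg {i : ι} {p : Pt} (q : Pt) (h : P.vt p ≠ i) : P.e i q p = 0 :=
  mask_neg (s := fun _ p => P.vt p = i) _ h

theorem e_off (i : ι) {q p : Pt} (h : q ≠ p) : P.e i q p = 0 := by
  by_cases e : P.vt p = i
  · rw [P.e_pos q e, Matrix.one_apply_ne h]
  · exact P.e_neg q e

theorem blk_pos {i j : ι} (b : Matrix Pt Pt F) {q p : Pt} (hp : P.vt p = i) (hq : P.vt q = j) :
    P.blk i j b q p = b q p := mask_pos (s := fun q p => P.vt p = i ∧ P.vt q = j) _ ⟨hp, hq⟩

theorem blk_neg {i j : ι} (b : Matrix Pt Pt F) {q p : Pt} (h : ¬ (P.vt p = i ∧ P.vt q = j)) :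
    P.blk i j b q p = 0 := mask_neg (s := fun q p => P.vt p = i ∧ P.vt q = j) _ h

theorem blk_eq (i j : ι) (b : Matrix Pt Pt F) : P.blk i j b = P.e j * b * P.e i := by
  ext q p
  have h2 : (P.e j * b * P.e i) q p = P.e j q q * b q p * P.e i p p := by
    rw [Matrix.mul_apply, Finset.sum_eq_single p (fun x _ hx => by rw [P.e_off i hx, mul_zero])
      (by simp), Matrix.mul_apply, Finset.sum_eq_single q
      (fun x _ hx => by rw [P.e_off j hx.symm, zero_mul]) (by simp)]
  rw [h2]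
  by_cases hp : P.vt p = i
  · by_cases hq : P.vt q = j
    · rw [P.blk_pos _ hp hq, P.e_pos _ hp, P.e_pos _ hq]; simp
    · rw [P.blk_neg _ fun h => hq h.2, P.e_neg _ hq]; simp
  · rw [P.blk_neg _ fun h => hp h.1, P.e_neg _ hp]; simp

theorem e_mem (i : ι) : P.e i ∈ P.B := P.idem i

theorem blk_mem {b : Matrix Pt Pt F} (hb : b ∈ P.B) (i j : ι) : P.blk i j b ∈ P.H i j :=
  ⟨by rw [blk_eq]; exact P.B.mul_mem (P.B.mul_mem (P.e_mem j) hb) (P.e_mem i),
    fun _ _ h => (mask_ne h).1⟩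

/-- Elements of the algebra with zero diagonal. -/
def R0 : Set (Matrix Pt Pt F) := {b | b ∈ P.B ∧ ∀ p, b p p = 0}

/-- There is a nonzero block from `i` to `j`. -/
def Succ (i j : ι) : Prop := ∃ b ∈ P.B, ∃ p q, P.vt p = i ∧ P.vt q = j ∧ b q p ≠ 0

/-- Two peaks are joined by at most `c` vertices. -/
def Near (c : ℕ) (o o' : Ω) : Prop := ∃ f : ℕ → Ω, f 0 = o ∧ f c = o' ∧ ∀ n < c,
  f n = f (n + 1) ∨ ∃ p q, P.vt p = P.vt q ∧ P.pk p = f n ∧ P.pk q = f (n + 1)

/-- Some element of the algebra has a nonzero entry from `p` to `q`. -/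
def Ar (p q : Pt) : Prop := p ≠ q ∧ ∃ b ∈ P.B, b q p ≠ 0

/-- Incomparable points at one peak. -/
def Inc (p q : Pt) : Prop := P.pk p = P.pk q ∧ p ≠ q ∧ ¬ P.Ar p q ∧ ¬ P.Ar q p

/-- The problem with one vertex and one peak. -/
noncomputable def triv (B : Subalgebra k (Matrix Pt Pt F)) : Prob k F Pt Unit Unit where
  vt _ := ()
  pk _ := ()
  B := B
  idem i := by
    have : mask (fun _ _ => () = i) (1 : Matrix Pt Pt F) = 1 := by
      ext q p; exact mask_pos _ rfl
    rw [this]; exact B.one_mem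
  peak _ _ _ _ _ := rfl

/-- Restriction to a set of points. -/
noncomputable def sub (S : Pt → Prop) [DecidablePred S]
    (h : ∀ b ∈ P.B, ∀ b' ∈ P.B, ∃ c ∈ P.B,
      b.submatrix (Subtype.val : {p // S p} → Pt) (Subtype.val : {p // S p} → Pt) *
        b'.submatrix (Subtype.val : {p // S p} → Pt) (Subtype.val : {p // S p} → Pt) =
        c.submatrix Subtype.val Subtype.val) : Prob k F {p // S p} ι Ω where
  vt p := P.vt p.1
  pk p := P.pk p.1
  B :=
    { carrier := {c | ∃ b ∈ P.B, b.submatrix Subtype.val Subtype.val = c}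
      mul_mem' := by
        rintro _ _ ⟨b, hb, rfl⟩ ⟨b', hb', rfl⟩
        obtain ⟨c, hc, e⟩ := h b hb b' hb'
        exact ⟨c, hc, e.symm⟩
      add_mem' := by
        rintro _ _ ⟨b, hb, rfl⟩ ⟨b', hb', rfl⟩
        exact ⟨b + b', P.B.add_mem hb hb', rfl⟩
      algebraMap_mem' := fun c => ⟨algebraMap k _ c, P.B.algebraMap_mem c, by
        ext q p
        simp [Matrix.algebraMap_matrix_apply, Subtype.ext_iff]⟩ }
  idem i := ⟨P.e i, P.e_mem i, by
    ext q p
    by_cases e : P.vt p.1 = i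
    · rw [mask_pos (s := fun _ (p : {p // S p}) => P.vt p.1 = i) _ e, Matrix.submatrix_apply,
        P.e_pos _ e]
      simp [Matrix.one_apply, Subtype.ext_iff]
    · rw [mask_neg (s := fun _ (p : {p // S p}) => P.vt p.1 = i) _ e, Matrix.submatrix_apply,
        P.e_neg _ e]⟩
  peak := by
    rintro _ ⟨b, hb, rfl⟩ q p h
    exact P.peak b hb _ _ h

end Prob

/-- `P'` is obtained from `P` by conjugation with the block diagonal matrix `g`. -/
structure IsConj (P P' : Prob k F Pt ι Unit) (g g' : Matrix Pt Pt F) : Prop where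
  vt : P'.vt = P.vt
  mul : g * g' = 1
  mul' : g' * g = 1
  blk : ∀ q p, g q p ≠ 0 → P.vt q = P.vt p
  blk' : ∀ q p, g' q p ≠ 0 → P.vt q = P.vt p
  mem : ∀ b, b ∈ P'.B ↔ g' * b * g ∈ P.B

/-- An object of a problem. -/
structure Obj [Fintype Ω] (P : Prob k F Pt ι Ω) (V : Type) [AddCommGroup V] [Module F V] where
  ε : Ω → V →ₗ[F] V
  orth : ∀ o o', o ≠ o' → ε o ∘ₗ ε o' = 0
  sum : ∑ o, ε o = LinearMap.id
  U : AddSubgroup (Pt → V)
  peak : ∀ u ∈ U, ∀ p, ε (P.pk p) (u p) = u p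
  stab : ∀ b ∈ P.B, ∀ u ∈ U, act b u ∈ U

variable [Fintype Ω]

namespace Obj
variable {P : Prob k F Pt ι Ω} {V V' : Type} [AddCommGroup V] [Module F V] [AddCommGroup V']
  [Module F V']

/-- Morphisms of objects. -/
def IsHom (M : Obj P V) (M' : Obj P V') (g : V →ₗ[F] V') : Prop :=
  (∀ o, g ∘ₗ M.ε o = M'.ε o ∘ₗ g) ∧ ∀ u ∈ M.U, (fun p => g (u p)) ∈ M'.U

/-- Indecomposable objects. -/
def Indec (M : Obj P V) : Prop :=
  Nontrivial V ∧ ∀ e : V →ₗ[F] V, IsHom M M e → e ∘ₗ e = e → e = 0 ∨ e = LinearMap.id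

/-- The subgroup of the object is generated by its parts at the vertices of `T`. -/
def Gen (M : Obj P V) (T : Set ι) : Prop :=
  ∀ u ∈ M.U, u ∈ AddSubgroup.closure
    {w | ∃ b ∈ P.B, ∃ j ∈ T, ∃ u' ∈ M.U, w = act (b * P.e j) u'}

/-- The object induced on a subspace that is stable under the projections. -/
def res (M : Obj P V) (W : Submodule F V) (hW : ∀ o, ∀ x ∈ W, M.ε o x ∈ W) : Obj P W where
  ε o := (M.ε o).restrict (hW o)
  orth o o' h := LinearMap.ext fun x => Subtype.ext (LinearMap.congr_fun (M.orth o o' h) x.1)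
  sum := LinearMap.ext fun x => Subtype.ext (by
    have := LinearMap.congr_fun M.sum x.1
    simpa [LinearMap.sum_apply] using this)
  U := M.U.comap
    { toFun := fun u p => (u p : V), map_zero' := rfl, map_add' := fun _ _ => rfl }
  peak u hu p := Subtype.ext (M.peak _ hu p)
  stab b hb u hu := by
    have := M.stab b hb _ hu
    change (fun q => ((act b u q : W) : V)) ∈ M.U
    convert this using 1
    ext q
    simp [act]

theorem mem_res (M : Obj P V) (W : Submodule F V) (hW : ∀ o, ∀ x ∈ W, M.ε o x ∈ W) (u : Pt → W) :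
    u ∈ (M.res W hW).U ↔ (fun p => (u p : V)) ∈ M.U := Iff.rfl

theorem IsHom.range_stab {M : Obj P V} {e : V →ₗ[F] V} (h : IsHom M M e) (o : Ω) :
    ∀ x ∈ LinearMap.range e, M.ε o x ∈ LinearMap.range e := by
  rintro _ ⟨y, rfl⟩
  exact ⟨M.ε o y, LinearMap.congr_fun (h.1 o) y⟩

/-- The direct summand given by an idempotent endomorphism. -/
def smd (M : Obj P V) (e : V →ₗ[F] V) (h : IsHom M M e) : Obj P (LinearMap.range e) :=
  M.res _ h.range_stab

end Obj

namespace Prob
variable (P : Prob k F Pt ι Ω)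

/-- Indecomposable objects have bounded dimension. -/
def Bnd : Prop := ∃ c : ℕ, ∀ (V : Type) [AddCommGroup V] [Module F V] [FiniteDimensional F V]
  (M : Obj P V), M.Indec → finrank F V ≤ c

/-- The peaks in the support of an indecomposable object are near each other. -/
def Small (c : ℕ) : Prop := ∀ (V : Type) [AddCommGroup V] [Module F V] [FiniteDimensional F V]
  (M : Obj P V), M.Indec → ∀ o o', M.ε o ≠ 0 → M.ε o' ≠ 0 → P.Near c o o'

/-- The Tits form is weakly positive. -/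
def WP [Fintype ι] : Prop := ∀ (d : ι → ℕ) (v : Ω → ℕ), (d ≠ 0 ∨ v ≠ 0) →
  (∑ p, d (P.vt p) * v (P.pk p)) * finrank k F <
    (∑ o, v o ^ 2) * finrank k F + ∑ i, ∑ j, d i * d j * finrank k (P.H i j)

/-- The Tits form takes the value `finrank k F`. -/
def Root [Fintype ι] (d : ι → ℕ) (v : Ω → ℕ) : Prop :=
  (∑ p, d (P.vt p) * v (P.pk p)) * finrank k F + finrank k F =
    (∑ o, v o ^ 2) * finrank k F + ∑ i, ∑ j, d i * d j * finrank k (P.H i j)

end Prob

/-- All tests on the algebra `B` have a weakly positive form. -/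
def Hyp (B : Subalgebra k (Matrix Pt Pt F)) : Prop :=
  ∀ (C : Type) [Field C] [Algebra k C] [Algebra C F] [IsScalarTower k C F] (lam : F →ₗ[C] C),
    lam 1 = 1 → ∀ (T I O : Type) [Fintype T] [DecidableEq T] [Fintype I] [Fintype O]
    (tv : T → I) (tp : T → O), Surjective tv → ∀ (α : Matrix Pt T F) (γ : Matrix T Pt F),
    (∀ t t', tv t = tv t' → (γ * α) t t' = (1 : Matrix T T F) t t') →
    ∀ (S : I → I → Submodule k (Matrix T T C)),
    (∀ i j, ∀ b ∈ B,
      mask (fun t' t => tv t = i ∧ tv t' = j ∧ tp t' = tp t) ((γ * b * α).map lam) ∈ S i j) →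
    ∀ (d : I → ℕ) (v : O → ℕ), (d ≠ 0 ∨ v ≠ 0) →
      (∑ t, d (tv t) * v (tp t)) * finrank k C <
        (∑ o, v o ^ 2) * finrank k C + ∑ i, ∑ j, d i * d j * finrank k (S i j)

/-- Every object over the Hahn series has connections. -/
def Conn (C0 : Type) [CommRing C0] [Algebra C0 F] (B : Set (Matrix Pt Pt F)) : Prop :=
  ∀ (V : Type) [AddCommGroup V] [Module F V] [Module (H83.K C0) V] [SMulCommClass F (H83.K C0) V]
    [Module.Finite (H83.K C0) V],
    (∀ (c : C0) (x : V), algebraMap C0 (H83.K C0) c • x = algebraMap C0 F c • x) →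
    ∀ U : AddSubgroup (Pt → V), (∀ b ∈ B, ∀ u ∈ U, act b u ∈ U) →
    (∀ (c : H83.K C0), ∀ u ∈ U, c • u ∈ U) → ∀ i : ℕ, ∃ D : V →ₗ[F] V,
      (∀ (c : H83.K C0) x, D (c • x) = H83.H.thK i c • x + c • D x) ∧
        ∀ u ∈ U, (fun p => D (u p)) ∈ U

section cover
variable {T I O : Type} [Fintype T] [DecidableEq T]

/-- `J` is a cover of `P` along the map `π` of points. -/
structure Cover (J : Prob k F T I O) (P : Prob k F Pt ι Ω) (π : T → Pt) : Prop where
  vt_eq : ∀ t t', J.vt t = J.vt t' → P.vt (π t) = P.vt (π t')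
  inj : ∀ t t', J.vt t = J.vt t' → π t = π t' → t = t'
  full : ∀ t p, P.vt p = P.vt (π t) → ∃ t', J.vt t' = J.vt t ∧ π t' = p
  pk_eq : ∀ t t', J.pk t = J.pk t' → P.pk (π t) = P.pk (π t')
  uniq : ∀ t t', π t = π t' → J.pk t = J.pk t' → t = t'
  mem : ∀ b, b ∈ J.B ↔ (∀ t' t, b t' t ≠ 0 → J.pk t' = J.pk t) ∧
    ∀ i j, ∃ h ∈ P.B, ∀ t t', J.vt t = i → J.vt t' = j → b t' t = h (π t') (π t)
  homog : ∀ h ∈ P.B, ∀ i j, ∃ h' ∈ P.B, ∀ t t', J.vt t = i → J.vt t' = j →
    (J.pk t' = J.pk t → h' (π t') (π t) = h (π t') (π t)) ∧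
      (J.pk t' ≠ J.pk t → h' (π t') (π t) = 0)

/-- The object `M` is the push-down of the object `N` of a cover. -/
structure Push [Fintype O] {J : Prob k F T I O} {P : Prob k F Pt ι Ω} (π : T → Pt) (ρ : O → Ω)
    {V : Type} [AddCommGroup V] [Module F V] (N : Obj J V) (M : Obj P V) : Prop where
  pk : ∀ t, ρ (J.pk t) = P.pk (π t)
  eps : ∀ o, M.ε (ρ o) ∘ₗ N.ε o = N.ε o
  lift : ∀ p o, N.ε o ≠ 0 → ρ o = P.pk p → ∃ t, π t = p ∧ J.pk t = o
  down : ∀ u ∈ N.U, ∀ (i : I) (w : Pt → V), (∀ t, J.vt t = i → w (π t) = u t) →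
    (∀ p, (∀ t, J.vt t = i → π t ≠ p) → w p = 0) → w ∈ M.U
  up : ∀ w ∈ M.U, (fun t => N.ε (J.pk t) (w (π t))) ∈ N.U

end cover

section graded
variable {G : Type} [Group G]

/-- The algebra is graded by the degrees of the points. -/
def Graded (P : Prob k F Pt ι Ω) (deg : Pt → G) : Prop :=
  ∀ b ∈ P.B, ∀ s : G, mask (fun q p => deg p = s * deg q) b ∈ P.B

/-- A grading of an object. -/
structure Grd {P : Prob k F Pt ι Ω} {V : Type} [AddCommGroup V] [Module F V] (M : Obj P V)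
    (deg : Pt → G) where
  π : G → V →ₗ[F] V
  s : Finset G
  supp : ∀ g, g ∉ s → π g = 0
  orth : ∀ g g', g ≠ g' → π g ∘ₗ π g' = 0
  sum : ∑ g ∈ s, π g = LinearMap.id
  comm : ∀ g o, π g ∘ₗ M.ε o = M.ε o ∘ₗ π g
  hom : ∀ u ∈ M.U, ∀ g, (fun p => π (g * deg p) (u p)) ∈ M.U

/-- Indecomposable as a graded object. -/
def Grd.Indec {P : Prob k F Pt ι Ω} {V : Type} [AddCommGroup V] [Module F V] {M : Obj P V}
    {deg : Pt → G} (Γ : Grd M deg) : Prop :=
  Nontrivial V ∧ ∀ e : V →ₗ[F] V, Obj.IsHom M M e → (∀ g, e ∘ₗ Γ.π g = Γ.π g ∘ₗ e) →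
    e ∘ₗ e = e → e = 0 ∨ e = LinearMap.id

/-- Graded indecomposable objects have bounded dimension. -/
def GBnd (P : Prob k F Pt ι Ω) (deg : Pt → G) : Prop :=
  ∃ c : ℕ, ∀ (V : Type) [AddCommGroup V] [Module F V] [FiniteDimensional F V] (M : Obj P V)
    (Γ : Grd M deg), Γ.Indec → finrank F V ≤ c

/-- `J` is a finite piece of the graded cover of `P`. -/
structure Lift {T I O : Type} [Fintype T] [DecidableEq T] (J : Prob k F T I O)
    (P : Prob k F Pt ι Ω) (deg : Pt → G) (π : T → Pt) (γ : I → ι × G) (θ : O → Ω × G) : Prop where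
  γinj : Injective γ
  θinj : Injective θ
  vt : ∀ t, (γ (J.vt t)).1 = P.vt (π t)
  pk : ∀ t, θ (J.pk t) = (P.pk (π t), (γ (J.vt t)).2 * deg (π t))
  surj : Surjective J.vt
  cov : Cover J P π

/-- Successors among lifted vertices. -/
def LS (vt : Pt → ι) (arr : Pt → Pt → Prop) (deg : Pt → G) (x y : ι × G) : Prop :=
  ∃ p q, vt p = x.1 ∧ vt q = y.1 ∧ vt p ≠ vt q ∧ arr p q ∧ x.2 * deg p = y.2 * deg q

end graded

end Pool.Agent.MP_bd94e8_al.H89
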