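import Pool.Agent.MP_bd94e8_al.H89.Defs
import Pool.Agent.MP_bd94e8_al.H83.Defs

/-!
Structures on problems: flags, thin algebras, directed problems, unit forms, artin algebras.
-/

set_option autoImplicit false
set_option linter.unusedSectionVars false

namespace Pool.Agent.MP_bd94e8_al.H89

open Module Function

section comb
variable {Pt ι : Type}

/-- The vertex has three different points. -/
def Tri3 (vt : Pt → ι) (i : ι) : Prop :=
  ∃ p q r, vt p = i ∧ vt q = i ∧ vt r = i ∧ p ≠ q ∧ p ≠ r ∧ q ≠ r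

/-- The vertex has at most three points. -/
def Le3 (vt : Pt → ι) (i : ι) : Prop := ∀ p q r s, vt p = i → vt q = i → vt r = i → vt s = i →
  p = q ∨ p = r ∨ p = s ∨ q = r ∨ q = s ∨ r = s

/-- Incomparable points. -/
def AInc (arr : Pt → Pt → Prop) (p q : Pt) : Prop := p ≠ q ∧ ¬ arr p q ∧ ¬ arr q p

/-- There is no walk of length `L`. -/
def NoPath (vt : Pt → ι) (inc : Pt → Pt → Prop) (L : ℕ) : Prop :=
  ∀ e x : ℕ → Pt, ¬ ∀ m < L, vt (e m) = vt (x m) ∧ e m ≠ x m ∧ inc (x m) (e (m + 1))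

/-- There is no walk between two vertices with three points, through vertices outside `val`. -/
def NoTT (vt : Pt → ι) (inc : Pt → Pt → Prop) (val : Set ι) : Prop :=
  ∀ (r : ℕ) (e x : ℕ → Pt), Tri3 vt (vt (x 0)) → Tri3 vt (vt (e (r + 1))) → vt (x 0) ∉ val →
    vt (e (r + 1)) ∉ val → (∀ m ≤ r, inc (x m) (e (m + 1))) →
    (∀ m, 1 ≤ m → m ≤ r → vt (e m) = vt (x m) ∧ e m ≠ x m ∧ vt (e m) ∉ val) → False

/-- An arrow with no point in between. -/
def Cov (arr : Pt → Pt → Prop) (a : Pt × Pt) : Prop :=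
  arr a.1 a.2 ∧ ¬ ∃ z, arr a.1 z ∧ arr z a.2

/-- Two points are the sources of tied arrows. -/
def Link (tie : Pt × Pt → Pt × Pt → Prop) (p p' : Pt) : Prop := ∃ q q', tie (p, q) (p', q')

/-- The combinatorics of arrows and ties. -/
structure Comb (vt : Pt → ι) (arr : Pt → Pt → Prop) (tie : Pt × Pt → Pt × Pt → Prop) : Prop where
  irr : ∀ p, ¬ arr p p
  trans : ∀ p q r, arr p q → arr q r → arr p r
  three : ∀ i, Le3 vt i
  tie_arr : ∀ a b, tie a b → arr a.1 a.2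
  symm : ∀ a b, tie a b → tie b a
  tie_vt : ∀ a b, tie a b → vt a.1 = vt b.1 ∧ vt a.2 = vt b.2 ∧ a.1 ≠ b.1 ∧ a.2 ≠ b.2
  tie_trans : ∀ a b c, tie a b → tie b c → a ≠ c → tie a c
  fac : ∀ p q z b, tie (p, q) b → arr p z → arr z q →
    ∃ p' z' q', tie (p, z) (p', z') ∧ tie (z, q) (z', q') ∧ tie (p, q) (p', q')
  pl : ∀ x y z b c d, tie (x, y) b → tie (x, y) c → b ≠ c → arr y z → ¬ tie (x, z) d
  pl' : ∀ x y z b c d, tie (x, y) b → tie (x, y) c → b ≠ c → arr z x → ¬ tie (z, y) d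

variable {F : Type} [Field F] [Fintype Pt] [DecidableEq Pt]

/-- An arrow given by a set of matrices. -/
def Arr (R : Set (Matrix Pt Pt F)) (p q : Pt) : Prop := ∃ r ∈ R, r q p ≠ 0

/-- The support of `h` is contained in the two entries `a`, `b` (source, target). -/
def Sup2 (h : Matrix Pt Pt F) (a b : Pt × Pt) : Prop := ∀ q p, h q p ≠ 0 → (p, q) = a ∨ (p, q) = b

/-- Tied arrows. -/
def Tie (vt : Pt → ι) (R : Set (Matrix Pt Pt F)) (a b : Pt × Pt) : Prop :=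
  a ≠ b ∧ vt a.1 = vt b.1 ∧ vt a.2 = vt b.2 ∧ Matrix.single a.2 a.1 (1 : F) ∉ R ∧
    ∃ h ∈ R, h a.2 a.1 ≠ 0 ∧ h b.2 b.1 ≠ 0 ∧ Sup2 h a b

/-- Thin spaces of matrices. -/
structure Thin (vt : Pt → ι) (R : Set (Matrix Pt Pt F)) : Prop where
  zero : 0 ∈ R
  add : ∀ a ∈ R, ∀ b ∈ R, a + b ∈ R
  smul : ∀ (c : F), ∀ a ∈ R, c • a ∈ R
  mul : ∀ a ∈ R, ∀ b ∈ R, a * b ∈ R
  diag : ∀ a ∈ R, ∀ p, a p p = 0
  span : ∀ r ∈ R, r ∈ AddSubmonoid.closure {h | h ∈ R ∧ ∃ a b : Pt × Pt,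
    vt a.1 = vt b.1 ∧ vt a.2 = vt b.2 ∧ (a.1 = b.1 ↔ a.2 = b.2) ∧ Sup2 h a b}
  mm : ∀ h ∈ R, ∀ a b : Pt × Pt, vt a.1 = vt b.1 → vt a.2 = vt b.2 → (a.1 = b.1 ∨ a.2 = b.2) →
    Sup2 h a b → h a.2 a.1 ≠ 0 → Matrix.single a.2 a.1 (1 : F) ∈ R

end comb

section prob
variable {k F : Type} [Field k] [Field F] [Algebra k F] {Pt ι Ω : Type} [Fintype Pt]
  [DecidableEq Pt]

/-- Local purely inseparable vertices that are pairwise not isomorphic. -/
structure PILoc (P : Prob k F Pt ι Unit) : Prop where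
  pi : ∀ i, ∀ b ∈ P.H i i, ∃ (r : ℕ) (c : k), IsNilpotent (b ^ (ringExpChar k ^ r) - c • P.e i)
  comm : ∀ i, ∀ b ∈ P.H i i, ∀ b' ∈ P.H i i, IsNilpotent (b * b' - b' * b)
  basic : ∀ i j, i ≠ j → ∀ b ∈ P.H i j, ∀ b' ∈ P.H j i, IsNilpotent (b' * b)

/-- The columns supported on the vertex form a simple module. -/
def ColSimple (P : Prob k F Pt ι Ω) (z : ι) : Prop := ∀ W : Submodule F (Pt → F),
  (∀ x ∈ W, ∀ p, P.vt p ≠ z → x p = 0) → (∀ b ∈ P.H z z, ∀ x ∈ W, b.mulVec x ∈ W) →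
    W = ⊥ ∨ ∀ x : Pt → F, (∀ p, P.vt p ≠ z → x p = 0) → x ∈ W

/-- The rows supported on the vertex form a simple module. -/
def RowSimple (P : Prob k F Pt ι Ω) (z : ι) : Prop := ∀ W : Submodule F (Pt → F),
  (∀ x ∈ W, ∀ p, P.vt p ≠ z → x p = 0) → (∀ b ∈ P.H z z, ∀ x ∈ W, Matrix.vecMul x b ∈ W) →
    W = ⊥ ∨ ∀ x : Pt → F, (∀ p, P.vt p ≠ z → x p = 0) → x ∈ W

/-- The endomorphism ring of the vertex is a division ring. -/
def Div (P : Prob k F Pt ι Ω) (z : ι) : Prop :=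
  ∀ b ∈ P.H z z, b ≠ 0 → ∃ b' ∈ P.H z z, b' * b = P.e z

/-- A basis adapted to the flags of the vertices outside `val`; the vertices in `val` are simple. -/
structure Flag (P : Prob k F Pt ι Unit) (val : Set ι) (ht : Pt → ℕ) : Prop where
  inj : ∀ p q, P.vt p = P.vt q → P.vt p ∉ val → ht p = ht q → p = q
  three : ∀ i, i ∉ val → Le3 P.vt i
  tri : ∀ b ∈ P.B, ∀ q p, P.vt q = P.vt p → P.vt p ∉ val → b q p ≠ 0 → ht p ≤ ht q
  diag : ∀ b ∈ P.B, ∀ p q, P.vt p = P.vt q → P.vt p ∉ val → b p p = b q q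
  onto : ∀ p, P.vt p ∉ val → ∀ c : F, ∃ b ∈ P.B, b p p = c
  step : ∀ p q, P.vt p = P.vt q → P.vt p ∉ val → ht p < ht q → ∃ b ∈ P.B, b q p ≠ 0 ∧ b p p = 0
  basic : ∀ i j, i ≠ j → ∀ b ∈ P.H i j, ∀ b' ∈ P.H j i, IsNilpotent (b' * b)
  div : ∀ z ∈ val, Div P z
  col : ∀ z ∈ val, ColSimple P z
  row : ∀ z ∈ val, RowSimple P z
  num : ∀ z ∈ val, ∃ y : ℕ, Nat.card {p // P.vt p = z} * finrank k F = y * finrank k (P.H z z) ∧
    2 ≤ Nat.card {p // P.vt p = z} * y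

/-- Three entries between two vertices with three points are not proportional. -/
def No3 (P : Prob k F Pt ι Unit) (val : Set ι) : Prop :=
  ∀ (i j : ι) (x y : Fin 3 → Pt), i ≠ j → i ∉ val → j ∉ val → Injective x → Injective y →
    (∀ s, P.vt (x s) = i) → (∀ s, P.vt (y s) = j) → (∀ s, ¬ P.Ar (y s) (x s)) →
    ∀ W : Submodule k (Fin 3 → F), (∀ b ∈ P.B, (fun s => b (y s) (x s)) ∈ W) →
      finrank k F < finrank k W

/-- Linearity and fullness of the blocks. -/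
structure Good (P : Prob k F Pt ι Unit) (val : Set ι) : Prop where
  smul : ∀ i j, i ≠ j → ¬ (i ∈ val ∧ j ∈ val) → ∀ (c : F), ∀ b ∈ P.H i j, c • b ∈ P.B
  smul0 : ∀ i, i ∉ val → ∀ (c : F), ∀ b ∈ P.H i i, (∀ p, b p p = 0) → c • b ∈ P.B
  fullc : ∀ z ∈ val, ∀ j, j ∉ val → ∀ b ∈ P.H z j, ∀ c, P.In z z c → b * c ∈ P.B
  fullr : ∀ z ∈ val, ∀ j, j ∉ val → ∀ b ∈ P.H j z, ∀ c, P.In z z c → c * b ∈ P.B
  untw : ∀ i, i ∉ val → ¬ Tri3 P.vt i → ∀ c : F, c • P.e i ∈ P.B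

/-- The shape of the twisted vertices. -/
def Tws (P : Prob k F Pt ι Unit) : Prop := ∀ i, (∀ c : F, c • P.e i ∈ P.B) ∨
  ∃ (p q : Pt) (Δ : Submodule k F), P.vt p = i ∧ P.vt q = i ∧ P.Ar p q ∧ Δ ≠ ⊤ ∧
    ∀ b ∈ P.H i i, ∃ c ∈ Δ, b - b p p • P.e i - Matrix.single q p c ∈ P.R0

/-- The untwisted problem. -/
def IsUntw (Q Qu : Prob k F Pt ι Unit) : Prop :=
  Qu.vt = Q.vt ∧ ∀ b, b ∈ Qu.B ↔ ∃ c : ι → F, b - Matrix.diagonal (fun p => c (Q.vt p)) ∈ Q.R0

/-- The endomorphism rings of the vertices outside `val` are replaced by their spans. -/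
def IsPlus (P : Prob k F Pt ι Unit) (val : Set ι) (P' : Prob k F Pt ι Unit) : Prop :=
  P'.vt = P.vt ∧ ∀ b, b ∈ P'.B ↔ ∀ i j,
    (i = j ∧ i ∉ val → P.blk i j b ∈ Submodule.span F (P.H i i : Set (Matrix Pt Pt F))) ∧
    (¬ (i = j ∧ i ∉ val) → P.blk i j b ∈ P.B)

/-- The nonzero blocks between vertices in `val` are replaced by full blocks. -/
def IsDv (P : Prob k F Pt ι Unit) (val : Set ι) (P' : Prob k F Pt ι Unit) : Prop :=
  P'.vt = P.vt ∧ ∀ b, b ∈ P'.B ↔ ∀ i j,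
    (i ∈ val ∧ j ∈ val → P.H i j = ⊥ → P.blk i j b = 0) ∧
    (¬ (i ∈ val ∧ j ∈ val) → P.blk i j b ∈ P.B)

/-- Both enlargements. -/
def IsFat (P : Prob k F Pt ι Unit) (val : Set ι) (P' : Prob k F Pt ι Unit) : Prop :=
  P'.vt = P.vt ∧ ∀ b, b ∈ P'.B ↔ ∀ i j,
    (i ∈ val ∧ j ∈ val → P.H i j = ⊥ → P.blk i j b = 0) ∧
    (i = j ∧ i ∉ val → P.blk i j b ∈ Submodule.span F (P.H i i : Set (Matrix Pt Pt F))) ∧
    (i ≠ j → ¬ (i ∈ val ∧ j ∈ val) → P.blk i j b ∈ P.B)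

/-- All points outside `val` and one point in each vertex of `val`. -/
def IsRep (vt : Pt → ι) (val : Set ι) (S : Pt → Prop) : Prop :=
  (∀ p, vt p ∉ val → S p) ∧ ∀ z ∈ val, ∃! p, vt p = z ∧ S p

/-- The hypothesis needed to restrict a problem to a set of points. -/
def SubOk (P : Prob k F Pt ι Ω) (S : Pt → Prop) [DecidablePred S] : Prop :=
  ∀ b ∈ P.B, ∀ b' ∈ P.B, ∃ c ∈ P.B,
    b.submatrix (Subtype.val : {p // S p} → Pt) (Subtype.val : {p // S p} → Pt) *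
      b'.submatrix (Subtype.val : {p // S p} → Pt) (Subtype.val : {p // S p} → Pt) =
      c.submatrix Subtype.val Subtype.val

/-- The restriction to `S` is a Morita equivalence. -/
def MorOk (P : Prob k F Pt ι Ω) (S : Pt → Prop) : Prop :=
  mask (fun _ p => S p) (1 : Matrix Pt Pt F) ∈ P.B ∧ (1 : Matrix Pt Pt F) ∈ AddSubgroup.closure
    {x | ∃ b ∈ P.B, ∃ b' ∈ P.B, x = b * mask (fun _ p => S p) (1 : Matrix Pt Pt F) * b'}

/-- A linear thin problem without long walks. -/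
structure ThinBase (J : Prob k F Pt ι Ω) (L : ℕ) : Prop where
  three : ∀ i, Le3 J.vt i
  scal : ∀ (c : F), ∀ b ∈ J.B, c • b ∈ J.B
  diag : ∀ b ∈ J.B, ∀ p q, J.vt p = J.vt q → b p p = b q q
  thin : Thin J.vt J.R0
  path : NoPath J.vt J.Inc L

/-- A rank function that decreases along blocks. -/
def Rk (J : Prob k F Pt ι Ω) (rk : ι → ℕ) : Prop :=
  ∀ b ∈ J.B, ∀ q p, b q p ≠ 0 → J.vt q ≠ J.vt p → rk (J.vt q) < rk (J.vt p)

/-- A thin directed problem. -/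
structure ThinDir (J : Prob k F Pt ι Ω) (L : ℕ) : Prop extends ThinBase J L where
  surj : Surjective J.vt
  dist : ∀ p q, J.vt p = J.vt q → J.pk p = J.pk q → p = q
  rk : ∃ rk, Rk J rk

/-- A directed problem. -/
structure Dir (J : Prob k F Pt ι Ω) : Prop where
  surj : Surjective J.vt
  rk : ∃ rk, Rk J rk
  div : ∀ i, Div J i

/-- Endomorphisms of the radical of the projective object at `a`. -/
def EndR (J : Prob k F Pt ι Ω) (a : ι) (g : Matrix Pt Pt F) : Prop :=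
  J.In a a g ∧ (∀ q p, g q p ≠ 0 → J.pk q = J.pk p) ∧ ∀ j, j ≠ a → ∀ b ∈ J.H a j, b * g ∈ J.B

/-- The separation condition. -/
def Sep (J : Prob k F Pt ι Ω) : Prop := ∀ a, ∃ (L : Type) (l : Ω → L),
  (∀ p q, J.vt p = J.vt q → ¬ Relation.ReflTransGen J.Succ (J.vt p) a → l (J.pk p) = l (J.pk q)) ∧
  ∀ g g', EndR J a g → EndR J a g' → g * g = g → g' * g' = g' → g ≠ 0 → g' ≠ 0 →
    (∃ c, ∀ q p, g q p ≠ 0 ∨ g' q p ≠ 0 → l (J.pk p) = c) → ∃ h, EndR J a h ∧ g * h * g' ≠ 0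

/-- Side functions of a grading. -/
def Sides {G : Type} [Group G] (vt : Pt → ι) (arr : Pt → Pt → Prop)
    (tie : Pt × Pt → Pt × Pt → Prop) (deg : Pt → G) (val : Set ι) : Prop :=
  ∀ a, ∃ (L : Type) (side : G → L),
    (∀ b g, ¬ Relation.ReflTransGen (LS vt arr deg) (b, g) (a, 1) → ∀ p q, vt p = b → vt q = b →
      side (g * deg p) = side (g * deg q)) ∧
    (a ∉ val → ∀ p q, vt p = a → vt q = a → side (deg p) = side (deg q) →
      Relation.EqvGen (Link tie) p q)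

/-- The indecomposable object has only scalar endomorphisms and is generated at a root. -/
def Nice [Fintype ι] [Fintype Ω] {J : Prob k F Pt ι Ω} {V : Type} [AddCommGroup V] [Module F V]
    (N : Obj J V) : Prop :=
  (∀ g, Obj.IsHom N N g → ∃ c : F, g = c • LinearMap.id) ∧ ∃ d : ι → ℕ, N.Gen {i | d i ≠ 0} ∧
    J.Root d fun o => finrank F (LinearMap.range (N.ε o))

/-- Every indecomposable object is pushed down from a nice object of a thin directed cover. -/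
def DG [Fintype Ω] (P : Prob k F Pt ι Ω) (L : ℕ) : Prop :=
  ∀ (V : Type) [AddCommGroup V] [Module F V] [FiniteDimensional F V] (M : Obj P V), M.Indec →
    ∃ (T I O : Type) (_ : Fintype T) (_ : DecidableEq T) (_ : Fintype I) (_ : Fintype O)
      (J : Prob k F T I O) (π : T → Pt) (ρ : O → Ω) (N : Obj J V),
      Cover J P π ∧ ThinDir J L ∧ J.WP ∧ Push π ρ N M ∧ Nice N

/-- A problem `J` with simple vertices `val` and its enlargement `Jf` by full blocks. -/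
structure Val (J Jf : Prob k F Pt ι Ω) (val : Set ι) : Prop where
  vt : Jf.vt = J.vt
  pk : Jf.pk = J.pk
  le : J.B ≤ Jf.B
  same : ∀ i j, ¬ (i ∈ val ∧ j ∈ val) → ∀ b ∈ Jf.H i j, b ∈ J.B
  fat : ∀ z ∈ val, ∀ c, J.In z z c → c ∈ Jf.B
  succ : ∀ i ∈ val, ∀ j ∈ val, Jf.Succ i j → J.Succ i j
  div : ∀ z ∈ val, Div J z
  row : ∀ z ∈ val, RowSimple J z

open Classical in
/-- The Gram matrix of the Tits form of a linear problem. -/
noncomputable def gram (J : Prob k F Pt ι Ω) : ι ⊕ Ω → ι ⊕ Ω → ℤ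
  | .inl i, .inl j => if i = j then 2 else
      ((finrank k (J.H i j) / finrank k F + finrank k (J.H j i) / finrank k F : ℕ) : ℤ)
  | .inl i, .inr o => if ∃ p, J.vt p = i ∧ J.pk p = o then -1 else 0
  | .inr o, .inl i => if ∃ p, J.vt p = i ∧ J.pk p = o then -1 else 0
  | .inr o, .inr o' => if o = o' then 2 else 0

end prob

section form
variable {ι Ω : Type} [Fintype ι] [Fintype Ω]

/-- The bilinear form of a Gram matrix. -/
def bil {I : Type} [Fintype I] (G : I → I → ℤ) (x y : I → ℤ) : ℤ := ∑ a, ∑ b, x a * G a b * y b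

/-- The pairing with a basis vector. -/
def gr {I : Type} [Fintype I] (G : I → I → ℤ) (x : I → ℤ) (b : I) : ℤ := ∑ a, x a * G a b

/-- Weakly positive unit forms with vertices and peaks. -/
structure UForm (G : ι ⊕ Ω → ι ⊕ Ω → ℤ) : Prop where
  symm : ∀ a b, G a b = G b a
  diag : ∀ a, G a a = 2
  pp : ∀ o o', o ≠ o' → G (.inr o) (.inr o') = 0
  vp : ∀ i o, G (.inl i) (.inr o) = 0 ∨ G (.inl i) (.inr o) = -1
  vv : ∀ i j, 0 ≤ G (.inl i) (.inl j)
  share : ∀ i j, i ≠ j → G (.inl i) (.inl j) ≠ 0 →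
    ∃ o, G (.inl i) (.inr o) = -1 ∧ G (.inl j) (.inr o) = -1
  wp : ∀ x : ι ⊕ Ω → ℤ, 0 ≤ x → x ≠ 0 → 0 < bil G x x

/-- Two peaks are joined by at most `c` vertices. -/
def GNear (G : ι ⊕ Ω → ι ⊕ Ω → ℤ) (c : ℕ) (o o' : Ω) : Prop :=
  ∃ f : ℕ → Ω, f 0 = o ∧ f c = o' ∧ ∀ n < c, f n = f (n + 1) ∨
    ∃ i, G (.inl i) (.inr (f n)) = -1 ∧ G (.inl i) (.inr (f (n + 1))) = -1

/-- There is no path of length `L`. -/
def GNoPath (G : ι ⊕ Ω → ι ⊕ Ω → ℤ) (L : ℕ) : Prop :=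
  ∀ (Y : ℕ → ι) (o : ℕ → Ω), ¬ ∀ m < L, G (.inl (Y m)) (.inr (o m)) = -1 ∧
    G (.inl (Y m)) (.inr (o (m + 1))) = -1 ∧ o m ≠ o (m + 1) ∧
    G (.inl (Y m)) (.inl (Y (m + 1))) = 0 ∧ G (.inl (Y (m + 1))) (.inr (o (m + 1))) = -1

/-- The vertices in `val` lie on exactly one peak. -/
def Mon (G : ι ⊕ Ω → ι ⊕ Ω → ℤ) (val : Set ι) : Prop := ∀ z ∈ val, ∃! o, G (.inl z) (.inr o) = -1

/-- The first inequality for valued vertices. -/
def V1 (G : ι ⊕ Ω → ι ⊕ Ω → ℤ) (val : Set ι) : Prop :=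
  ∀ z ∈ val, ∀ y : ι ⊕ Ω → ℤ, 0 ≤ y → (∀ j ∈ val, y (.inl j) = 0) → gr G y (.inl z) < 0 →
    gr G y (.inl z) ^ 2 < bil G y y

/-- The second inequality for valued vertices. -/
def V2 (G : ι ⊕ Ω → ι ⊕ Ω → ℤ) (val : Set ι) : Prop :=
  ∀ z ∈ val, ∀ z' ∈ val, (∀ o, ¬ (G (.inl z) (.inr o) = -1 ∧ G (.inl z') (.inr o) = -1)) →
    ∀ y : ι ⊕ Ω → ℤ, 0 ≤ y → (∀ j ∈ val, y (.inl j) = 0) → bil G y y = 2 →
      ¬ (gr G y (.inl z) = -1 ∧ gr G y (.inl z') = -1)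

/-- The vector with the given coordinates. -/
def vec (d : ι → ℕ) (v : Ω → ℕ) : ι ⊕ Ω → ℤ := Sum.elim (fun i => (d i : ℤ)) fun o => (v o : ℤ)

end form

section alg

/-- Every bimodule of finite length over the Hahn series has connections. -/
def ConnA (C0 A : Type) [CommRing C0] [Ring A] [Algebra C0 A] : Prop :=
  ∀ (N : Type) [AddCommGroup N] [Module A N] [Module (H83.K C0) N] [SMulCommClass A (H83.K C0) N]
    [Module C0 N] [IsScalarTower C0 (H83.K C0) N] [IsScalarTower C0 A N],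
    length (H83.K C0) N ≠ ⊤ → ∀ i : ℕ, ∃ D : N →ₗ[A] N,
      ∀ (c : H83.K C0) x, D (c • x) = H83.H.thK i c • x + c • D x

/-- Finitely many finitely generated indecomposable modules with the property `p`. -/
def FinMany (A : Type) [Ring A] (p : ∀ (M : Type) [AddCommGroup M] [Module A M], Prop) : Prop :=
  ∃ (n : ℕ) (X : Fin n → Type) (_ : ∀ i, AddCommGroup (X i)) (_ : ∀ i, Module A (X i)),
    (∀ i, Module.Finite A (X i) ∧ H83.Indec A (X i) ∧ p (X i)) ∧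
    ∀ (M : Type) [AddCommGroup M] [Module A M], Module.Finite A M → H83.Indec A M → p M →
      ∃ i, Nonempty (M ≃ₗ[A] X i)

/-- Finitely many indecomposable modules of each bounded length. -/
def BF (A : Type) [Ring A] : Prop := ∀ c : ℕ, FinMany A fun M _ _ => length A M ≤ c

/-- Indecomposable modules have bounded length. -/
def BddA (A : Type) [Ring A] : Prop := ∃ c : ℕ, ∀ (M : Type) [AddCommGroup M] [Module A M],
  Module.Finite A M → H83.Indec A M → length A M ≤ c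

/-- Finitely many indecomposable modules are killed by any given nonzero two-sided ideal. -/
def FinI (A : Type) [Ring A] : Prop := ∀ (I : Ideal A) [I.IsTwoSided], I ≠ ⊥ →
  FinMany A fun M _ _ => ∀ a ∈ I, ∀ x : M, a • x = 0

/-- Complete orthogonal idempotents with local purely inseparable corners. -/
structure PIA (C A : Type) [CommRing C] [IsLocalRing C] [Ring A] [Algebra C A] {n : ℕ}
    (e : Fin n → A) : Prop where
  idem : CompleteOrthogonalIdempotents e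
  ne : ∀ i, e i ≠ 0
  pi : ∀ i b, ∃ (r : ℕ) (c : C), IsNilpotent
    ((e i * b * e i) ^ (ringExpChar (IsLocalRing.ResidueField C) ^ r) - c • e i)
  comm : ∀ i b b', IsNilpotent
    (e i * b * e i * (e i * b' * e i) - e i * b' * e i * (e i * b * e i))

/-- A socle element that identifies two residue fields. -/
def Alpha {A : Type} [Ring A] {n : ℕ} (e : Fin n → A) : Prop :=
  ∃ s l a, a ≠ 0 ∧ e s * a * e l = a ∧ (∀ r ∈ Ring.jacobson A, r * a = 0) ∧
    (∀ b, ∃ b', e s * b * e s * a = a * (e l * b' * e l)) ∧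
    ∀ b', ∃ b, e s * b * e s * a = a * (e l * b' * e l)

/-- A socle element at a vertex without loops. -/
def Beta {A : Type} [Ring A] {n : ℕ} (e : Fin n → A) : Prop :=
  ∃ s a, a ≠ 0 ∧ e s * a = a ∧ (∀ r ∈ Ring.jacobson A, r * a = 0) ∧
    ∀ r ∈ Ring.jacobson A, e s * r * e s ∈ Ring.jacobson A * Ring.jacobson A

end alg

end Pool.Agent.MP_bd94e8_al.H89
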