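import Pool.Agent.MP_bd94e8_al.H89.All
import Pool.Agent.MP_bd94e8_al.H89.Star
import Pool.Agent.MP_bd94e8_al.H89.Last
import Pool.Agent.MP_bd94e8_al.H22N.Rig
import Pool.Agent.MP_bd94e8_al.H6K.KSep
import Pool.Agent.MP_bd94e8_al.H83A.All

/-!
Assembly of the steps.
-/

set_option autoImplicit false

namespace Pool.Agent.MP_bd94e8_al.H89

theorem raw0 : SRaw := rawAll (H6K.star_of H6K.ksep) Rig2A.rig2

theorem fin0 : SAll := H83A.allA raw0

end Pool.Agent.MP_bd94e8_al.H89
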