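import Pool.Agent.MP_bd94e8_al.H83A.SpecA

/-!
Refinement of idempotents.
-/

set_option autoImplicit false

namespace Pool.Agent.MP_bd94e8_al.H83A

open Module Function

theorem ref2 : SRef := by
  intro C A _ _ _ n e he hne
  have idem := he.idem
  have orth : ∀ i j, i ≠ j → e i * e j = 0 := fun i j h => he.ortho h
  refine ⟨?_, fun i f hf hfe hf0 hfi => ?_⟩
  · let φ : A →ₗ[C] (∀ i, LinearMap.range (LinearMap.mulRight C (e i))) :=
      LinearMap.pi fun i => (LinearMap.mulRight C (e i)).rangeRestrict
    have hφ : Surjective φ := fun x => by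
      choose y hy using fun i => (x i).2
      refine ⟨∑ i, y i * e i, funext fun j => Subtype.ext ?_⟩
      change (∑ i, y i * e i) * e j = _
      rw [Finset.sum_mul, Finset.sum_eq_single j
        (fun i _ h => by rw [mul_assoc, orth i j h, mul_zero]) (by simp), mul_assoc, (idem j).eq]
      exact hy j
    refine le_trans ?_ (length_le_of_surjective φ hφ)
    rw [length_pi_of_fintype]
    calc (n : ℕ∞) = ∑ _i : Fin n, 1 := by simp
      _ ≤ _ := Finset.sum_le_sum fun i _ => by
        have : Nontrivial (LinearMap.range (LinearMap.mulRight C (e i))) :=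
          ⟨⟨e i, 1, by simp⟩, 0, fun h => hne i (congrArg Subtype.val h)⟩
        exact Order.one_le_iff_pos.2 length_pos
  · have h1 : e i * f = f := by rw [← hfe, ← mul_assoc, ← mul_assoc, (idem i).eq]
    have h2 : f * e i = f := by rw [← hfe, mul_assoc, (idem i).eq]
    have h3 : ∀ j, j ≠ i → f * e j = 0 := fun j h => by
      rw [← h2, mul_assoc, orth i j h.symm, mul_zero]
    have h4 : ∀ j, j ≠ i → e j * f = 0 := fun j h => by
      rw [← h1, ← mul_assoc, orth j i h, zero_mul]
    have u1 : ∀ j, f * update e i (e i - f) j = 0 := fun j => by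
      by_cases h : j = i
      · rw [h, update_self, mul_sub, h2, hf.eq, sub_self]
      · rw [update_of_ne h, h3 j h]
    have u2 : ∀ j, update e i (e i - f) j * f = 0 := fun j => by
      by_cases h : j = i
      · rw [h, update_self, sub_mul, h1, hf.eq, sub_self]
      · rw [update_of_ne h, h4 j h]
    refine ⟨Fin.cons f (update e i (e i - f)), ⟨⟨fun j => ?_, fun j l h => ?_⟩, ?_⟩, fun j => ?_⟩
    · refine Fin.cases hf (fun j => ?_) j
      rw [Fin.cons_succ]
      by_cases h : j = i
      · rw [h, update_self, IsIdempotentElem, mul_sub, sub_mul, sub_mul, (idem i).eq, h1, h2, hf.eq,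
          sub_self, sub_zero]
      · rw [update_of_ne h]; exact idem j
    · revert h
      refine Fin.cases ?_ (fun j => ?_) j <;> refine Fin.cases ?_ (fun l => ?_) l <;> intro h
      · exact (h rfl).elim
      · exact u1 l
      · exact u2 j
      · have h' : j ≠ l := fun e => h (by rw [e])
        rw [Fin.cons_succ, Fin.cons_succ]
        by_cases hj : j = i
        · subst hj
          rw [update_self, update_of_ne h'.symm, sub_mul, orth j l h', h3 l h'.symm, sub_self]
        · rw [update_of_ne hj]
          by_cases hl : l = i
          · subst hl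
            rw [update_self, mul_sub, orth j l h', h4 j hj, sub_self]
          · rw [update_of_ne hl, orth j l h']
    · rw [Fin.sum_cons, Finset.sum_update_of_mem (Finset.mem_univ i), ← add_assoc, add_sub_cancel,
        ← he.complete, Finset.sum_eq_add_sum_sdiff_singleton_of_mem (Finset.mem_univ i)]
    · refine Fin.cases hf0 (fun j => ?_) j
      rw [Fin.cons_succ]
      by_cases h : j = i
      · rw [h, update_self]; exact sub_ne_zero.2 hfi.symm
      · rw [update_of_ne h]; exact hne j

end Pool.Agent.MP_bd94e8_al.H83A
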