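import Pool.Agent.MP_bd94e8_al.H89.Defs2

/-!
Statements of the steps of the proof.
-/

set_option autoImplicit false
set_option linter.unusedVariables false

namespace Pool.Agent.MP_bd94e8_al.H89

open Module Function

/-! ### Basic tools -/

/-- Primitive idempotents in a ring of endomorphisms. -/
def SKS1 : Prop := ∀ (F V : Type) [Field F] [AddCommGroup V] [Module F V] [FiniteDimensional F V]
  (R : Subring (End F V)), ∃ (n : ℕ) (e : Fin n → End F V), (∀ s, e s ∈ R) ∧ (∀ s, e s ≠ 0) ∧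
    (∀ s, e s * e s = e s) ∧ (∀ s t, s ≠ t → e s * e t = 0) ∧ ∑ s, e s = 1 ∧
    ∀ s, ∀ x ∈ R, x * x = x → e s * x = x → x * e s = x → x = 0 ∨ x = e s

/-- A ring of endomorphisms without idempotents is local. -/
def SKS2 : Prop := ∀ (k F V : Type) [Field k] [Field F] [Algebra k F] [FiniteDimensional k F]
  [AddCommGroup V] [Module F V] [FiniteDimensional F V] (R : Subring (End F V)),
  (∀ c : k, algebraMap k F c • (1 : End F V) ∈ R) → (∀ x ∈ R, x * x = x → x = 0 ∨ x = 1) →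
    (∀ x ∈ R, IsNilpotent x ∨ ∃ y ∈ R, y * x = 1 ∧ x * y = 1) ∧
    (∀ x ∈ R, ∀ y ∈ R, IsNilpotent x → IsNilpotent y → IsNilpotent (x + y)) ∧
    (∀ x ∈ R, ∀ y ∈ R, IsNilpotent x → IsNilpotent (x * y) ∧ IsNilpotent (y * x)) ∧
    ∃ r : ℕ, ∀ l : List (End F V), (∀ x ∈ l, x ∈ R ∧ IsNilpotent x) → r ≤ l.length → l.prod = 0

/-- Decomposition of objects. -/
def SDec : Prop := ∀ (k F : Type) [Field k] [Field F] [Algebra k F] (Pt ι Ω : Type) [Fintype Pt]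
  [DecidableEq Pt] [Fintype Ω] (P : Prob k F Pt ι Ω) (V : Type) [AddCommGroup V] [Module F V]
  [FiniteDimensional F V] (M : Obj P V), ∃ (n : ℕ) (e : Fin n → V →ₗ[F] V)
    (h : ∀ s, M.IsHom M (e s)), (∀ s, e s ∘ₗ e s = e s) ∧ (∀ s t, s ≠ t → e s ∘ₗ e t = 0) ∧
    ∑ s, e s = LinearMap.id ∧ ∀ s, (M.smd (e s) (h s)).Indec

/-- Transitivity of tests. -/
def SHT : Prop := ∀ (k F : Type) [Field k] [Field F] [Algebra k F] (Pt Pt' : Type) [Fintype Pt]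
  [DecidableEq Pt] [Fintype Pt'] [DecidableEq Pt'] (B : Subalgebra k (Matrix Pt Pt F))
  (B' : Subalgebra k (Matrix Pt' Pt' F)) (α : Matrix Pt Pt' F) (γ : Matrix Pt' Pt F),
  γ * α = 1 → (∀ b ∈ B, γ * b * α ∈ B') → Hyp B → Hyp B'

/-- Conjugation. -/
def SConj : Prop := ∀ (k F : Type) [Field k] [Field F] [Algebra k F] (Pt ι : Type) [Fintype Pt]
  [DecidableEq Pt] (P : Prob k F Pt ι Unit),
  (∀ g g' : Matrix Pt Pt F, g * g' = 1 → g' * g = 1 → (∀ q p, g q p ≠ 0 → P.vt q = P.vt p) →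
    (∀ q p, g' q p ≠ 0 → P.vt q = P.vt p) → ∃ P', IsConj P P' g g') ∧
  ∀ (P' : Prob k F Pt ι Unit) (g g' : Matrix Pt Pt F), IsConj P P' g g' →
    (P'.Bnd → P.Bnd) ∧ (PILoc P → PILoc P') ∧
    ∀ val ht, (∀ q p, g q p ≠ 0 → P.vt p ∉ val → ht p ≤ ht q) →
      (∀ q p, g' q p ≠ 0 → P.vt p ∉ val → ht p ≤ ht q) → Flag P val ht → Flag P' val ht

/-- Morita equivalence. -/
def SMor : Prop := ∀ (k F : Type) [Field k] [Field F] [Algebra k F] (Pt ι Ω : Type) [Fintype Pt]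
  [DecidableEq Pt] [Fintype Ω] (P : Prob k F Pt ι Ω) (S : Pt → Prop) [DecidablePred S],
  MorOk P S → SubOk P S ∧ ∀ (h : SubOk P S) (V : Type) [AddCommGroup V] [Module F V] (M : Obj P V),
    ∃ M' : Obj (P.sub S h) V, M'.ε = M.ε ∧ (∀ g, M.IsHom M g ↔ M'.IsHom M' g) ∧
      ∀ T, M'.Gen T → M.Gen T

/-! ### Algebra level -/

/-- The main theorem for raw problems. -/
def SRaw : Prop := ∀ (C0 k F : Type) [CommRing C0] [IsArtinianRing C0] [Field k] [Field F]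
  [Algebra C0 k] [Algebra k F] [Algebra C0 F] [IsScalarTower C0 k F] [Module.Finite C0 F]
  [IsPurelyInseparable k F] (Pt : Type) [Fintype Pt] [DecidableEq Pt]
  (B : Subalgebra k (Matrix Pt Pt F)), Conn C0 (B : Set (Matrix Pt Pt F)) → (Prob.triv B).Bnd

/-- The trichotomy. -/
def STri : Prop := ∀ (C0 C A : Type) [CommRing C0] [IsArtinianRing C0] [CommRing C]
  [IsArtinianRing C] [IsLocalRing C] [Ring A] [Algebra C0 C] [Algebra C A] [Algebra C0 A]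
  [IsScalarTower C0 C A] [Module.Finite C0 C] [Module.Finite C A] [Nontrivial A] (n : ℕ)
  (e : Fin n → A), PIA C A e → ConnA C0 A → Alpha e ∨ Beta e

/-- The reduction to a subspace problem. -/
def SZero : Prop := ∀ (C0 C A : Type) [CommRing C0] [IsArtinianRing C0] [CommRing C]
  [IsArtinianRing C] [IsLocalRing C] [Ring A] [Algebra C0 C] [Algebra C A] [Algebra C0 A]
  [IsScalarTower C0 C A] [Module.Finite C0 C] [Module.Finite C A] (n : ℕ) (e : Fin n → A),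
  PIA C A e → ConnA C0 A → FinI A → (Alpha e ∨ Beta e) → SRaw → BddA A

/-- The etale step. -/
def SEt : Prop := ∀ (C0 C A : Type) [CommRing C0] [IsArtinianRing C0] [CommRing C]
  [IsArtinianRing C] [IsLocalRing C] [Ring A] [Algebra C0 C] [Algebra C A] [Algebra C0 A]
  [IsScalarTower C0 C A] [Module.Finite C0 C] [Module.Finite C A] (n : ℕ) (e : Fin n → A),
  CompleteOrthogonalIdempotents e → (∀ i, e i ≠ 0) → ¬ PIA C A e →
  ∃ (C' A' : Type) (_ : CommRing C') (_ : IsArtinianRing C') (_ : IsLocalRing C') (_ : Ring A')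
    (_ : Algebra C0 C') (_ : Algebra C' A') (_ : Algebra C0 A') (_ : IsScalarTower C0 C' A')
    (_ : Module.Finite C0 C') (_ : Module.Finite C' A') (e' : Fin (n + 1) → A'),
    CompleteOrthogonalIdempotents e' ∧ (∀ i, e' i ≠ 0) ∧ length C' A' ≤ length C A ∧
    (ConnA C0 A → ConnA C0 A') ∧ (BF A → BF A') ∧ (BddA A' → BddA A)

/-- The theorem. -/
def SAll : Prop := ∀ (R : Type) [CommRing R] [IsArtinianRing R] (A : Type) [Ring A] [Algebra R A]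
  [Module.Finite R A], ¬ H83.HasGeneric A → FinMany A fun _ _ _ => True

/-! ### Raw problems -/

/-- Connections give positive tests. -/
def SRig : Prop := ∀ (C0 k F : Type) [CommRing C0] [IsArtinianRing C0] [Field k] [Field F]
  [Algebra C0 k] [Algebra k F] [Algebra C0 F] [IsScalarTower C0 k F] [Module.Finite C0 F]
  (Pt : Type) [Fintype Pt] [DecidableEq Pt] (B : Subalgebra k (Matrix Pt Pt F)),
  Conn C0 (B : Set (Matrix Pt Pt F)) → Hyp B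

/-- The main theorem for basic problems. -/
def SMain : Prop := ∀ (k F : Type) [Field k] [Field F] [Algebra k F] [FiniteDimensional k F]
  [IsPurelyInseparable k F] (Pt ι : Type) [Fintype Pt] [DecidableEq Pt] [Fintype ι]
  (P : Prob k F Pt ι Unit), PILoc P → Hyp P.B → P.Bnd

/-- The main theorem for problems with local vertices. -/
def SMain' : Prop := ∀ (k F : Type) [Field k] [Field F] [Algebra k F] [FiniteDimensional k F]
  [IsPurelyInseparable k F] (Pt ι : Type) [Fintype Pt] [DecidableEq Pt] [Fintype ι]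
  (P : Prob k F Pt ι Unit),
  (∀ i, ∀ b ∈ P.H i i, ∃ (r : ℕ) (c : k), IsNilpotent (b ^ (ringExpChar k ^ r) - c • P.e i)) →
  (∀ i, ∀ b ∈ P.H i i, ∀ b' ∈ P.H i i, IsNilpotent (b * b' - b' * b)) → Hyp P.B → P.Bnd

/-! ### Local structure -/

/-- Flags. -/
def SLoc : Prop := ∀ (k F : Type) [Field k] [Field F] [Algebra k F] [FiniteDimensional k F]
  [IsPurelyInseparable k F] (Pt ι : Type) [Fintype Pt] [DecidableEq Pt] [Fintype ι]
  (P : Prob k F Pt ι Unit), PILoc P → Hyp P.B →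
  ∃ (P' : Prob k F Pt ι Unit) (g g' : Matrix Pt Pt F) (val : Set ι) (ht : Pt → ℕ),
    IsConj P P' g g' ∧ Flag P' val ht

/-- No long walks. -/
def SPath : Prop := ∀ (k F : Type) [Field k] [Field F] [Algebra k F] [FiniteDimensional k F]
  (Pt ι : Type) [Fintype Pt] [DecidableEq Pt] (P : Prob k F Pt ι Unit) (ht : Pt → ℕ),
  Flag P ∅ ht → Hyp P.B → NoPath P.vt P.Inc (Fintype.card Pt ^ 2 + 1)

/-- No walks between vertices with three points, no triple ties. -/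
def STT : Prop := ∀ (k F : Type) [Field k] [Field F] [Algebra k F] [FiniteDimensional k F]
  (Pt ι : Type) [Fintype Pt] [DecidableEq Pt] (P : Prob k F Pt ι Unit) (val : Set ι) (ht : Pt → ℕ),
  Flag P val ht → Hyp P.B → NoTT P.vt P.Inc val ∧ No3 P val

/-- Arrows between points outside `val` form a strict order. -/
def SOrd : Prop := ∀ (k F : Type) [Field k] [Field F] [Algebra k F] [FiniteDimensional k F]
  (Pt ι : Type) [Fintype Pt] [DecidableEq Pt] (P : Prob k F Pt ι Unit) (val : Set ι) (ht : Pt → ℕ),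
  Flag P val ht → (∀ p q, P.vt p = P.vt q → P.vt p ∉ val → (P.Ar p q ↔ ht p < ht q)) ∧
    ∀ p q r, P.vt p ∉ val → P.vt q ∉ val → P.vt r ∉ val → P.Ar p q → P.Ar q r → P.Ar p r

/-- Linearity and fullness of the blocks. -/
def SGood : Prop := ∀ (k F : Type) [Field k] [Field F] [Algebra k F] [FiniteDimensional k F]
  (Pt ι : Type) [Fintype Pt] [DecidableEq Pt] (P : Prob k F Pt ι Unit) (val : Set ι) (ht : Pt → ℕ),
  Flag P val ht → NoTT P.vt P.Inc val → No3 P val → Good P val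

/-- The untwisted problem. -/
def SUntw : Prop := ∀ (k F : Type) [Field k] [Field F] [Algebra k F] [FiniteDimensional k F]
  (Pt ι : Type) [Fintype Pt] [DecidableEq Pt] [Fintype ι] (Q : Prob k F Pt ι Unit) (ht : Pt → ℕ),
  Flag Q ∅ ht → Good Q ∅ → Tws Q ∧ (∃ Qu, IsUntw Q Qu) ∧
    (∀ (c : F), ∀ b ∈ Q.R0, c • b ∈ Q.R0) ∧
    (∀ b ∈ Q.R0, ∀ b' ∈ Q.B, b * b' ∈ Q.R0 ∧ b' * b ∈ Q.R0) ∧ (∀ p q, Q.Ar p q ↔ Arr Q.R0 p q) ∧
    ∀ Qu, IsUntw Q Qu → Qu.R0 = Q.R0 ∧ Qu.Ar = Q.Ar ∧ Flag Qu ∅ ht ∧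
      (∀ (c : F), ∀ b ∈ Qu.B, c • b ∈ Qu.B) ∧ ((∀ i, ∀ c : F, c • Q.e i ∈ Q.B) → Qu.B = Q.B)

/-- The enlargements exist. -/
def SEnl1 : Prop := ∀ (k F : Type) [Field k] [Field F] [Algebra k F] [FiniteDimensional k F]
  (Pt ι : Type) [Fintype Pt] [DecidableEq Pt] [Fintype ι] (P : Prob k F Pt ι Unit) (val : Set ι)
  (ht : Pt → ℕ), Flag P val ht → Good P val →
  (∃ P', IsPlus P val P') ∧ (∃ P', IsDv P val P') ∧ (∃ P', IsFat P val P') ∧
    ∀ Pf, IsFat P val Pf → P.B ≤ Pf.B ∧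
      ∀ i j, i ≠ j → ¬ (i ∈ val ∧ j ∈ val) → ∀ b ∈ P.H i j, ∀ c ∈ Pf.B, b * c ∈ P.B

/-- Properties of the enlargements. -/
def SEnl2 : Prop := ∀ (k F : Type) [Field k] [Field F] [Algebra k F] [FiniteDimensional k F]
  (Pt ι : Type) [Fintype Pt] [DecidableEq Pt] [Fintype ι] (P : Prob k F Pt ι Unit) (val : Set ι)
  (ht : Pt → ℕ) (S : Pt → Prop) [DecidablePred S], Flag P val ht → Good P val → IsRep P.vt val S →
  (∀ Pd, IsDv P val Pd → P.B ≤ Pd.B ∧ MorOk Pd S ∧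
    ∀ h : SubOk Pd S, Flag (Pd.sub S h) ∅ fun p => ht p.1) ∧
  ∀ Pf, IsFat P val Pf → MorOk Pf S ∧
    (∀ h : SubOk Pf S, Flag (Pf.sub S h) ∅ (fun p => ht p.1) ∧
      ∀ i (c : F), c • (Pf.sub S h).e i ∈ (Pf.sub S h).B) ∧
    ∀ Pp, IsPlus P val Pp → P.B ≤ Pp.B ∧ Flag Pp val ht ∧ Val Pp Pf val

/-! ### Thin structure -/

/-- The combinatorics of a thin space. -/
def SComb : Prop := ∀ (F Pt ι : Type) [Field F] [Fintype Pt] [DecidableEq Pt] (vt : Pt → ι)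
  (R : Set (Matrix Pt Pt F)), Thin vt R → (∀ i, Le3 vt i) → Comb vt (Arr R) (Tie vt R)

/-- The walk lemma. -/
def SPosW : Prop := ∀ (Pt ι : Type) [Fintype Pt] (vt : Pt → ι) (arr : Pt → Pt → Prop)
  (tie : Pt × Pt → Pt × Pt → Prop) (L : ℕ), Comb vt arr tie →
  (∀ p q, vt p = vt q → p ≠ q → arr p q ∨ arr q p) → NoPath vt (AInc arr) L →
  NoTT vt (AInc arr) ∅ → ∀ Fw Bw : Set (Pt × Pt), (∀ a ∈ Fw ∪ Bw, arr a.1 a.2) → Disjoint Fw Bw →
  Bw.Nonempty → (∀ b ∈ Bw, ∃ a ∈ Fw, tie a b) →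
  (∀ U : Set Pt, (∀ p q, p ∈ U → arr p q → q ∈ U) → ∀ a ∈ Fw, a.1 ∉ U → a.2 ∈ U →
    ∃ b ∈ Bw, b.1 ∉ U ∧ b.2 ∈ U) →
  (∀ c ∈ Fw ∪ Bw, ¬ Cov arr c →
    ∃ u v, Cov arr u ∧ ¬ Cov arr v ∧ tie c u ∧ tie c v ∧ v ∉ Fw ∧ v ∉ Bw) → False

/-- Positive real weights. -/
def SPos : Prop := ∀ (Pt ι : Type) [Fintype Pt] (vt : Pt → ι) (arr : Pt → Pt → Prop)
  (tie : Pt × Pt → Pt × Pt → Prop) (L : ℕ), Comb vt arr tie →
  (∀ p q, vt p = vt q → p ≠ q → arr p q ∨ arr q p) → NoPath vt (AInc arr) L →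
  NoTT vt (AInc arr) ∅ →
  ∃ w : Pt → ℝ, (∀ p q, arr p q → w p < w q) ∧ ∀ a b, tie a b → w a.2 - w a.1 = w b.2 - w b.1

/-- The cocycle lemma. -/
def SCoc : Prop := ∀ (Pt ι Ω : Type) (vt : Pt → ι) (pk : Pt → Ω) (arr : Pt → Pt → Prop)
  (tie : Pt × Pt → Pt × Pt → Prop) (L : ℕ), Comb vt arr tie → (∀ p q, arr p q → pk p = pk q) →
  (∀ p q, vt p = vt q → pk p = pk q → p = q) →
  NoPath vt (fun p q => pk p = pk q ∧ AInc arr p q) L →
  ∀ (a : ι) (G : Type) [Group G] (val : Pt × Pt → Pt × Pt → G),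
  (∀ x y, tie x y → vt x.1 = a → val y x = (val x y)⁻¹) →
  (∀ p q r p' q' r', vt p = a → tie (p, q) (p', q') → tie (q, r) (q', r') → tie (p, r) (p', r') →
    val (p, q) (p', q') = val (p, r) (p', r')) →
  (∀ x y z, vt x.1 = a → tie x y → tie y z → tie x z → val x y * val y z = val x z) →
  ∃ g : Pt → G, ∀ x y, tie x y → vt x.1 = a → val x y = (g x.1)⁻¹ * g y.1

/-- The free grading. -/
def SFree : Prop := ∀ (Pt ι Ω : Type) [Fintype Pt] [DecidableEq Pt] (vt : Pt → ι) (pk : Pt → Ω)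
  (arr : Pt → Pt → Prop) (tie : Pt × Pt → Pt × Pt → Prop) (L : ℕ) (rk : ι → ℕ), Comb vt arr tie →
  (∀ p q, arr p q → pk p = pk q) → (∀ p q, vt p = vt q → pk p = pk q → p = q) →
  NoPath vt (fun p q => pk p = pk q ∧ AInc arr p q) L → (∀ p q, arr p q → rk (vt q) < rk (vt p)) →
  ∃ deg : Pt → FreeGroup Pt, (∀ x y, tie x y → deg x.1 * (deg x.2)⁻¹ = deg y.1 * (deg y.2)⁻¹) ∧
    Sides vt arr tie deg ∅

/-- Normalisation of the coefficients. -/
def SNorm : Prop := ∀ (k F : Type) [Field k] [Field F] [Algebra k F] (Pt ι Ω : Type) [Fintype Pt]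
  [DecidableEq Pt] (J : Prob k F Pt ι Ω) (L : ℕ), ThinDir J L →
  ∃ ρ : Pt → F, (∀ p, ρ p ≠ 0) ∧ ∀ a b, Tie J.vt J.R0 a b → ∀ h ∈ J.R0, Sup2 h a b →
    (ρ a.2)⁻¹ * h a.2 a.1 * ρ a.1 = (ρ b.2)⁻¹ * h b.2 b.1 * ρ b.1 ∨
    (ρ a.2)⁻¹ * h a.2 a.1 * ρ a.1 = -((ρ b.2)⁻¹ * h b.2 b.1 * ρ b.1)

/-- Gradings of thin problems, and thinness of covers. -/
def SGr : Prop := ∀ (k F : Type) [Field k] [Field F] [Algebra k F] (Pt ι Ω : Type) [Fintype Pt]
  [DecidableEq Pt] (P : Prob k F Pt ι Ω) (L : ℕ), ThinBase P L →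
  (∀ (G : Type) [Group G] (deg : Pt → G),
    (∀ x y, Tie P.vt P.R0 x y → deg x.1 * (deg x.2)⁻¹ = deg y.1 * (deg y.2)⁻¹) → Graded P deg) ∧
  (∀ p q, P.Ar p q ↔ Arr P.R0 p q) ∧
  ∀ (T I O : Type) [Fintype T] [DecidableEq T] (J : Prob k F T I O) (π : T → Pt), Cover J P π →
    (∀ t t', J.vt t = J.vt t' → J.pk t = J.pk t' → t = t') → ThinBase J L ∧
    (∀ t t', J.pk t = J.pk t' → (J.Ar t t' ↔ P.Ar (π t) (π t'))) ∧
    ∀ a b, Tie J.vt J.R0 a b → Tie P.vt P.R0 (π a.1, π a.2) (π b.1, π b.2)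

/-! ### Knitting -/

/-- Directed problems with separation and weakly positive form. -/
def SStar : Prop := ∀ (k F : Type) [Field k] [Field F] [Algebra k F] [FiniteDimensional k F]
  (Pt ι Ω : Type) [Fintype Pt] [DecidableEq Pt] [Fintype ι] [Fintype Ω] (J : Prob k F Pt ι Ω),
  Dir J → Sep J → J.WP → J.Bnd ∧ ((∀ (c : F), ∀ b ∈ J.B, c • b ∈ J.B) →
    (∀ i, finrank k (J.H i i) ≤ finrank k F) → ∀ (V : Type) [AddCommGroup V] [Module F V]
      [FiniteDimensional F V] (M : Obj J V), M.Indec → Nice M)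

/-! ### Unit forms -/

/-- Bounded supports. -/
def SLW : Prop := ∀ (ι Ω : Type) [Fintype ι] [Fintype Ω] (G : ι ⊕ Ω → ι ⊕ Ω → ℤ) (L : ℕ),
  UForm G → GNoPath G L → ∀ x : ι ⊕ Ω → ℤ, 0 ≤ x → bil G x x = 2 → ∀ o o', 0 < x (.inr o) →
    0 < x (.inr o') → GNear G (2 * L + 20) o o'

/-- Valued vertices in roots. -/
def SVV : Prop := ∀ (ι Ω : Type) [Fintype ι] [Fintype Ω] (G : ι ⊕ Ω → ι ⊕ Ω → ℤ) (val : Set ι),
  UForm G → Mon G val → ∀ x : ι ⊕ Ω → ℤ, 0 ≤ x → bil G x x = 2 → ∀ z ∈ val, 0 < x (.inl z) →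
    (∀ o o', G (.inl z) (.inr o) = -1 → 0 < x (.inr o') → 0 < x (.inr o)) ∧
    (V2 G val → ∀ z' ∈ val, 0 < x (.inl z') → ∀ o o', G (.inl z) (.inr o) = -1 →
      G (.inl z') (.inr o') = -1 → o = o') ∧
    (V1 G val → ∀ X o₁ o₂ o₃, 0 < x (.inl X) → G (.inl X) (.inr o₁) = -1 →
      G (.inl X) (.inr o₂) = -1 → G (.inl X) (.inr o₃) = -1 → o₁ = o₂ ∨ o₁ = o₃ ∨ o₂ = o₃)

/-- The Gram matrix of a thin directed problem. -/
def SGram : Prop := ∀ (k F : Type) [Field k] [Field F] [Algebra k F] [FiniteDimensional k F]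
  (Pt ι Ω : Type) [Fintype Pt] [DecidableEq Pt] [Fintype ι] [Fintype Ω] (J : Prob k F Pt ι Ω)
  (L : ℕ), ThinDir J L → J.WP → UForm (gram J) ∧ GNoPath (gram J) L ∧
    (∀ c o o', GNear (gram J) c o o' → J.Near c o o') ∧
    (∀ d v, J.Root d v → bil (gram J) (vec d v) (vec d v) = 2) ∧
    (∀ i, finrank k (J.H i i) = finrank k F) ∧ Dir J ∧
    ∀ d v, bil (gram J) (vec d v) (vec d v) * finrank k F +
      2 * ((∑ p, d (J.vt p) * v (J.pk p)) * finrank k F : ℕ) =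
      2 * ((∑ o, v o ^ 2) * finrank k F + ∑ i, ∑ j, d i * d j * finrank k (J.H i j) : ℕ)

/-! ### Covers and density -/

/-- Existence of pieces. -/
def SPiece : Prop := ∀ (k F : Type) [Field k] [Field F] [Algebra k F] (Pt ι Ω : Type) [Fintype Pt]
  [DecidableEq Pt] (P : Prob k F Pt ι Ω) (G : Type) [Group G] (deg : Pt → G), Graded P deg →
  (∀ (Γ : Finset (ι × G)) (Θ : Finset (Ω × G)), (∀ x ∈ Γ, ∃ p, P.vt p = x.1) →
    ∃ (T I O : Type) (_ : Fintype T) (_ : DecidableEq T) (_ : Fintype I) (_ : Fintype O)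
      (J : Prob k F T I O) (π : T → Pt) (γ : I → ι × G) (θ : O → Ω × G),
      Lift J P deg π γ θ ∧ Set.range γ = Γ ∧ (Θ : Set (Ω × G)) ⊆ Set.range θ) ∧
  ∀ (P₀ : Prob k F Pt ι Ω) (T I O : Type) [Fintype T] [DecidableEq T] (J₀ : Prob k F T I O)
    (π : T → Pt) (γ : I → ι × G) (θ : O → Ω × G), P.vt = P₀.vt → P.pk = P₀.pk →
    Lift J₀ P₀ deg π γ θ → ∃ J : Prob k F T I O, J.vt = J₀.vt ∧ J.pk = J₀.pk ∧ Lift J P deg π γ θ

/-- Composition of covers, and weak positivity of covers. -/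
def SCov1 : Prop := ∀ (k F : Type) [Field k] [Field F] [Algebra k F] (Pt ι Ω : Type) [Fintype Pt]
  [DecidableEq Pt] (P : Prob k F Pt ι Ω) (T I O : Type) [Fintype T] [DecidableEq T]
  (J : Prob k F T I O) (π : T → Pt), Cover J P π →
  (∀ (T' I' O' : Type) [Fintype T'] [DecidableEq T'] (J' : Prob k F T' I' O') (π' : T' → T),
    Cover J' J π' → Cover J' P (π ∘ π')) ∧
  (∀ [Fintype I] [Fintype O], Surjective J.vt → Hyp P.B → J.WP) ∧
  (∀ t t', J.pk t = J.pk t' → (J.Ar t t' ↔ P.Ar (π t) (π t'))) ∧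
  (∀ (S : Pt → Prop) [DecidablePred S] (h : SubOk P S), MorOk P S →
    ∃ h' : SubOk J (fun t => S (π t)), Cover (J.sub (fun t => S (π t)) h') (P.sub S h)
      fun t => ⟨π t.1, t.2⟩)

/-- Properties of push-downs. -/
def SPush : Prop := ∀ (k F : Type) [Field k] [Field F] [Algebra k F] (Pt ι Ω : Type) [Fintype Pt]
  [DecidableEq Pt] [Fintype Ω] (P : Prob k F Pt ι Ω) (T I O : Type) [Fintype T] [DecidableEq T]
  [Fintype O] (J : Prob k F T I O) (π : T → Pt) (ρ : O → Ω) (V : Type) [AddCommGroup V]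
  [Module F V] (N : Obj J V) (M : Obj P V), Cover J P π → Push π ρ N M →
  (∀ (T' I' O' : Type) [Fintype T'] [DecidableEq T'] [Fintype O'] (J' : Prob k F T' I' O')
    (π' : T' → T) (ρ' : O' → O) (N' : Obj J' V), Cover J' J π' → Push π' ρ' N' N →
    Push (π ∘ π') (ρ ∘ ρ') N' M) ∧
  (∀ g, M.IsHom M g → N.IsHom N (∑ o, N.ε o ∘ₗ g ∘ₗ N.ε o)) ∧
  (∀ (A : Set I) (A' : Set ι), (∀ t, J.vt t ∈ A → P.vt (π t) ∈ A') → N.Gen A → M.Gen A') ∧
  (∀ c o o', J.Near c o o' → P.Near c (ρ o) (ρ o')) ∧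
  ∀ ω, M.ε ω ≠ 0 → ∃ o, ρ o = ω ∧ N.ε o ≠ 0

/-- Graded objects are push-downs. -/
def SConv : Prop := ∀ (k F : Type) [Field k] [Field F] [Algebra k F] (Pt ι Ω : Type) [Fintype Pt]
  [DecidableEq Pt] [Fintype Ω] (P : Prob k F Pt ι Ω) (G : Type) [Group G] (deg : Pt → G)
  (T I O : Type) [Fintype T] [DecidableEq T] [Fintype O] (J : Prob k F T I O) (π : T → Pt)
  (γ : I → ι × G) (θ : O → Ω × G), Lift J P deg π γ θ → ∀ (V : Type) [AddCommGroup V] [Module F V]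
  (M : Obj P V) (Γ : Grd M deg), (∀ o g, Γ.π g ∘ₗ M.ε o ≠ 0 → (o, g) ∈ Set.range θ) →
  (∀ p g, Γ.π (g * deg p) ∘ₗ M.ε (P.pk p) ≠ 0 → (P.vt p, g) ∈ Set.range γ) →
  ∃ N : Obj J V, Push π (fun o => (θ o).1) N M ∧ (∀ o, N.ε o = Γ.π (θ o).2 ∘ₗ M.ε (θ o).1) ∧
    ∀ e, N.IsHom N e ↔ M.IsHom M e ∧ ∀ g, e ∘ₗ Γ.π g = Γ.π g ∘ₗ e

/-- The density lemma. -/
def SDL : Prop := ∀ (k F : Type) [Field k] [Field F] [Algebra k F] [FiniteDimensional k F]
  (Pt ι Ω : Type) [Fintype Pt] [DecidableEq Pt] [Fintype Ω] (P : Prob k F Pt ι Ω) (G : Type)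
  [Group G] (deg : Pt → G), (∀ (s : G) (n : ℕ), 0 < n → s ^ n = 1 → s = 1) → Graded P deg →
  ∀ D : Finset G, (∀ (V : Type) [AddCommGroup V] [Module F V] [FiniteDimensional F V] (M : Obj P V)
    (Γ : Grd M deg), Γ.Indec → ∀ g g', Γ.π g ≠ 0 → Γ.π g' ≠ 0 → g⁻¹ * g' ∈ D) →
  ∀ (V : Type) [AddCommGroup V] [Module F V] [FiniteDimensional F V] (M : Obj P V), M.Indec →
    Nonempty (Grd M deg)

/-- From pieces to the base. -/
def SCov : Prop := ∀ (k F : Type) [Field k] [Field F] [Algebra k F] [FiniteDimensional k F]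
  (Pt ι Ω : Type) [Fintype Pt] [DecidableEq Pt] [Fintype Ω] (P : Prob k F Pt ι Ω) (G : Type)
  [Group G] (deg : Pt → G), (∀ (s : G) (n : ℕ), 0 < n → s ^ n = 1 → s = 1) → Graded P deg →
  ∀ (c : ℕ) (𝒢 : Set (ι × G) → Prop),
  (∀ Γ₀ : Finset (ι × G), (∀ x ∈ Γ₀, ∃ p, P.vt p = x.1) →
    ∃ Γ : Finset (ι × G), Γ₀ ⊆ Γ ∧ (∀ x ∈ Γ, ∃ p, P.vt p = x.1) ∧ 𝒢 Γ) →
  (∀ (T I O : Type) [Fintype T] [DecidableEq T] [Fintype I] [Fintype O] (J : Prob k F T I O)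
    (π : T → Pt) (γ : I → ι × G) (θ : O → Ω × G), Lift J P deg π γ θ → 𝒢 (Set.range γ) →
    J.Bnd ∧ J.Small c) →
  GBnd P deg ∧ P.Bnd ∧ P.Small c ∧ ∀ (V : Type) [AddCommGroup V] [Module F V]
    [FiniteDimensional F V] (M : Obj P V), M.Indec →
    ∃ (T I O : Type) (_ : Fintype T) (_ : DecidableEq T) (_ : Fintype I) (_ : Fintype O)
      (J : Prob k F T I O) (π : T → Pt) (γ : I → ι × G) (θ : O → Ω × G) (N : Obj J V),
      Lift J P deg π γ θ ∧ 𝒢 (Set.range γ) ∧ N.Indec ∧ Push π (fun o => (θ o).1) N M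

/-- Filtered density. -/
def SFD : Prop := ∀ (k F : Type) [Field k] [Field F] [Algebra k F] [FiniteDimensional k F]
  (Pt ι : Type) [Fintype Pt] [DecidableEq Pt] (P P₀ : Prob k F Pt ι Unit) (w : Pt → ℝ),
  P₀.vt = P.vt → (∀ b₀ ∈ P₀.B, ∀ (i j : ι) (s : ℝ), ∃ b ∈ P.B, ∀ q p, P.vt p = i → P.vt q = j →
    (w p - w q = s → b q p = b₀ q p) ∧ (s < w p - w q → b q p = 0)) →
  GBnd P₀ (fun p => Multiplicative.ofAdd (w p)) → P.Bnd

/-- Separation for closed pieces. -/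
def SSep : Prop := ∀ (k F : Type) [Field k] [Field F] [Algebra k F] (Pt ι Ω : Type) [Fintype Pt]
  [DecidableEq Pt] [Fintype ι] (P : Prob k F Pt ι Ω) (G : Type) [Group G] (deg : Pt → G)
  (val : Set ι), Dir P → Sides P.vt P.Ar (Tie P.vt P.R0) deg val →
  (∀ p q, P.vt p = P.vt q → P.vt p ∉ val → P.pk p = P.pk q → p = q) →
  (∀ i j, i ∉ val → ∀ (c : F), ∀ b ∈ P.H i j, c • b ∈ P.B) →
  (∀ z ∈ val, RowSimple P z) → (∀ p q, P.vt p = P.vt q → P.vt p ∈ val → deg p = deg q) →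
  (∀ Γ₀ : Finset (ι × G), (∀ x ∈ Γ₀, ∃ p, P.vt p = x.1) → ∃ Γ : Finset (ι × G), Γ₀ ⊆ Γ ∧
    (∀ x ∈ Γ, ∃ p, P.vt p = x.1) ∧
    ∀ x ∈ (Γ : Set (ι × G)), ∀ y, LS P.vt P.Ar deg x y → y ∈ (Γ : Set (ι × G))) ∧
  ∀ (T I O : Type) [Fintype T] [DecidableEq T] (J : Prob k F T I O) (π : T → Pt) (γ : I → ι × G)
    (θ : O → Ω × G), Lift J P deg π γ θ →
    (∀ x ∈ Set.range γ, ∀ y, LS P.vt P.Ar deg x y → y ∈ Set.range γ) → Dir J ∧ Sep J

/-! ### The non-valued case -/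

/-- Weak positivity of the covers of windows. -/
def SWP : Prop := ∀ (k F : Type) [Field k] [Field F] [Algebra k F] [FiniteDimensional k F]
  (Pt ι : Type) [Fintype Pt] [DecidableEq Pt] [Fintype ι] (Q Qu : Prob k F Pt ι Unit) (ht : Pt → ℕ),
  Flag Q ∅ ht → Tws Q → Hyp Q.B → IsUntw Q Qu →
  ∀ (T I O : Type) [Fintype T] [DecidableEq T] [Fintype I] [Fintype O] (J : Prob k F T I O)
    (π : T → Pt) (L : ℕ), Cover J Qu π → ThinDir J L →
  ∀ (T' I' O' : Type) [Fintype T'] [DecidableEq T'] [Fintype I'] [Fintype O']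
    (J' : Prob k F T' I' O') (π' : T' → T), Cover J' J π' → ThinDir J' L → J'.WP

/-- Thin directed problems with separation. -/
def SPF : Prop := ∀ (k F : Type) [Field k] [Field F] [Algebra k F] [FiniteDimensional k F]
  (Pt ι Ω : Type) [Fintype Pt] [DecidableEq Pt] [Fintype ι] [Fintype Ω] (J : Prob k F Pt ι Ω)
  (L : ℕ), ThinDir J L → Sep J → J.WP → J.Bnd ∧ J.Small (2 * L + 20) ∧
    ∀ (V : Type) [AddCommGroup V] [Module F V] [FiniteDimensional F V] (M : Obj J V),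
      M.Indec → Nice M

/-- Real weights and windows. -/
def SW : Prop := ∀ (k F : Type) [Field k] [Field F] [Algebra k F] [FiniteDimensional k F]
  (Pt ι : Type) [Fintype Pt] [DecidableEq Pt] [Fintype ι] (Q Qu : Prob k F Pt ι Unit) (ht : Pt → ℕ),
  Flag Q ∅ ht → Hyp Q.B → IsUntw Q Qu → Thin Q.vt Q.R0 → Tws Q ∧
  ∃ w : Pt → ℝ, Graded Qu (fun p => Multiplicative.ofAdd (w p)) ∧
    (∀ b₀ ∈ Qu.B, ∀ (i j : ι) (s : ℝ), ∃ b ∈ Q.B, ∀ q p, Q.vt p = i → Q.vt q = j →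
      (w p - w q = s → b q p = b₀ q p) ∧ (s < w p - w q → b q p = 0)) ∧
    ∀ (T I O : Type) [Fintype T] [DecidableEq T] [Fintype I] (J : Prob k F T I O) (π : T → Pt)
      (γ : I → ι × Multiplicative ℝ) (θ : O → Unit × Multiplicative ℝ),
      Lift J Qu (fun p => Multiplicative.ofAdd (w p)) π γ θ → ThinDir J (Fintype.card Pt ^ 2 + 1)

/-- Thin directed problems all of whose covers are weakly positive. -/
def SWin : Prop := ∀ (k F : Type) [Field k] [Field F] [Algebra k F] [FiniteDimensional k F]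
  (Pt ι Ω : Type) [Fintype Pt] [DecidableEq Pt] [Fintype ι] [Fintype Ω] (J : Prob k F Pt ι Ω)
  (L : ℕ), ThinDir J L →
  (∀ (T I O : Type) [Fintype T] [DecidableEq T] [Fintype I] [Fintype O] (J' : Prob k F T I O)
    (π : T → Pt), Cover J' J π → ThinDir J' L → J'.WP) →
  J.Bnd ∧ J.Small (2 * L + 20) ∧ DG J L

/-- The structure of thin non-valued problems. -/
def SDG : Prop := ∀ (k F : Type) [Field k] [Field F] [Algebra k F] [FiniteDimensional k F]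
  (Pt ι : Type) [Fintype Pt] [DecidableEq Pt] [Fintype ι] (Q Qu : Prob k F Pt ι Unit) (ht : Pt → ℕ),
  Flag Q ∅ ht → Hyp Q.B → IsUntw Q Qu → Thin Q.vt Q.R0 →
  Q.Bnd ∧ DG Qu (Fintype.card Pt ^ 2 + 1)

/-- The induction step for thin bases. -/
def SThinStep : Prop := ∀ (k F : Type) [Field k] [Field F] [Algebra k F] [FiniteDimensional k F]
  (Pt ι : Type) [Fintype Pt] [DecidableEq Pt] [Fintype ι] (Q : Prob k F Pt ι Unit) (ht : Pt → ℕ)
  (t : Pt), Flag Q ∅ ht → Hyp Q.B → (∀ p, ¬ Q.Ar p t) → ∀ (h : SubOk Q fun p => p ≠ t)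
  (Qu : Prob k F {p // p ≠ t} ι Unit) (L : ℕ), IsUntw (Q.sub (fun p => p ≠ t) h) Qu →
  Thin (Q.sub (fun p => p ≠ t) h).vt (Q.sub (fun p => p ≠ t) h).R0 → DG Qu L →
  ∃ (Q' : Prob k F Pt ι Unit) (g g' : Matrix Pt Pt F), IsConj Q Q' g g' ∧
    (∀ q p, g q p ≠ 0 → ht p ≤ ht q) ∧ (∀ q p, g' q p ≠ 0 → ht p ≤ ht q) ∧ Thin Q'.vt Q'.R0

/-- Thin bases exist. -/
def SThin : Prop := ∀ (k F : Type) [Field k] [Field F] [Algebra k F] [FiniteDimensional k F]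
  (Pt ι : Type) [Fintype Pt] [DecidableEq Pt] [Fintype ι] (Q : Prob k F Pt ι Unit) (ht : Pt → ℕ),
  Flag Q ∅ ht → Hyp Q.B → ∃ (Q' : Prob k F Pt ι Unit) (g g' : Matrix Pt Pt F), IsConj Q Q' g g' ∧
    (∀ q p, g q p ≠ 0 → ht p ≤ ht q) ∧ (∀ q p, g' q p ≠ 0 → ht p ≤ ht q) ∧ Thin Q'.vt Q'.R0

/-! ### The valued case -/

/-- A conjugation that makes the fat problem thin. -/
def SThinV : Prop := ∀ (k F : Type) [Field k] [Field F] [Algebra k F] [FiniteDimensional k F]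
  (Pt ι : Type) [Fintype Pt] [DecidableEq Pt] [Fintype ι] (P : Prob k F Pt ι Unit) (val : Set ι)
  (ht : Pt → ℕ) (S : Pt → Prop) [DecidablePred S], Flag P val ht → Hyp P.B → IsRep P.vt val S →
  ∃ (P' : Prob k F Pt ι Unit) (g g' : Matrix Pt Pt F), IsConj P P' g g' ∧ Flag P' val ht ∧
    ∀ Pf, IsFat P' val Pf → ∀ h : SubOk Pf S, Thin (Pf.sub S h).vt (Pf.sub S h).R0

/-- The inequalities for valued vertices. -/
def SV12 : Prop := ∀ (k F : Type) [Field k] [Field F] [Algebra k F] [FiniteDimensional k F]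
  (Pt ι : Type) [Fintype Pt] [DecidableEq Pt] [Fintype ι] (P Pf : Prob k F Pt ι Unit) (val : Set ι)
  (ht : Pt → ℕ) (S : Pt → Prop) [DecidablePred S] (h : SubOk Pf S), Flag P val ht → Hyp P.B →
  IsRep P.vt val S → Val P Pf val →
  ∀ (T I O : Type) [Fintype T] [DecidableEq T] [Fintype I] [Fintype O] (J : Prob k F T I O)
    (π : T → {p // S p}) (L : ℕ), Cover J (Pf.sub S h) π → ThinDir J L → J.WP →
    Mon (gram J) {i | ∃ t, J.vt t = i ∧ P.vt (π t).1 ∈ val} ∧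
    V1 (gram J) {i | ∃ t, J.vt t = i ∧ P.vt (π t).1 ∈ val} ∧
    V2 (gram J) {i | ∃ t, J.vt t = i ∧ P.vt (π t).1 ∈ val}

/-- The mixed case. -/
def SMix : Prop := ∀ (k F : Type) [Field k] [Field F] [Algebra k F] [FiniteDimensional k F]
  (Pt ι : Type) [Fintype Pt] [DecidableEq Pt] [Fintype ι] (P Pp Pd Pf : Prob k F Pt ι Unit)
  (val : Set ι) (ht : Pt → ℕ), Flag P val ht → Good P val → IsPlus P val Pp → IsDv P val Pd →
  IsFat P val Pf →
  (∀ (V : Type) [AddCommGroup V] [Module F V] [FiniteDimensional F V] (M : Obj Pf V), M.Indec →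
    M.Gen {i | i ∉ val} ∨ M.Gen {i | i ∈ val ∨ ¬ Tri3 P.vt i}) →
  Pp.Bnd → Pd.Bnd → P.Bnd

/-- Generators of the objects of the fat problem. -/
def SGenF : Prop := ∀ (k F : Type) [Field k] [Field F] [Algebra k F] [FiniteDimensional k F]
  (Pt ι : Type) [Fintype Pt] [DecidableEq Pt] [Fintype ι] (P Pf : Prob k F Pt ι Unit) (val : Set ι)
  (ht : Pt → ℕ) (S : Pt → Prop) [DecidablePred S] (h : SubOk Pf S) (L : ℕ), Flag P val ht →
  Hyp P.B → IsRep P.vt val S → Val P Pf val → MorOk Pf S → DG (Pf.sub S h) L →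
  ∀ (V : Type) [AddCommGroup V] [Module F V] [FiniteDimensional F V] (M : Obj Pf V), M.Indec →
    M.Gen {i | i ∉ val} ∨ M.Gen {i | i ∈ val ∨ ¬ Tri3 P.vt i}

/-- Lifts of valued problems. -/
def SValLift : Prop := ∀ (k F : Type) [Field k] [Field F] [Algebra k F] (Pt ι Ω : Type)
  [Fintype Pt] [DecidableEq Pt] [Fintype ι] (J Jf : Prob k F Pt ι Ω) (val : Set ι) (S : Pt → Prop)
  [DecidablePred S] (h : SubOk Jf S), IsRep J.vt val S → Val J Jf val →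
  ∀ (G : Type) [Group G] (d₀ : {p // S p} → G), Graded (Jf.sub S h) d₀ →
  ∃ deg : Pt → G, (∀ p : {p // S p}, deg p.1 = d₀ p) ∧
    (∀ p q, J.vt p = J.vt q → J.vt p ∈ val → deg p = deg q) ∧ Graded J deg ∧ Graded Jf deg ∧
    (Sides (Jf.sub S h).vt (Jf.sub S h).Ar (Tie (Jf.sub S h).vt (Jf.sub S h).R0) d₀ ∅ →
      Sides J.vt J.Ar (Tie J.vt J.R0) deg val) ∧
    (∀ x y, LS (Jf.sub S h).vt (Jf.sub S h).Ar d₀ x y → LS J.vt J.Ar deg x y) ∧
    ∀ (T I O : Type) [Fintype T] [DecidableEq T] (J' : Prob k F T I O) (π : T → Pt)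
      (γ : I → ι × G) (θ : O → Ω × G), Lift J' J deg π γ θ →
      ∃ (Jf' : Prob k F T I O) (h' : SubOk Jf' fun t => S (π t)),
        Val J' Jf' {i | (γ i).1 ∈ val} ∧ IsRep J'.vt {i | (γ i).1 ∈ val} (fun t => S (π t)) ∧
        Lift (Jf'.sub (fun t => S (π t)) h') (Jf.sub S h) d₀ (fun t => ⟨π t.1, t.2⟩) γ θ

/-- Valued problems over thin directed problems are directed. -/
def SValDir : Prop := ∀ (k F : Type) [Field k] [Field F] [Algebra k F] (Pt ι Ω : Type)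
  [Fintype Pt] [DecidableEq Pt] [Fintype ι] (J Jf : Prob k F Pt ι Ω) (val : Set ι) (S : Pt → Prop)
  [DecidablePred S], IsRep J.vt val S → Val J Jf val → MorOk Jf S ∧
  ∀ (h : SubOk Jf S) (L : ℕ), ThinDir (Jf.sub S h) L → Dir J ∧
    (∀ p q, J.vt p = J.vt q → J.vt p ∉ val → J.pk p = J.pk q → p = q) ∧
    ∀ i j, i ∉ val → ∀ (c : F), ∀ b ∈ J.H i j, c • b ∈ J.B

/-- Supports of the objects of a valued piece. -/
def SValSmall : Prop := ∀ (k F : Type) [Field k] [Field F] [Algebra k F] [FiniteDimensional k F]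
  (Pt ι Ω : Type) [Fintype Pt] [DecidableEq Pt] [Fintype ι] [Fintype Ω] (J Jf : Prob k F Pt ι Ω)
  (val : Set ι) (S : Pt → Prop) [DecidablePred S] (h : SubOk Jf S) (c : ℕ), IsRep J.vt val S →
  Val J Jf val → (Jf.sub S h).Small c →
  (∀ (V : Type) [AddCommGroup V] [Module F V] [FiniteDimensional F V] (M : Obj (Jf.sub S h) V),
    M.Indec → ∃ A : Set ι, M.Gen A ∧ ∀ p q : {p // S p}, J.vt p.1 ∈ A → J.vt q.1 ∈ A →
      J.vt p.1 ∈ val → J.vt q.1 ∈ val → J.pk p.1 = J.pk q.1 ∧ M.ε (J.pk p.1) ≠ 0) →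
  J.Small (2 * c)

/-- The valued untwisted case. -/
def SVal : Prop := ∀ (k F : Type) [Field k] [Field F] [Algebra k F] [FiniteDimensional k F]
  (Pt ι : Type) [Fintype Pt] [DecidableEq Pt] [Fintype ι] (P Pf : Prob k F Pt ι Unit) (val : Set ι)
  (ht : Pt → ℕ) (S : Pt → Prop) [DecidablePred S] (h : SubOk Pf S), Flag P val ht → Hyp P.B →
  IsRep P.vt val S → Val P Pf val → Flag (Pf.sub S h) ∅ (fun p => ht p.1) →
  (∀ i (c : F), c • (Pf.sub S h).e i ∈ (Pf.sub S h).B) →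
  Thin (Pf.sub S h).vt (Pf.sub S h).R0 → P.Bnd

end Pool.Agent.MP_bd94e8_al.H89
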